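import Pool.Agent.Helper48.HY.Exc
import Pool.Agent.Helper21.HY.CI

/-!
# A free linear space in a complete intersection which is nonsingular along a linear space
-/

set_option autoImplicit false
set_option linter.unusedSectionVars false

namespace Pool.Agent.Helper4.HY

open MvPolynomial Pool.Agent.Helper4.QH Pool.Agent.Helper48.HY

universe u v w

/-- the intersection of the hypersurfaces `F i = 0` is nonsingular of codimension `r` along the linear space
spanned by the points `L l` -/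
def NsgAlong {k : Type u} [Field k] {r N N' : ℕ} (F : Fin r → MvPolynomial (Fin N) k)
    (L : Fin N' → Fin N → k) : Prop :=
  ∀ z : Fin N' → k, (∀ i, aeval (fun j => ∑ l, z l * L l j) (F i) = 0) →
    ∀ μ : Fin r → k, (∀ j, ∑ i, μ i * aeval (fun j => ∑ l, z l * L l j) (pderiv j (F i)) = 0) → z = 0 ∨ μ = 0

theorem excL {k : Type u} [Field k] [IsAlgClosed k] [CharZero k] {r N N' a : ℕ} {d : Fin r → ℕ}
    (hd : ∀ i, 2 ≤ d i) (ha : 1 ≤ a) (hr : 1 ≤ r)
    (hN : ∑ i, (Nat.choose (a + d i - 1) (d i) + Nat.choose (a + d i - 2) (d i - 1)) ≤ N')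
    (F : Fin r → MvPolynomial (Fin N) k) (L : Fin N' → Fin N → k) (hF : ∀ i, (F i).IsHomogeneous (d i))
    (hs : NsgAlong F L) :
    ∃ P : Fin a → Fin N → k, ∀ G : Fin r → MvPolynomial (Fin a ⊕ Fin N) k,
      (∀ i, G i = aeval (fun j => ∑ l, C (P l j) * X (Sum.inl l) + X (Sum.inr j)) (F i)) →
        (∀ i, Van (G i)) ∧ Free d G := by
  classical
  obtain ⟨a, rfl⟩ : ∃ a', a = a' + 1 := ⟨a - 1, by omega⟩
  obtain ⟨e, rfl⟩ : ∃ e : Fin r → ℕ, d = fun i => e i + 1 :=
    ⟨fun i => d i - 1, funext fun i => (Nat.sub_add_cancel (le_trans (by norm_num) (hd i))).symm⟩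
  have hF' : ∀ i, (F i).IsHomogeneous (e i + 1) := hF
  have hFd : ∀ i l, (pderiv l (F i)).IsHomogeneous (e i) := by
    intro i l
    have := (hF' i).pderiv (i := l)
    rwa [Nat.add_sub_cancel] at this
  have hLv : ∀ (z : Fin N' → k) (f : MvPolynomial (Fin N) k),
      aeval z (aeval (fun j => ∑ l, X l * C (L l j) : Fin N → MvPolynomial (Fin N') k) f) =
        aeval (fun j => ∑ l, z l * L l j) f := by
    intro z f
    have h := congrFun (congrArg DFunLike.coe (comp_aeval
      (fun j => ∑ l, X l * C (L l j) : Fin N → MvPolynomial (Fin N') k)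
      (aeval z : MvPolynomial (Fin N') k →ₐ[k] k))) f
    refine h.trans ?_
    congr 2
    funext i'
    rw [map_sum]
    refine Finset.sum_congr rfl fun l _ => ?_
    rw [map_mul, aeval_X]
    exact congrArg (z l * ·) (aeval_C z (L l i'))
  obtain ⟨p, W, hp, hW⟩ := point2 (a := a)
    (F := fun i => aeval (fun j => ∑ l, X l * C (L l j) : Fin N → MvPolynomial (Fin N') k) (F i))
    (D := fun i l => aeval (fun j => ∑ l, X l * C (L l j) : Fin N → MvPolynomial (Fin N') k)
      (pderiv l (F i))) (fun z hz μ hμ => hs z (fun i => by rw [← hLv]; exact hz i) μ (fun l => by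
        rw [← hμ l]
        refine Finset.sum_congr rfl fun i _ => ?_
        rw [hLv])) (fun i => lin_hom L (hF' i)) (fun i l => lin_hom L (hFd i l)) (by
    unfold GG
    rw [Fintype.card_sigma, Fintype.card_sigma, ← Finset.sum_add_distrib]
    refine le_trans (Finset.sum_le_sum fun i _ => ?_) hN
    rw [card_AA, card_AA]
    have e1 : a + 1 + (e i + 1) - 2 = a + 1 + e i - 1 := by omega
    simp only
    rw [e1, Nat.add_sub_cancel (e i) 1]) (by
    rw [Fintype.card_pos_iff]
    refine ⟨⟨⟨0, hr⟩, ⟨Finsupp.single 0 (e ⟨0, hr⟩), mem_AA ?_⟩⟩⟩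
    rw [Finsupp.degree_single])
  obtain ⟨P, hPd⟩ : ∃ P : Fin (a + 1) → Fin N → k, P = fun i j => ∑ l, p i l * L l j := ⟨_, rfl⟩
  have hpol : ∀ f : MvPolynomial (Fin N) k,
      pol (aeval (fun j => ∑ l, X l * C (L l j) : Fin N → MvPolynomial (Fin N') k) f) p =
        pol f P := by
    intro f
    rw [pol_lin, hPd]
    rfl
  simp only [hpol] at hp hW
  have hPF : ∀ i, pol (F i) (fun j l => P j l) = 0 := by
    intro i
    ext γ
    rw [coeff_zero]
    by_cases h : γ.degree = e i + 1
    · exact hp i ⟨γ, mem_AA h⟩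
    · exact (pol_hom (hF' i) P).coeff_eq_zero h
  refine ⟨P, fun G hG => ⟨fun i => ?_, ?_⟩⟩
  · unfold Van
    rw [hG, sub_pol]
    exact hPF i
  · intro M _ _ Ψ hΨ
    refine ⟨fun l => ∑ q : GG (a + 1) r e, coeff q.2.1 (Ψ q.1) * algebraMap k M (W q l), fun i => ?_⟩
    unfold lin
    have h1 : ∀ l, aeval (Sum.elim (X : Fin (a + 1) → MvPolynomial (Fin (a + 1)) M) (fun _ => 0))
        (pderiv (Sum.inr l) (G i)) = pol (pderiv l (F i)) (fun j l => algebraMap k M (P j l)) := by
      intro l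
      rw [hG, pderiv_aeval, sub_pol]
    have h2 : ∀ l α, coeff α (pol (pderiv l (F i)) (fun j l => algebraMap k M (P j l))) =
        algebraMap k M (coeff α (pol (pderiv l (F i)) P)) := fun l α =>
      coeff_pol_map (Algebra.ofId k M) (pderiv l (F i)) P α
    ext α
    rw [coeff_sum]
    simp only [h1, coeff_C_mul, h2]
    by_cases h : α.degree = e i
    · have h3 : ∀ q : GG (a + 1) r e, ∑ l, coeff q.2.1 (Ψ q.1) * algebraMap k M (W q l) *
          algebraMap k M (coeff α (pol (pderiv l (F i)) P)) =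
          coeff q.2.1 (Ψ q.1) * if (⟨i, ⟨α, mem_AA h⟩⟩ : GG (a + 1) r e) = q then 1 else 0 := by
        intro q
        have h4 := congrArg (algebraMap k M) (hW ⟨i, ⟨α, mem_AA h⟩⟩ q)
        have h5 : algebraMap k M (if (⟨i, ⟨α, mem_AA h⟩⟩ : GG (a + 1) r e) = q then 1 else 0) =
            if (⟨i, ⟨α, mem_AA h⟩⟩ : GG (a + 1) r e) = q then 1 else 0 := by
          split_ifs
          · rw [map_one]
          · rw [map_zero]
        rw [h5, map_sum] at h4
        rw [← h4, Finset.mul_sum]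
        refine Finset.sum_congr rfl fun l _ => ?_
        rw [map_mul]
        ring
      have h4 : ∀ l, (∑ q : GG (a + 1) r e, coeff q.2.1 (Ψ q.1) * algebraMap k M (W q l)) *
          algebraMap k M (coeff α (pol (pderiv l (F i)) P)) =
          ∑ q : GG (a + 1) r e, coeff q.2.1 (Ψ q.1) * algebraMap k M (W q l) *
            algebraMap k M (coeff α (pol (pderiv l (F i)) P)) := fun l => Finset.sum_mul _ _ _
      rw [Finset.sum_congr rfl fun l _ => h4 l, Finset.sum_comm,
        Finset.sum_congr rfl fun q _ => h3 q, Finset.sum_eq_single ⟨i, ⟨α, mem_AA h⟩⟩]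
      · rw [if_pos rfl, mul_one]
      · intro q _ hne
        rw [if_neg (Ne.symm hne), mul_zero]
      · intro h0
        exact absurd (Finset.mem_univ _) h0
    · have h3 : coeff α (Ψ i) = 0 := (hΨ i).coeff_eq_zero (by
        simp only [Nat.add_sub_cancel]
        exact h)
      rw [h3]
      refine Finset.sum_eq_zero fun l _ => ?_
      rw [(pol_hom (hFd i l) P).coeff_eq_zero h, map_zero, mul_zero]

open Pool.Agent.Helper21.HY in
/-- Numbers for `r` forms of degrees between two and `D` (as in the module `CI` by helper21, with one more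
inequality). -/
theorem admCI' (r D : ℕ) (hr : 1 ≤ r) (hD : 3 ≤ D) (d : Fin r → ℕ) (hd : ∀ i, 2 ≤ d i)
    (hd' : ∀ i, d i ≤ D) : ∃ A, r + 1 ≤ A ∧ Adm A (Fin r) d ∧
      ∑ i, (Nat.choose (A + d i - 1) (d i) + Nat.choose (A + d i - 2) (d i - 1)) ≤
        r * (4 * r) ^ (D * 2 ^ (D - 2)) := by
  obtain ⟨Y, hY⟩ : ∃ Y, Y = (4 * r) ^ (2 ^ (D - 2)) := ⟨_, rfl⟩
  -- `Y` is even and large
  obtain ⟨H, hH⟩ : ∃ H, Y = 2 * H := by
    have : Even Y := by
      rw [hY, Nat.even_pow]
      exact ⟨⟨2 * r, by ring⟩, by positivity⟩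
    exact this.two_dvd
  have hsq : (4 * r) ^ 2 ≤ Y := by
    rw [hY]
    refine Nat.pow_le_pow_right (by omega) ?_
    obtain ⟨e, rfl⟩ : ∃ e, D = e + 3 := ⟨D - 3, by omega⟩
    have := ci_pow1 e
    show 2 ≤ 2 ^ (e + 1)
    omega
  have hDY : 2 * D ≤ Y := by
    obtain ⟨e, rfl⟩ : ∃ e, D = e + 3 := ⟨D - 3, by omega⟩
    calc 2 * (e + 3) ≤ 4 ^ (e + 2) := ci_pow2 e
      _ ≤ (4 * r) ^ (e + 2) := Nat.pow_le_pow_left (by omega) _
      _ ≤ (4 * r) ^ (2 ^ (e + 3 - 2)) := Nat.pow_le_pow_right (by omega) (ci_pow1 e)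
      _ = Y := hY.symm
  have hsq2 : 16 * r ≤ 2 * H := by
    have h1 : 16 * r ≤ (4 * r) ^ 2 := by nlinarith
    omega
  refine ⟨H - 2 * r, by omega, ?_, ?_⟩
  · refine pot D hD r hr (Fin r) d (fun i => ⟨hd i, hd' i⟩) ?_ _ ?_
    · intro j _ _
      calc SS d j ≤ Fintype.card (Fin r) := Finset.card_filter_le _ _
        _ = r := Fintype.card_fin r
        _ ≤ r ^ (D - j + 1) := Nat.le_self_pow (by omega) r
    · rw [← hY]; omega
  · have hone : ∀ i ∈ (Finset.univ : Finset (Fin r)), Nat.choose (H - 2 * r + d i - 1) (d i) +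
        Nat.choose (H - 2 * r + d i - 2) (d i - 1) ≤ Y ^ D := by
      intro i _
      have h2 := hd i
      have h3 := hd' i
      have hn : H - 2 * r + d i - 1 ≤ Y := by omega
      have a1 : 2 * Nat.choose (H - 2 * r + d i - 1) (d i) ≤ Y ^ D :=
        (Nat.mul_le_mul_left 2 (Nat.choose_le_choose _ hn)).trans ((choose_bd Y (d i) h2).trans
          (Nat.pow_le_pow_right (by omega) h3))
      have a2 : 2 * Nat.choose (H - 2 * r + d i - 2) (d i - 1) ≤ Y ^ D := by
        rcases Nat.lt_or_ge 2 (d i) with h4 | h4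
        · exact (Nat.mul_le_mul_left 2 (Nat.choose_le_choose _ (by omega))).trans
            ((choose_bd Y (d i - 1) (by omega)).trans (Nat.pow_le_pow_right (by omega) (by omega)))
        · have h5 : d i = 2 := by omega
          rw [h5]
          have h6 : H - 2 * r + 2 - 2 = H - 2 * r := by omega
          rw [h6, Nat.choose_one_right]
          have h7 : Y ≤ Y ^ D := Nat.le_self_pow (by omega) Y
          omega
      omega
    refine (Finset.sum_le_sum hone).trans ?_
    rw [Finset.sum_const, Finset.card_univ, Fintype.card_fin, smul_eq_mul, hY, ← pow_mul,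
      mul_comm D]

end Pool.Agent.Helper4.HY
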