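import Pool.Agent.Helper4.HY.Dom
import Pool.Agent.Helper4.HY.ExcL
import Pool.Agent.Helper45.HY.EE

/-!
# Complete intersections which are nonsingular along a linear space of large dimension are unirational
-/

set_option autoImplicit false
set_option linter.unusedSectionVars false

namespace Pool.Agent.Helper4.HY

open MvPolynomial Pool.Agent.Helper4.QH

universe u v w

theorem NsgAlong.linearIndependent {k : Type u} [Field k] {r N N' : ℕ} (hr : 1 ≤ r) {d : Fin r → ℕ}
    (hd : ∀ i, 2 ≤ d i) {F : Fin r → MvPolynomial (Fin N) k} (hF : ∀ i, (F i).IsHomogeneous (d i))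
    {L : Fin N' → Fin N → k} (hs : NsgAlong F L) : LinearIndependent k L := by
  rw [Fintype.linearIndependent_iff]
  intro z hz l
  have hz' : (fun j => ∑ l, z l * L l j) = 0 := by
    rw [← hz]
    funext j
    rw [Finset.sum_apply]
    rfl
  have h0 : ∀ {G : MvPolynomial (Fin N) k} {c : ℕ}, G.IsHomogeneous c → c ≠ 0 → aeval (0 : Fin N → k) G = 0 := by
    intro G c hG hc
    have h4 : constantCoeff G = 0 := by
      rw [constantCoeff_eq]
      refine hG.coeff_eq_zero ?_
      simpa using hc.symm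
    rw [aeval_zero, h4, map_zero]
  rcases hs z (fun i => by
    rw [hz']
    exact h0 (hF i) (by have := hd i; omega)) (fun _ => 1) (fun j => by
    refine Finset.sum_eq_zero fun i _ => ?_
    rw [hz', h0 (hF i).pderiv (by have := hd i; omega), mul_zero]) with h1 | h1
  · exact congrFun h1 l
  · exact absurd (congrFun h1 ⟨0, hr⟩) one_ne_zero

/-- Complete intersections which are nonsingular along a linear space of large dimension: the point over a
field of rational functions -/
theorem finC (hLOC : SLOC.{u}) (hKRU : SKRU.{u}) {k : Type u} [Field k] [IsAlgClosed k] [CharZero k]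
    {r D N M : ℕ} (hr : 1 ≤ r) (hD : 3 ≤ D) {d : Fin r → ℕ} (hd : ∀ i, 2 ≤ d i) (hd' : ∀ i, d i ≤ D)
    (hM : r * (4 * r) ^ (D * 2 ^ (D - 2)) ≤ M) (F : Fin r → MvPolynomial (Fin N) k)
    (hF : ∀ i, (F i).IsHomogeneous (d i)) (L : Fin M → Fin N → k) (hL : NsgAlong F L) :
    ∃ (m : ℕ) (P : Fin N → FractionRing (MvPolynomial (Fin m) k)), P ≠ 0 ∧ (∀ i, aeval P (F i) = 0) ∧
      ∀ G : MvPolynomial (Fin N) k, aeval P G = 0 → ∀ x : Fin N → k, (∀ i, aeval x (F i) = 0) →
        aeval x G = 0 := by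
  obtain ⟨A, hA, hadm, hAs⟩ := admCI' r D hr hD d hd hd'
  obtain ⟨P, hP⟩ := excL hd (by omega) hr (hAs.trans hM) F L hF hL
  have hMN : M ≤ N := by
    have h1 := (hL.linearIndependent hr hd hF).fintype_card_le_finrank
    rwa [Fintype.card_fin, Module.finrank_fin_fun] at h1
  have hrM : r ≤ M := by
    refine le_trans ?_ hM
    exact Nat.le_mul_of_pos_right r (pow_pos (by omega) _)
  obtain ⟨Ω, _, _, hPT, hcΩ, R, ⟨j, hj⟩, h0, hder⟩ := topD Pool.Agent.Helper45.HY.sEE hr hd hadm F hF P hP
  have hdom := dom (s := N - r) hLOC hKRU (by omega) hr hA hd F hF P hP R h0 hder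
  have hPT' : Pool.Agent.R867.Mov.PT k Ω := hPT
  obtain ⟨m, ⟨eq⟩⟩ := hPT'.equiv
  have hinj : Function.Injective (eq : Ω →ₐ[k] FractionRing (MvPolynomial (Fin m) k)) := eq.injective
  have hmap : ∀ G : MvPolynomial (Fin N) k, aeval (fun i => (eq : Ω →ₐ[k] FractionRing (MvPolynomial (Fin m) k)) (R i)) G =
      (eq : Ω →ₐ[k] FractionRing (MvPolynomial (Fin m) k)) (aeval R G) := by
    intro G
    rw [← AlgHom.comp_apply, comp_aeval]
  refine ⟨m, fun i => (eq : Ω →ₐ[k] FractionRing (MvPolynomial (Fin m) k)) (R i), ?_, ?_, ?_⟩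
  · intro h1
    exact hj (hinj ((congrFun h1 j).trans (map_zero _).symm))
  · intro i
    rw [hmap, h0, map_zero]
  · intro G hG x hx
    rw [hmap] at hG
    exact hdom G (hinj (hG.trans (map_zero _).symm)) x hx

end Pool.Agent.Helper4.HY
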