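import Mathlib

/-!
# Statements for the irreducibility of complete intersections
-/

set_option autoImplicit false

namespace Pool.Agent.Helper4.HY

open MvPolynomial

universe u

/-- LOC: Let `x` be a nonsingular point of `F = 0`, and let `I` be an ideal which contains the `F i`, vanishes
at `x`, and is stable under the vector fields tangent to the `F i`. Then `I` is generated by the `F i` near `x`. -/
def SLOC : Prop := ∀ (k : Type u) [Field k] [CharZero k] (r N : ℕ) (F : Fin r → MvPolynomial (Fin N) k)
  (x : Fin N → k) (W : Fin N → Fin r → k) (I : Ideal (MvPolynomial (Fin N) k)),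
  (∀ i, aeval x (F i) = 0) →
  (∀ i j, ∑ l, aeval x (pderiv l (F i)) * W l j = if i = j then 1 else 0) →
  (∀ i, F i ∈ I) → (∀ G ∈ I, aeval x G = 0) →
  (∀ w : Fin N → MvPolynomial (Fin N) k, (∀ i, ∑ l, w l * pderiv l (F i) = 0) →
    ∀ G ∈ I, ∑ l, w l * pderiv l G ∈ I) →
  ∀ G ∈ I, ∃ H, aeval x H ≠ 0 ∧ H * G ∈ Ideal.span (Set.range F)

/-- KRU: through every common zero `x` of `r` polynomials in `N = s + r` variables there is an irreducible
variety of dimension at least `s` on which they vanish. -/
def SKRU : Prop := ∀ (k : Type u) [Field k] [IsAlgClosed k] (r s N : ℕ), N = s + r →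
  ∀ (F : Fin r → MvPolynomial (Fin N) k) (x : Fin N → k), (∀ i, aeval x (F i) = 0) →
    ∃ q : Ideal (MvPolynomial (Fin N) k), q.IsPrime ∧ (∀ i, F i ∈ q) ∧ (∀ G ∈ q, aeval x G = 0) ∧
      ∃ t : Fin s → MvPolynomial (Fin N) k, AlgebraicIndependent k (fun j => Ideal.Quotient.mk q (t j))

end Pool.Agent.Helper4.HY
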