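import Pool.Agent.Helper4.HY.Defs4

/-!
# LOC: ideals stable under the tangent vector fields, near a nonsingular point
-/

set_option autoImplicit false
set_option linter.unusedSectionVars false

namespace Pool.Agent.Helper4.HY

open MvPolynomial Matrix

universe u

section

variable {k : Type u} [Field k] {N : ℕ}

/-- Taylor expansion -/
theorem taylor1 (x : Fin N → k) (G : MvPolynomial (Fin N) k) :
    G - C (aeval x G) - ∑ l, (X l - C (x l)) * pderiv l G ∈
      (RingHom.ker (aeval x : MvPolynomial (Fin N) k →ₐ[k] k)) ^ 2 := by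
  classical
  have hu : ∀ l, (X l - C (x l) : MvPolynomial (Fin N) k) ∈ RingHom.ker (aeval x : MvPolynomial (Fin N) k →ₐ[k] k) := by
    intro l
    change aeval x (X l - C (x l)) = 0
    rw [map_sub, aeval_X, aeval_C, Algebra.algebraMap_self, RingHom.id_apply, sub_self]
  have hG : ∀ G : MvPolynomial (Fin N) k, C (aeval x G) - G ∈ RingHom.ker (aeval x : MvPolynomial (Fin N) k →ₐ[k] k) := by
    intro G
    change aeval x (C (aeval x G) - G) = 0
    rw [map_sub, aeval_C, Algebra.algebraMap_self, RingHom.id_apply, sub_self]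
  induction G using MvPolynomial.induction_on with
  | C c =>
    simp
  | add p q hp hq =>
    have e : p + q - C (aeval x (p + q)) - ∑ l, (X l - C (x l)) * pderiv l (p + q) =
        (p - C (aeval x p) - ∑ l, (X l - C (x l)) * pderiv l p) +
        (q - C (aeval x q) - ∑ l, (X l - C (x l)) * pderiv l q) := by
      simp only [map_add, mul_add, Finset.sum_add_distrib]
      ring
    rw [e]
    exact add_mem hp hq
  | mul_X p j hp =>
    have e : p * X j - C (aeval x (p * X j)) - ∑ l, (X l - C (x l)) * pderiv l (p * X j) =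
        (p - C (aeval x p) - ∑ l, (X l - C (x l)) * pderiv l p) * X j +
        (C (aeval x p) - p) * (X j - C (x j)) := by
      have h1 : ∀ l, (X l - C (x l)) * pderiv l (p * X j) =
          (X l - C (x l)) * pderiv l p * X j + (if l = j then (X l - C (x l)) * p else 0) := by
        intro l
        rw [Derivation.leibniz, smul_eq_mul, smul_eq_mul, pderiv_X]
        by_cases h : l = j
        · subst h
          rw [Pi.single_eq_same, if_pos rfl]
          ring
        · rw [Pi.single_eq_of_ne (fun h' => h h'.symm), if_neg h]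
          ring
      rw [Finset.sum_congr rfl fun l _ => h1 l, Finset.sum_add_distrib, Finset.sum_ite_eq' Finset.univ j,
        if_pos (Finset.mem_univ _), ← Finset.sum_mul, map_mul, aeval_X, map_mul]
      ring
    rw [e]
    refine add_mem (Ideal.mul_mem_right _ _ hp) ?_
    rw [pow_two]
    exact Ideal.mul_mem_mul (hG p) (hu j)

end

/-- **LOC** -/
theorem sLOC : SLOC.{u} := by
  classical
  intro k _ _ r N F x W I hFx hW hFI hIx hst
  obtain ⟨A, hA⟩ : ∃ A : Type u, A = MvPolynomial (Fin N) k := ⟨_, rfl⟩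
  obtain ⟨m, hm⟩ : ∃ m : Ideal (MvPolynomial (Fin N) k), m = RingHom.ker (aeval x : MvPolynomial (Fin N) k →ₐ[k] k) :=
    ⟨_, rfl⟩
  have hmem : ∀ f, f ∈ m ↔ aeval x f = 0 := by
    intro f
    rw [hm]
    exact Iff.rfl
  obtain ⟨J, hJ⟩ : ∃ J : Ideal (MvPolynomial (Fin N) k), J = Ideal.span (Set.range F) := ⟨_, rfl⟩
  have hFJ : ∀ i, F i ∈ J := by
    intro i
    rw [hJ]
    exact Ideal.subset_span ⟨i, rfl⟩
  obtain ⟨Jac, hJac⟩ : ∃ Jac : Matrix (Fin r) (Fin N) (MvPolynomial (Fin N) k),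
      Jac = Matrix.of fun i l => pderiv l (F i) := ⟨_, rfl⟩
  obtain ⟨Wc, hWc⟩ : ∃ Wc : Matrix (Fin N) (Fin r) (MvPolynomial (Fin N) k),
      Wc = Matrix.of fun l j => C (W l j) := ⟨_, rfl⟩
  obtain ⟨B, hB⟩ : ∃ B : Matrix (Fin r) (Fin r) (MvPolynomial (Fin N) k), B = Jac * Wc := ⟨_, rfl⟩
  obtain ⟨Δ, hΔ⟩ : ∃ Δ, Δ = B.det := ⟨_, rfl⟩
  have hΔx : aeval x Δ = 1 := by
    rw [hΔ]
    have h1 : aeval x B.det = ((aeval x : MvPolynomial (Fin N) k →ₐ[k] k).mapMatrix B).det :=
      AlgHom.map_det _ _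
    have h2 : (aeval x : MvPolynomial (Fin N) k →ₐ[k] k).mapMatrix B = 1 := by
      ext i j
      rw [AlgHom.mapMatrix_apply, Matrix.map_apply, hB, Matrix.mul_apply, map_sum, Matrix.one_apply, ← hW i j]
      refine Finset.sum_congr rfl fun l _ => ?_
      rw [hJac, hWc, Matrix.of_apply, Matrix.of_apply, map_mul, aeval_C, Algebra.algebraMap_self, RingHom.id_apply]
    rw [h1, h2, Matrix.det_one]
  -- the vector fields
  obtain ⟨w, hw⟩ : ∃ w : (Fin N → MvPolynomial (Fin N) k) → Fin N → MvPolynomial (Fin N) k,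
      w = fun v => Δ • v - Wc *ᵥ (B.adjugate *ᵥ (Jac *ᵥ v)) := ⟨_, rfl⟩
  have htan : ∀ v i, ∑ l, w v l * pderiv l (F i) = 0 := by
    intro v i
    have h1 : ∑ l, w v l * pderiv l (F i) = (Jac *ᵥ w v) i := by
      rw [hJac]
      exact Finset.sum_congr rfl fun l _ => mul_comm _ _
    have h2 : Jac *ᵥ w v = 0 := by
      rw [hw]
      simp only
      rw [Matrix.mulVec_sub, Matrix.mulVec_smul, Matrix.mulVec_mulVec, ← hB, Matrix.mulVec_mulVec,
        Matrix.mul_adjugate, ← hΔ, Matrix.smul_mulVec, Matrix.one_mulVec, sub_self]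
    rw [h1, h2]
    rfl
  have hwI : ∀ v, ∀ G ∈ I, ∑ l, w v l * pderiv l G ∈ I := fun v G hG => hst (w v) (htan v) G hG
  obtain ⟨uu, huu⟩ : ∃ uu : Fin N → MvPolynomial (Fin N) k, uu = fun l => X l - C (x l) := ⟨_, rfl⟩
  have hum : ∀ l, uu l ∈ m := by
    intro l
    rw [hmem, huu]
    simp only
    rw [map_sub, aeval_X, aeval_C, Algebra.algebraMap_self, RingHom.id_apply, sub_self]
  obtain ⟨E, hE⟩ : ∃ E : Derivation k (MvPolynomial (Fin N) k) (MvPolynomial (Fin N) k),
      E = mkDerivation k (w uu) := ⟨_, rfl⟩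
  have hEG : ∀ G, E G = ∑ l, w uu l * pderiv l G := by
    have h0 : ∀ G, (∑ l, w uu l • (pderiv l : Derivation k (MvPolynomial (Fin N) k) (MvPolynomial (Fin N) k))) G =
        ∑ l, w uu l * pderiv l G := by
      intro G
      have h1 := congrFun (map_sum (Derivation.coeFnAddMonoidHom
        (R := k) (A := MvPolynomial (Fin N) k) (M := MvPolynomial (Fin N) k))
        (fun l => w uu l • (pderiv l : Derivation k (MvPolynomial (Fin N) k) (MvPolynomial (Fin N) k)))
        Finset.univ) G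
      rw [Finset.sum_apply] at h1
      exact h1
    have h1 : E = ∑ l, w uu l • (pderiv l : Derivation k (MvPolynomial (Fin N) k) (MvPolynomial (Fin N) k)) := by
      apply MvPolynomial.derivation_ext
      intro j
      rw [hE, mkDerivation_X, h0, Finset.sum_eq_single j]
      · rw [pderiv_X_self, mul_one]
      · intro l _ hl
        rw [pderiv_X_of_ne hl.symm, mul_zero]
      · intro h
        exact absurd (Finset.mem_univ _) h
    intro G
    rw [h1, h0]
  -- linearity
  have hlin : w uu = fun l => ∑ j, uu j * w (Pi.single j 1) l := by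
    let wl : (Fin N → MvPolynomial (Fin N) k) →ₗ[MvPolynomial (Fin N) k] (Fin N → MvPolynomial (Fin N) k) :=
      Δ • LinearMap.id - Wc.mulVecLin ∘ₗ B.adjugate.mulVecLin ∘ₗ Jac.mulVecLin
    have h1 : ∀ v, w v = wl v := by
      intro v
      rw [hw]
      rfl
    funext l
    rw [h1]
    have h2 : uu = ∑ j, uu j • (Pi.single j (1 : MvPolynomial (Fin N) k) : Fin N → MvPolynomial (Fin N) k) := by
      funext l
      rw [Finset.sum_apply, Finset.sum_eq_single l]
      · rw [Pi.smul_apply, Pi.single_eq_same, smul_eq_mul, mul_one]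
      · intro j _ hj
        rw [Pi.smul_apply, Pi.single_eq_of_ne hj.symm, smul_zero]
      · intro h
        exact absurd (Finset.mem_univ _) h
    conv_lhs => rw [h2, map_sum]
    rw [Finset.sum_apply]
    refine Finset.sum_congr rfl fun j _ => ?_
    rw [map_smul, Pi.smul_apply, smul_eq_mul, h1]
  have hEsum : ∀ G, E G = ∑ j, uu j * ∑ l, w (Pi.single j 1) l * pderiv l G := by
    intro G
    rw [hEG, hlin]
    simp only [Finset.sum_mul, Finset.mul_sum]
    rw [Finset.sum_comm]
    exact Finset.sum_congr rfl fun j _ => Finset.sum_congr rfl fun l _ => by ring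
  have hEm : ∀ G, E G ∈ m := by
    intro G
    rw [hEsum]
    exact Ideal.sum_mem _ fun j _ => Ideal.mul_mem_right _ _ (hum j)
  have hEF : ∀ i, E (F i) = 0 := by
    intro i
    rw [hEG, htan]
  have hEJ : ∀ G ∈ J, E G ∈ J := by
    intro G hG
    rw [hJ] at hG
    refine Submodule.span_induction (p := fun G _ => E G ∈ J) ?_ ?_ ?_ ?_ hG
    · rintro _ ⟨i, rfl⟩
      rw [hEF]
      exact zero_mem _
    · rw [map_zero]
      exact zero_mem _
    · intro a b _ _ ha hb
      rw [map_add]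
      exact add_mem ha hb
    · intro c b hb' hb
      rw [smul_eq_mul, Derivation.leibniz, smul_eq_mul, smul_eq_mul]
      refine add_mem (Ideal.mul_mem_left _ _ hb) (Ideal.mul_mem_right _ _ ?_)
      rw [hJ]
      exact hb'
  -- the first order
  have hTay : ∀ G, G - C (aeval x G) - ∑ l, uu l * pderiv l G ∈ m ^ 2 := by
    intro G
    rw [hm, huu]
    exact taylor1 x G
  have hJu : ∀ i, (Jac *ᵥ uu) i ∈ J ⊔ m ^ 2 := by
    intro i
    have h1 := hTay (F i)
    rw [hFx, map_zero, sub_zero] at h1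
    have h2 : (Jac *ᵥ uu) i = F i - (F i - ∑ l, uu l * pderiv l (F i)) := by
      rw [sub_sub_cancel, hJac]
      simp only [Matrix.mulVec, dotProduct, Matrix.of_apply]
      exact Finset.sum_congr rfl fun l _ => mul_comm _ _
    rw [h2]
    exact sub_mem (Ideal.mem_sup_left (hFJ i)) (Ideal.mem_sup_right h1)
  have hwu : ∀ l, w uu l - Δ * uu l ∈ J ⊔ m ^ 2 := by
    intro l
    have h1 : w uu l - Δ * uu l = - ∑ j, (Wc * B.adjugate) l j * (Jac *ᵥ uu) j := by
      have h2 : w uu l = Δ * uu l - ((Wc * B.adjugate) *ᵥ (Jac *ᵥ uu)) l := by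
        rw [hw]
        simp only
        rw [Pi.sub_apply, Pi.smul_apply, smul_eq_mul, Matrix.mulVec_mulVec (Jac *ᵥ uu)]
      rw [h2, sub_sub_cancel_left]
      rfl
    rw [h1]
    exact neg_mem (Ideal.sum_mem _ fun j _ => Ideal.mul_mem_left _ _ (hJu j))
  have hE1 : ∀ G ∈ m, E G - Δ * G ∈ J ⊔ m ^ 2 := by
    intro G hG
    have h1 : E G - Δ * G = ∑ l, (w uu l - Δ * uu l) * pderiv l G - Δ * (G - C (aeval x G) - ∑ l, uu l * pderiv l G) := by
      have h2 : aeval x G = 0 := (hmem G).1 hG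
      rw [hEG, h2, map_zero, sub_zero]
      simp only [sub_mul, Finset.sum_sub_distrib, mul_sub, Finset.mul_sum]
      simp only [mul_assoc]
      ring
    rw [h1]
    exact sub_mem (Ideal.sum_mem _ fun l _ => Ideal.mul_mem_right _ _ (hwu l))
      (Ideal.mul_mem_left _ _ (Ideal.mem_sup_right (hTay G)))
  -- products
  have hmulJ : ∀ (n p : ℕ) (f g : MvPolynomial (Fin N) k), f ∈ m ^ n → g ∈ J ⊔ m ^ p → f * g ∈ J ⊔ m ^ (n + p) := by
    intro n p f g hf hg
    obtain ⟨g₁, hg₁, g₂, hg₂, rfl⟩ := Submodule.mem_sup.1 hg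
    rw [mul_add]
    refine add_mem (Ideal.mem_sup_left (Ideal.mul_mem_left _ _ hg₁)) (Ideal.mem_sup_right ?_)
    rw [pow_add]
    exact Ideal.mul_mem_mul hf hg₂
  have hEn : ∀ (n : ℕ) (G : MvPolynomial (Fin N) k), G ∈ m ^ n → E G - (n : MvPolynomial (Fin N) k) * (Δ * G) ∈ J ⊔ m ^ (n + 1) := by
    intro n
    induction n with
    | zero =>
      intro G _
      rw [Nat.cast_zero, zero_mul, sub_zero, zero_add, pow_one]
      exact Ideal.mem_sup_right (hEm G)
    | succ n ih =>
      intro G hG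
      rw [pow_succ] at hG
      refine Submodule.mul_induction_on hG ?_ ?_
      · intro a ha b hb
        have h1 : E (a * b) - ((n + 1 : ℕ) : MvPolynomial (Fin N) k) * (Δ * (a * b)) =
            b * (E a - (n : MvPolynomial (Fin N) k) * (Δ * a)) + a * (E b - Δ * b) := by
          rw [Derivation.leibniz, smul_eq_mul, smul_eq_mul, Nat.cast_succ]
          ring
        rw [h1]
        refine add_mem ?_ ?_
        · have h2 := hmulJ 1 (n + 1) b _ (by rwa [pow_one]) (ih a ha)
          rwa [add_comm 1 (n + 1)] at h2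
        · exact hmulJ n 2 a _ ha (hE1 b hb)
      · intro a b ha hb
        have h1 : E (a + b) - ((n + 1 : ℕ) : MvPolynomial (Fin N) k) * (Δ * (a + b)) =
            (E a - ((n + 1 : ℕ) : MvPolynomial (Fin N) k) * (Δ * a)) +
            (E b - ((n + 1 : ℕ) : MvPolynomial (Fin N) k) * (Δ * b)) := by
          rw [map_add]
          ring
        rw [h1]
        exact add_mem ha hb
  -- the main step
  have hmain : ∀ n : ℕ, I ≤ J ⊔ m ^ (n + 1) := by
    intro n
    induction n with
    | zero =>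
      intro G hG
      rw [zero_add, pow_one]
      exact Ideal.mem_sup_right ((hmem G).2 (hIx G hG))
    | succ n ih =>
      intro G hG
      have h1 : E G ∈ J ⊔ m ^ (n + 1 + 1) := by
        rw [hEsum]
        refine Ideal.sum_mem _ fun j _ => ?_
        have h2 := hmulJ 1 (n + 1) (uu j) _ (by rw [pow_one]; exact hum j) (ih (hwI (Pi.single j 1) G hG))
        rwa [add_comm 1 (n + 1)] at h2
      obtain ⟨g₁, hg₁, g₂, hg₂, hg⟩ := Submodule.mem_sup.1 (ih hG)
      have h2 := hEn (n + 1) g₂ hg₂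
      have h3 : ((n + 1 : ℕ) : MvPolynomial (Fin N) k) * (Δ * G) ∈ J ⊔ m ^ (n + 1 + 1) := by
        have h4 : ((n + 1 : ℕ) : MvPolynomial (Fin N) k) * (Δ * G) =
            ((n + 1 : ℕ) : MvPolynomial (Fin N) k) * (Δ * g₁) - E g₁ + E G -
              (E g₂ - ((n + 1 : ℕ) : MvPolynomial (Fin N) k) * (Δ * g₂)) := by
          rw [← hg, map_add]
          ring
        rw [h4]
        refine sub_mem (add_mem (sub_mem ?_ ?_) h1) h2
        · exact Ideal.mem_sup_left (Ideal.mul_mem_left _ _ (Ideal.mul_mem_left _ _ hg₁))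
        · exact Ideal.mem_sup_left (hEJ _ hg₁)
      have h4 : Δ * G ∈ J ⊔ m ^ (n + 1 + 1) := by
        have h5 : Δ * G = C (((n + 1 : ℕ) : k)⁻¹) * (((n + 1 : ℕ) : MvPolynomial (Fin N) k) * (Δ * G)) := by
          rw [← mul_assoc, ← map_natCast (C : k →+* MvPolynomial (Fin N) k), ← map_mul,
            inv_mul_cancel₀ (by exact_mod_cast Nat.succ_ne_zero n), map_one, one_mul]
        rw [h5]
        exact Ideal.mul_mem_left _ _ h3
      have h5 : (1 - Δ) * G ∈ J ⊔ m ^ (n + 1 + 1) := by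
        have h6 := hmulJ 1 (n + 1) (1 - Δ) G (by rw [pow_one, hmem, map_sub, map_one, hΔx, sub_self]) (ih hG)
        rwa [add_comm 1 (n + 1)] at h6
      have h6 : G = Δ * G + (1 - Δ) * G := by ring
      rw [h6]
      exact add_mem h4 h5
  intro G hG
  have h1 : (Ideal.Quotient.mk J G : MvPolynomial (Fin N) k ⧸ J) ∈
      (⨅ i : ℕ, m ^ i • (⊤ : Submodule (MvPolynomial (Fin N) k) (MvPolynomial (Fin N) k ⧸ J))) := by
    rw [Submodule.mem_iInf]
    intro i
    have h2 : G ∈ J ⊔ m ^ i := (sup_le_sup_left (Ideal.pow_le_pow_right (Nat.le_succ i)) J) (hmain i hG)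
    obtain ⟨g₁, hg₁, g₂, hg₂, hg⟩ := Submodule.mem_sup.1 h2
    have h3 : (Ideal.Quotient.mk J G : MvPolynomial (Fin N) k ⧸ J) = g₂ • (Ideal.Quotient.mk J 1 : MvPolynomial (Fin N) k ⧸ J) := by
      rw [← hg, map_add, Ideal.Quotient.eq_zero_iff_mem.2 hg₁, zero_add]
      change Ideal.Quotient.mk J g₂ = Ideal.Quotient.mk J (g₂ * 1)
      rw [mul_one]
    rw [h3]
    exact Submodule.smul_mem_smul hg₂ Submodule.mem_top
  rw [Ideal.mem_iInf_smul_pow_eq_bot_iff] at h1
  obtain ⟨⟨h, hh⟩, h2⟩ := h1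
  refine ⟨1 - h, ?_, ?_⟩
  · rw [map_sub, map_one, (hmem h).1 hh, sub_zero]
    exact one_ne_zero
  · rw [← hJ, sub_mul, one_mul, ← Ideal.Quotient.eq_zero_iff_mem, map_sub, sub_eq_zero]
    exact h2.symm

end Pool.Agent.Helper4.HY
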