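import Pool.Agent.Helper4.HY.Defs

/-!
# Free linear spaces in a linear section
-/

set_option autoImplicit false

namespace Pool.Agent.Helper4.HY

open MvPolynomial

universe u

/-- EXL: a free linear space in a linear space `L` which does not meet the singular locus. The new
coordinates are `∑ i, s i * P i + y`. -/
def SEXL : Prop := ∀ (k : Type u) [Field k] [IsAlgClosed k] [CharZero k] (N N' a d : ℕ), 2 ≤ d → 1 ≤ a →
  Nat.choose (a + d - 1) d + Nat.choose (a + d - 2) (d - 1) ≤ N' →
  ∀ (F : MvPolynomial (Fin N) k) (L : Fin N' → Fin N → k), F.IsHomogeneous d →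
    (∀ z : Fin N' → k, (∀ i, aeval (fun j => ∑ l, z l * L l j) (pderiv i F) = 0) → z = 0) →
    ∃ P : Fin a → Fin N → k, ∀ G : MvPolynomial (Fin a ⊕ Fin N) k,
      G = aeval (fun j => ∑ i, C (P i j) * X (Sum.inl i) + X (Sum.inr j)) F →
        Van G ∧ Free (fun _ : Unit => d) (fun _ : Unit => G)

end Pool.Agent.Helper4.HY
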