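import Pool.Agent.Helper4.HY.Defs

/-!
# The chain rule; polynomials along a pencil
-/

set_option autoImplicit false

namespace Pool.Agent.Helper4.HY

open MvPolynomial

universe u v w

section

variable {K : Type u} [Field K]

/-- the chain rule -/
theorem der_aeval {σ : Type} [Fintype σ] {A : Type v} [CommRing A] [Algebra K A] (D : Derivation K A A)
    (z : σ → A) (F : MvPolynomial σ K) : D (aeval z F) = ∑ i, aeval z (pderiv i F) * D (z i) := by
  classical
  induction F using MvPolynomial.induction_on with
  | C r =>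
    rw [← MvPolynomial.algebraMap_eq, AlgHom.commutes, D.map_algebraMap]
    refine (Finset.sum_eq_zero fun i _ => ?_).symm
    rw [MvPolynomial.algebraMap_eq, pderiv_C, map_zero, zero_mul]
  | add p q hp hq =>
    rw [map_add, map_add, hp, hq, ← Finset.sum_add_distrib]
    refine Finset.sum_congr rfl fun i _ => ?_
    rw [map_add, map_add, add_mul]
  | mul_X p j hp =>
    rw [map_mul, aeval_X, D.leibniz, hp, smul_eq_mul, smul_eq_mul]
    have h1 : ∀ i, aeval z (pderiv i (p * X j)) * D (z i) =
        z j * (aeval z (pderiv i p) * D (z i)) + aeval z p * ((if i = j then 1 else 0) * D (z i)) := by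
      intro i
      rw [Derivation.leibniz, smul_eq_mul, smul_eq_mul, pderiv_X, map_add, map_mul, map_mul, aeval_X,
        Pi.single_apply]
      by_cases h : i = j
      · subst h
        simp
        ring
      · have h' : ¬ j = i := fun h'' => h h''.symm
        simp only [if_neg h, if_neg h']
        simp
        ring
    rw [Finset.sum_congr rfl fun i _ => h1 i, Finset.sum_add_distrib, ← Finset.mul_sum, ← Finset.mul_sum]
    have h2 : ∑ i, (if i = j then (1 : A) else 0) * D (z i) = D (z j) := by
      rw [Finset.sum_eq_single j]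
      · rw [if_pos rfl, one_mul]
      · intro i _ hi
        rw [if_neg hi, zero_mul]
      · intro h
        exact absurd (Finset.mem_univ _) h
    rw [h2, add_comm]

theorem dd_der {σ : Type} [Fintype σ] {A : Type v} [CommRing A] [Algebra K A] (D : Derivation K A A)
    (z : σ → A) (F : MvPolynomial σ K) : dd F z (fun i => D (z i)) = D (aeval z F) := by
  rw [der_aeval]
  exact Finset.sum_congr rfl fun i _ => mul_comm _ _

theorem dd_add {σ : Type} [Fintype σ] {A : Type v} [CommRing A] [Algebra K A] (F : MvPolynomial σ K)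
    (z w w' : σ → A) : dd F z (fun i => w i + w' i) = dd F z w + dd F z w' := by
  rw [dd, dd, dd, ← Finset.sum_add_distrib]
  exact Finset.sum_congr rfl fun i _ => add_mul _ _ _

theorem dd_sub {σ : Type} [Fintype σ] {A : Type v} [CommRing A] [Algebra K A] (F : MvPolynomial σ K)
    (z w w' : σ → A) : dd F z (fun i => w i - w' i) = dd F z w - dd F z w' := by
  rw [dd, dd, dd, ← Finset.sum_sub_distrib]
  exact Finset.sum_congr rfl fun i _ => sub_mul _ _ _

theorem dd_smul {σ : Type} [Fintype σ] {A : Type v} [CommRing A] [Algebra K A] (F : MvPolynomial σ K)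
    (z w : σ → A) (t : A) : dd F z (fun i => t * w i) = t * dd F z w := by
  rw [dd, dd, Finset.mul_sum]
  exact Finset.sum_congr rfl fun i _ => mul_assoc _ _ _

/-- the function `D` applied to the coefficients -/
noncomputable def mapCfun {A : Type v} [CommRing A] [Algebra K A] (D : Derivation K A A) (p : Polynomial A) :
    Polynomial A := ∑ n ∈ p.support, Polynomial.monomial n (D (p.coeff n))

theorem mapCfun_coeff {A : Type v} [CommRing A] [Algebra K A] (D : Derivation K A A) (p : Polynomial A) (n : ℕ) :
    (mapCfun D p).coeff n = D (p.coeff n) := by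
  classical
  rw [mapCfun, Polynomial.finsetSum_coeff]
  simp only [Polynomial.coeff_monomial]
  rw [Finset.sum_ite_eq' _ _ _]
  split_ifs with h
  · rfl
  · rw [Polynomial.notMem_support_iff.1 h, map_zero]

/-- a derivation applied to the coefficients -/
noncomputable def mapC {A : Type v} [CommRing A] [Algebra K A] (D : Derivation K A A) :
    Derivation K (Polynomial A) (Polynomial A) :=
  Derivation.mk'
    { toFun := mapCfun D
      map_add' := fun p q => by
        ext n
        rw [mapCfun_coeff, Polynomial.coeff_add, Polynomial.coeff_add, mapCfun_coeff, mapCfun_coeff, map_add]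
      map_smul' := fun r p => by
        ext n
        rw [mapCfun_coeff, RingHom.id_apply, Polynomial.coeff_smul, Polynomial.coeff_smul, mapCfun_coeff,
          D.map_smul] }
    (fun p q => by
      ext n
      simp only [LinearMap.coe_mk, AddHom.coe_mk, smul_eq_mul]
      rw [Polynomial.coeff_add, mapCfun_coeff, Polynomial.coeff_mul, Polynomial.coeff_mul, Polynomial.coeff_mul,
        map_sum, ← Finset.Nat.sum_antidiagonal_swap (f := fun x : ℕ × ℕ => q.coeff x.1 * (mapCfun D p).coeff x.2),
        ← Finset.sum_add_distrib]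
      refine Finset.sum_congr rfl fun x _ => ?_
      rw [D.leibniz, mapCfun_coeff, smul_eq_mul, smul_eq_mul, Prod.fst_swap, Prod.snd_swap, mapCfun_coeff])

@[simp] theorem mapC_coeff {A : Type v} [CommRing A] [Algebra K A] (D : Derivation K A A) (p : Polynomial A) (n : ℕ) :
    (mapC D p).coeff n = D (p.coeff n) := mapCfun_coeff D p n

theorem mapC_X {A : Type v} [CommRing A] [Algebra K A] (D : Derivation K A A) :
    mapC D (Polynomial.X : Polynomial A) = 0 := by
  ext n
  rw [mapC_coeff, Polynomial.coeff_X, Polynomial.coeff_zero]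
  split_ifs
  · exact D.map_one_eq_zero
  · exact map_zero _

theorem mapC_C {A : Type v} [CommRing A] [Algebra K A] (D : Derivation K A A) (r : A) :
    mapC D (Polynomial.C r) = Polynomial.C (D r) := by
  ext n
  rw [mapC_coeff, Polynomial.coeff_C, Polynomial.coeff_C]
  split_ifs
  · rfl
  · exact map_zero _

variable {a c : ℕ}

/-- the point `(X, X q + x, y)` -/
noncomputable def pt {A : Type v} [CommRing A] (q x : Fin a → A) (y : Fin c → A) :
    Fin (a + 1) ⊕ Fin c → Polynomial A :=
  Sum.elim (Fin.cons Polynomial.X fun l => Polynomial.X * Polynomial.C (q l) + Polynomial.C (x l))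
    (fun l => Polynomial.C (y l))

/-- the restriction of `F` to the line of the points `(X, X q + x, y)` -/
noncomputable def Pl {A : Type v} [CommRing A] [Algebra K A] (F : MvPolynomial (Fin (a + 1) ⊕ Fin c) K)
    (q x : Fin a → A) (y : Fin c → A) : Polynomial A := aeval (pt q x y) F

theorem Pl_map {A : Type v} {B : Type w} [CommRing A] [CommRing B] [Algebra K A] [Algebra K B] (f : A →+* B)
    (hf : ∀ r : K, f (algebraMap K A r) = algebraMap K B r)
    (F : MvPolynomial (Fin (a + 1) ⊕ Fin c) K) (q x : Fin a → A) (y : Fin c → A) :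
    (Pl F q x y).map f = Pl F (fun l => f (q l)) (fun l => f (x l)) (fun l => f (y l)) := by
  have hf' : (Polynomial.mapRingHom f).comp (algebraMap K (Polynomial A)) = algebraMap K (Polynomial B) := by
    ext r
    rw [RingHom.comp_apply, Polynomial.algebraMap_apply, Polynomial.algebraMap_apply,
      Polynomial.coe_mapRingHom, Polynomial.map_C, hf]
  rw [Pl, Pl, aeval_def, aeval_def, ← Polynomial.coe_mapRingHom, hom_eval₂, hf']
  congr 1
  funext l
  rcases l with l | l
  · refine Fin.cases ?_ (fun l => ?_) l
    · simp [pt]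
    · simp [pt]
  · simp [pt]

theorem Pl_eval {A : Type v} [CommRing A] [Algebra K A] (F : MvPolynomial (Fin (a + 1) ⊕ Fin c) K)
    (q x : Fin a → A) (y : Fin c → A) (t : A) :
    (Pl F q x y).eval t = aeval (Sum.elim (Fin.cons t fun l => t * q l + x l) y : Fin (a + 1) ⊕ Fin c → A) F := by
  have hf' : (Polynomial.evalRingHom t).comp (algebraMap K (Polynomial A)) = algebraMap K A := by
    ext r
    rw [RingHom.comp_apply, Polynomial.algebraMap_apply, Polynomial.coe_evalRingHom, Polynomial.eval_C]
  rw [Pl, aeval_def, aeval_def, ← Polynomial.coe_evalRingHom, hom_eval₂, hf']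
  congr 1
  funext l
  rcases l with l | l
  · refine Fin.cases ?_ (fun l => ?_) l
    · simp [pt]
    · simp only [pt, Sum.elim_inl, Fin.cons_succ, Polynomial.coe_evalRingHom, Polynomial.eval_add,
        Polynomial.eval_mul, Polynomial.eval_X, Polynomial.eval_C]
  · simp [pt]

/-- the derivative of `F` along the direction `(w, v)`, restricted to the line -/
noncomputable def Sd {A : Type v} [CommRing A] [Algebra K A] (F : MvPolynomial (Fin (a + 1) ⊕ Fin c) K)
    (q x : Fin a → A) (y : Fin c → A) (w : Fin a → A) (v : Fin c → A) : Polynomial A :=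
  (∑ l, Polynomial.C (w l) * Pl (pderiv (Sum.inl (Fin.succ l)) F) q x y) +
    ∑ l, Polynomial.C (v l) * Pl (pderiv (Sum.inr l) F) q x y

theorem mapC_Pl {A : Type v} [CommRing A] [Algebra K A] (D : Derivation K A A)
    (F : MvPolynomial (Fin (a + 1) ⊕ Fin c) K) (q x : Fin a → A) (y : Fin c → A) :
    mapC D (Pl F q x y) = Polynomial.X * Sd F q x y (fun l => D (q l)) 0 +
      Sd F q x y (fun l => D (x l)) (fun l => D (y l)) := by
  rw [Pl, der_aeval, Fintype.sum_sum_type, Fin.sum_univ_succ]
  have h0 : mapC D (pt q x y (Sum.inl 0)) = 0 := by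
    simp only [pt, Sum.elim_inl, Fin.cons_zero]
    exact mapC_X D
  have h1 : ∀ l : Fin a, mapC D (pt q x y (Sum.inl l.succ)) =
      Polynomial.X * Polynomial.C (D (q l)) + Polynomial.C (D (x l)) := by
    intro l
    simp only [pt, Sum.elim_inl, Fin.cons_succ]
    rw [map_add, Derivation.leibniz, mapC_X, mapC_C, mapC_C, smul_zero, add_zero, smul_eq_mul]
  have h2 : ∀ l : Fin c, mapC D (pt q x y (Sum.inr l)) = Polynomial.C (D (y l)) := by
    intro l
    simp only [pt, Sum.elim_inr]
    exact mapC_C D _
  rw [h0, mul_zero, zero_add]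
  simp only [h1, h2, Sd, Pi.zero_apply, Polynomial.C_0, zero_mul, Finset.sum_const_zero, add_zero]
  rw [← add_assoc, Finset.mul_sum, ← Finset.sum_add_distrib]
  congr 1
  · refine Finset.sum_congr rfl fun l _ => ?_
    rw [Pl]
    ring
  · refine Finset.sum_congr rfl fun l _ => ?_
    rw [Pl, mul_comm]

theorem derivative_Pl {A : Type v} [CommRing A] [Algebra K A] (F : MvPolynomial (Fin (a + 1) ⊕ Fin c) K)
    (q x : Fin a → A) (y : Fin c → A) :
    Polynomial.derivative (Pl F q x y) = Pl (pderiv (Sum.inl 0) F) q x y + Sd F q x y q 0 := by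
  let D : Derivation K (Polynomial A) (Polynomial A) :=
    { toFun := Polynomial.derivative
      map_add' := fun p q => Polynomial.derivative_add
      map_smul' := fun r p => Polynomial.derivative_smul r p
      map_one_eq_zero' := Polynomial.derivative_one
      leibniz' := fun p q => by
        change Polynomial.derivative (p * q) = p • Polynomial.derivative q + q • Polynomial.derivative p
        rw [Polynomial.derivative_mul, smul_eq_mul, smul_eq_mul]
        ring }
  have hD : ∀ p, D p = Polynomial.derivative p := fun p => rfl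
  rw [← hD, Pl, der_aeval, Fintype.sum_sum_type, Fin.sum_univ_succ]
  have h0 : D (pt q x y (Sum.inl 0)) = 1 := by
    simp only [pt, Sum.elim_inl, Fin.cons_zero]
    exact Polynomial.derivative_X
  have h1 : ∀ l : Fin a, D (pt q x y (Sum.inl l.succ)) = Polynomial.C (q l) := by
    intro l
    simp only [pt, Sum.elim_inl, Fin.cons_succ]
    rw [hD]
    simp
  have h2 : ∀ l : Fin c, D (pt q x y (Sum.inr l)) = 0 := by
    intro l
    simp only [pt, Sum.elim_inr]
    exact Polynomial.derivative_C
  simp only [h0, h1, h2, mul_one, mul_zero, Finset.sum_const_zero, add_zero, Sd, Pi.zero_apply, Polynomial.C_0,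
    zero_mul]
  rw [Pl]
  congr 1
  refine Finset.sum_congr rfl fun l _ => ?_
  rw [Pl, mul_comm]

theorem Sd_add {A : Type v} [CommRing A] [Algebra K A] (F : MvPolynomial (Fin (a + 1) ⊕ Fin c) K)
    (q x : Fin a → A) (y : Fin c → A) (w w' : Fin a → A) (v v' : Fin c → A) :
    Sd F q x y (w + w') (v + v') = Sd F q x y w v + Sd F q x y w' v' := by
  simp only [Sd, Pi.add_apply, Polynomial.C_add, add_mul, Finset.sum_add_distrib]
  ring

theorem Sd_smul {A : Type v} [CommRing A] [Algebra K A] (F : MvPolynomial (Fin (a + 1) ⊕ Fin c) K)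
    (q x : Fin a → A) (y : Fin c → A) (t : A) (w : Fin a → A) (v : Fin c → A) :
    Sd F q x y (t • w) (t • v) = Polynomial.C t * Sd F q x y w v := by
  simp only [Sd, Pi.smul_apply, smul_eq_mul, Polynomial.C_mul, mul_add, Finset.mul_sum, mul_assoc]

/-- the derivative at a point of the line -/
theorem dd_eval {A : Type v} [CommRing A] [Algebra K A] (F : MvPolynomial (Fin (a + 1) ⊕ Fin c) K)
    (q x : Fin a → A) (y : Fin c → A) (t : A) (ω : Fin (a + 1) ⊕ Fin c → A) :
    dd F (Sum.elim (Fin.cons t fun l => t * q l + x l) y : Fin (a + 1) ⊕ Fin c → A) ω =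
      ω (Sum.inl 0) * (Polynomial.derivative (Pl F q x y)).eval t +
        (Sd F q x y (fun l => ω (Sum.inl l.succ) - q l * ω (Sum.inl 0)) (fun l => ω (Sum.inr l))).eval t := by
  have h1 : ∀ G : MvPolynomial (Fin (a + 1) ⊕ Fin c) K,
      aeval (Sum.elim (Fin.cons t fun l => t * q l + x l) y : Fin (a + 1) ⊕ Fin c → A) G = (Pl G q x y).eval t :=
    fun G => (Pl_eval G q x y t).symm
  rw [dd, Fintype.sum_sum_type, Fin.sum_univ_succ, derivative_Pl]
  simp only [h1, Sd, Polynomial.eval_add, Polynomial.eval_finsetSum, Polynomial.eval_mul, Polynomial.eval_C,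
    Pi.zero_apply, zero_mul, Finset.sum_const_zero, add_zero]
  rw [mul_add, Finset.mul_sum]
  have h2 : ∀ l : Fin a, (ω (Sum.inl l.succ) - q l * ω (Sum.inl 0)) *
      (Pl (pderiv (Sum.inl l.succ) F) q x y).eval t =
      ω (Sum.inl l.succ) * (Pl (pderiv (Sum.inl l.succ) F) q x y).eval t -
        ω (Sum.inl 0) * (q l * (Pl (pderiv (Sum.inl l.succ) F) q x y).eval t) := by
    intro l
    ring
  simp only [h2, Finset.sum_sub_distrib]
  ring

end

end Pool.Agent.Helper4.HY
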