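import Pool.Agent.Helper4.HY.Hat

/-!
# The main step
-/

set_option autoImplicit false

namespace Pool.Agent.Helper4.HY

open MvPolynomial

universe u v w

/-- prescribed values of independent functionals -/
theorem solve_dual {Ω : Type v} [Field Ω] {ι : Type} {a : ℕ} {v : ι → Fin a → Ω}
    (h : LinearIndependent Ω v) (b : ι → Ω) : ∃ w : Fin a → Ω, ∀ i, ∑ l, w l * v i l = b i := by
  classical
  obtain ⟨f, hf⟩ := ((Finsupp.linearCombination Ω b).comp h.repr).exists_extend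
  refine ⟨fun l => f (Pi.single l 1), fun i => ?_⟩
  have h1 : f (v i) = b i := by
    have h2 := LinearMap.congr_fun hf ⟨v i, Submodule.subset_span ⟨i, rfl⟩⟩
    rw [LinearMap.comp_apply, Submodule.subtype_apply, LinearMap.comp_apply] at h2
    rw [h2]
    have h3 := h.repr_eq_single i ⟨v i, Submodule.subset_span ⟨i, rfl⟩⟩ rfl
    change Finsupp.linearCombination Ω b (h.repr _) = _
    rw [h3, Finsupp.linearCombination_single, one_smul]
  rw [← h1]
  conv_rhs => rw [pi_eq_sum_univ' (v i)]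
  rw [map_sum]
  refine Finset.sum_congr rfl fun l _ => ?_
  rw [map_smul, smul_eq_mul, mul_comm]

section

variable {K : Type u} [Field K] {a c : ℕ} {K₁ : Type u} [Field K₁] [Algebra K K₁] {Ω : Type u} [Field Ω]
  [Algebra K Ω] [Algebra K₁ Ω] [IsScalarTower K K₁ Ω]

theorem Pl_coeff (q : Fin a → K₁) (F : MvPolynomial (Fin (a + 1) ⊕ Fin c) K) (x : Fin a → Ω) (y : Fin c → Ω) (e : ℕ) :
    (Pl F (fun l => algebraMap K₁ Ω (q l)) x y).coeff e = aeval (Sum.elim x y) (raw q F e) :=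
  (aeval_raw q F e x y).symm

theorem Sd_coeff (q : Fin a → K₁) (F : MvPolynomial (Fin (a + 1) ⊕ Fin c) K) (x : Fin a → Ω) (y : Fin c → Ω)
    (w : Fin a → Ω) (v : Fin c → Ω) (e : ℕ) :
    (Sd F (fun l => algebraMap K₁ Ω (q l)) x y w v).coeff e = dd (raw q F e) (Sum.elim x y) (Sum.elim w v) := by
  rw [Sd, dd, Fintype.sum_sum_type, Polynomial.coeff_add, Polynomial.finsetSum_coeff, Polynomial.finsetSum_coeff]
  congr 1
  · refine Finset.sum_congr rfl fun l _ => ?_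
    rw [Polynomial.coeff_C_mul, Pl_coeff, (raw_pderiv q F e).1 l, Sum.elim_inl]
  · refine Finset.sum_congr rfl fun l _ => ?_
    rw [Polynomial.coeff_C_mul, Pl_coeff, (raw_pderiv q F e).2 l, Sum.elim_inr]

theorem Sd_comb {A : Type v} [CommRing A] [Algebra K A] (F : MvPolynomial (Fin (a + 1) ⊕ Fin c) K)
    (q x : Fin a → A) (y : Fin c → A) (w p w' : Fin a → A) (v v' : Fin c → A) (t : A) :
    Sd F q x y (fun l => w l - t * p l - w' l) (fun l => v l - v' l) =
      Sd F q x y w v - Polynomial.C t * Sd F q x y p (fun _ => 0) - Sd F q x y w' v' := by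
  simp only [Sd, Polynomial.C_sub, Polynomial.C_mul, sub_mul, Finset.sum_sub_distrib, mul_add, Finset.mul_sum,
    Polynomial.C_0, zero_mul, mul_zero, Finset.sum_const_zero, mul_assoc]
  ring

omit [Algebra K Ω] [IsScalarTower K K₁ Ω] in
theorem dd_zero_of_pderiv {q : Fin a → K₁} {F : MvPolynomial (Fin (a + 1) ⊕ Fin c) K} {e : ℕ}
    (h : ∀ l, pderiv (Sum.inl l) (raw q F e) = 0) (x : Fin a → Ω) (y : Fin c → Ω) (p : Fin a → Ω) :
    dd (raw q F e) (Sum.elim x y) (Sum.elim p (fun _ => 0)) = 0 := by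
  rw [dd_inl]
  exact Finset.sum_eq_zero fun l _ => by rw [h l, map_zero, mul_zero]

variable {ι : Type} [Fintype ι] [DecidableEq ι] {d : ι → ℕ} {i₀ : ι}
  {F : ι → MvPolynomial (Fin (a + 1) ⊕ Fin c) K} {q : Fin a → K₁} {x : Fin a → Ω} {y : Fin c → Ω}

/-- division by `X - α` -/
theorem quot_aux {L : Type v} [Field L] (W : Polynomial L) (t : L) :
    W = (Polynomial.X - Polynomial.C t) * (W /ₘ (Polynomial.X - Polynomial.C t)) + Polynomial.C (W.eval t) := by
  have h1 := Polynomial.modByMonic_add_div W (Polynomial.X - Polynomial.C t)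
  rw [Polynomial.modByMonic_X_sub_C_eq_C_eval] at h1
  conv_lhs => rw [← h1]
  ring

omit [Fintype ι] [DecidableEq ι] in
/-- The main step: derivations. -/
theorem core_der (hd : ∀ i, 2 ≤ d i) 
    (h1 : ∀ i e, d i ≤ e → raw q (F i) e = 0)
    (h2 : ∀ i l, pderiv (Sum.inl l) (raw q (F i) (d i - 1)) = 0)
    (z1 : ∀ i, i ≠ i₀ → ∀ e, aeval (Sum.elim x y) (raw q (F i) e) = 0)
    (z2 : ∀ e, 2 ≤ e → aeval (Sum.elim x y) (raw q (F i₀) e) = 0)
    (f1 : aeval (Sum.elim x y) (raw q (F i₀) 1) ≠ 0)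
    (sol : ∀ t : ι → ℕ → Ω, ∃ p : Fin a → Ω,
      (∀ i, i ≠ i₀ → ∀ e, e ≤ d i - 2 →
        dd (raw q (F i) e) (Sum.elim x y) (Sum.elim p (fun _ => 0)) = t i e) ∧
      ∀ e, 1 ≤ e → e ≤ d i₀ - 2 → dd (raw q (F i₀) e) (Sum.elim x y) (Sum.elim p (fun _ => 0)) = t i₀ e)
    (D0 : ∀ p : Fin a → Ω, ∃ D : Derivation K Ω Ω, ∀ l, D (algebraMap K₁ Ω (q l)) = p l)
    (D1 : ∀ δ : Fin a ⊕ Fin c → Ω, (∀ i, i ≠ i₀ → ∀ e, dd (raw q (F i) e) (Sum.elim x y) δ = 0) →
      (∀ e, 2 ≤ e → dd (raw q (F i₀) e) (Sum.elim x y) δ = 0) →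
      ∃ D : Derivation K₁ Ω Ω, (∀ l, D (x l) = δ (Sum.inl l)) ∧ ∀ l, D (y l) = δ (Sum.inr l))
    (t : Ω) (ht : aeval (Sum.elim x y) (raw q (F i₀) 0) + aeval (Sum.elim x y) (raw q (F i₀) 1) * t = 0)
    (ω : Fin (a + 1) ⊕ Fin c → Ω)
    (hω : ∀ i, dd (F i) (Sum.elim (Fin.cons t fun l => t * algebraMap K₁ Ω (q l) + x l) y) ω = 0) :
    ∃ D : Derivation K Ω Ω, ∀ l,
      D ((Sum.elim (Fin.cons t fun l => t * algebraMap K₁ Ω (q l) + x l) y : Fin (a + 1) ⊕ Fin c → Ω) l) = ω l := by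
  obtain ⟨q', hq'⟩ : ∃ q' : Fin a → Ω, q' = fun l => algebraMap K₁ Ω (q l) := ⟨_, rfl⟩
  obtain ⟨R, hR⟩ : ∃ R : Fin (a + 1) ⊕ Fin c → Ω, R = Sum.elim (Fin.cons t fun l => t * q' l + x l) y := ⟨_, rfl⟩
  have hR' : (Sum.elim (Fin.cons t fun l => t * algebraMap K₁ Ω (q l) + x l) y : Fin (a + 1) ⊕ Fin c → Ω) = R := by
    rw [hR, hq']
  rw [hR'] at hω ⊢
  obtain ⟨g0, hg0⟩ : ∃ g0, g0 = aeval (Sum.elim x y) (raw q (F i₀) 0) := ⟨_, rfl⟩
  obtain ⟨g1, hg1⟩ : ∃ g1, g1 = aeval (Sum.elim x y) (raw q (F i₀) 1) := ⟨_, rfl⟩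
  rw [← hg1] at f1 ht
  rw [← hg0] at ht
  have hPc : ∀ i e, (Pl (F i) q' x y).coeff e = aeval (Sum.elim x y) (raw q (F i) e) := by
    intro i e
    rw [hq', Pl_coeff]
  have hSc : ∀ i w v e, (Sd (F i) q' x y w v).coeff e = dd (raw q (F i) e) (Sum.elim x y) (Sum.elim w v) := by
    intro i w v e
    rw [hq', Sd_coeff]
  have hP1 : ∀ i, i ≠ i₀ → Pl (F i) q' x y = 0 := by
    intro i hi
    ext e
    rw [hPc, z1 i hi, Polynomial.coeff_zero]
  have hP2 : Pl (F i₀) q' x y = Polynomial.C g0 + Polynomial.C g1 * Polynomial.X := by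
    ext e
    rw [hPc, Polynomial.coeff_add, Polynomial.coeff_C_mul, Polynomial.coeff_C, Polynomial.coeff_X]
    rcases e with _ | _ | e
    · rw [if_pos rfl, if_neg (by omega), mul_zero, add_zero, hg0]
    · simp [hg1]
    · rw [if_neg (by omega), if_neg (by omega), mul_zero, zero_add, z2 _ (by omega)]
  obtain ⟨ω₀, hω₀⟩ : ∃ ω₀, ω₀ = ω (Sum.inl 0) := ⟨_, rfl⟩
  obtain ⟨w, hw⟩ : ∃ w : Fin a → Ω, w = fun l => ω (Sum.inl l.succ) - q' l * ω (Sum.inl 0) := ⟨_, rfl⟩
  obtain ⟨v, hv⟩ : ∃ v : Fin c → Ω, v = fun l => ω (Sum.inr l) := ⟨_, rfl⟩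
  have hdd : ∀ i (ω' : Fin (a + 1) ⊕ Fin c → Ω), dd (F i) R ω' =
      ω' (Sum.inl 0) * (Polynomial.derivative (Pl (F i) q' x y)).eval t +
        (Sd (F i) q' x y (fun l => ω' (Sum.inl l.succ) - q' l * ω' (Sum.inl 0)) (fun l => ω' (Sum.inr l))).eval t := by
    intro i ω'
    rw [hR]
    exact dd_eval (F i) q' x y t ω'
  obtain ⟨W, hW⟩ : ∃ W : ι → Polynomial Ω, W = fun i => Sd (F i) q' x y w v := ⟨_, rfl⟩
  obtain ⟨Q, hQ⟩ : ∃ Q : ι → Polynomial Ω, Q = fun i => W i /ₘ (Polynomial.X - Polynomial.C t) := ⟨_, rfl⟩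
  have hWQ : ∀ i, W i = (Polynomial.X - Polynomial.C t) * Q i + Polynomial.C ((W i).eval t) := by
    intro i
    rw [hQ]
    exact quot_aux (W i) t
  have hW1 : ∀ i, i ≠ i₀ → (W i).eval t = 0 := by
    intro i hi
    have h3 := hω i
    rw [hdd, hP1 i hi, Polynomial.derivative_zero, Polynomial.eval_zero, mul_zero, zero_add] at h3
    rw [hW, hw, hv]
    exact h3
  have hWdeg : ∀ i, (W i).natDegree ≤ d i - 1 := by
    intro i
    refine Polynomial.natDegree_le_iff_coeff_eq_zero.2 fun e he => ?_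
    have := hd i
    rw [hW]
    change (Sd (F i) q' x y w v).coeff e = 0
    rw [hSc, h1 i e (by omega), dd]
    exact Finset.sum_eq_zero fun l _ => by rw [map_zero, map_zero, mul_zero]
  have hQc : ∀ i e, d i - 1 ≤ e → (Q i).coeff e = 0 := by
    intro i e he
    refine Polynomial.coeff_eq_zero_of_natDegree_lt ?_
    rw [hQ]
    change (W i /ₘ (Polynomial.X - Polynomial.C t)).natDegree < e
    rw [Polynomial.natDegree_divByMonic _ (Polynomial.monic_X_sub_C t), Polynomial.natDegree_X_sub_C]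
    have := hWdeg i
    have := hd i
    omega
  obtain ⟨p, hp1, hp2⟩ := sol (fun i e => - (Q i).coeff e)
  obtain ⟨χ, hχ⟩ : ∃ χ : ι → Polynomial Ω, χ = fun i => Sd (F i) q' x y p (fun _ => 0) := ⟨_, rfl⟩
  have hχc : ∀ i e, (χ i).coeff e = dd (raw q (F i) e) (Sum.elim x y) (Sum.elim p (fun _ => 0)) := by
    intro i e
    rw [hχ]
    exact hSc i p _ e
  have hχz : ∀ i e, d i - 1 ≤ e → (χ i).coeff e = 0 := by
    intro i e he
    rw [hχc]
    rcases Nat.eq_or_lt_of_le he with rfl | h3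
    · exact dd_zero_of_pderiv (h2 i) x y p
    · have := hd i
      rw [h1 i e (by omega), dd]
      exact Finset.sum_eq_zero fun l _ => by rw [map_zero, map_zero, mul_zero]
  have hT1 : ∀ i, i ≠ i₀ → χ i = - Q i := by
    intro i hi
    ext e
    rw [Polynomial.coeff_neg]
    by_cases he : e ≤ d i - 2
    · rw [hχc, hp1 i hi e he]
    · have := hd i
      rw [hχz i e (by omega), hQc i e (by omega), neg_zero]
  have hT2 : χ i₀ + Q i₀ = Polynomial.C ((χ i₀ + Q i₀).coeff 0) := by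
    ext e
    rw [Polynomial.coeff_C]
    split_ifs with h3
    · rw [h3]
    · rw [Polynomial.coeff_add]
      by_cases he : e ≤ d i₀ - 2
      · rw [hχc, hp2 e (by omega) he, neg_add_cancel]
      · have := hd i₀
        rw [hχz i₀ e (by omega), hQc i₀ e (by omega), add_zero]
  obtain ⟨D₀, hD₀⟩ := D0 p
  have hD₀q : (fun l => D₀ (q' l)) = p := by
    funext l
    rw [hq']
    exact hD₀ l
  -- the remaining vector
  obtain ⟨δ, hδ⟩ : ∃ δ : Fin a ⊕ Fin c → Ω, δ = Sum.elim (fun l => w l - t * p l - D₀ (x l)) (fun l => v l - D₀ (y l)) :=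
    ⟨_, rfl⟩
  have hSδ : ∀ i, Sd (F i) q' x y (fun l => w l - t * p l - D₀ (x l)) (fun l => v l - D₀ (y l)) =
      W i + (Polynomial.X - Polynomial.C t) * χ i - mapC D₀ (Pl (F i) q' x y) := by
    intro i
    rw [Sd_comb, mapC_Pl, hD₀q, hW, hχ]
    change _ = Sd (F i) q' x y w v + (Polynomial.X - Polynomial.C t) * Sd (F i) q' x y p (fun _ => 0) -
      (Polynomial.X * Sd (F i) q' x y p (fun _ => 0) + _)
    ring
  have hδ1 : ∀ i, i ≠ i₀ → ∀ e, dd (raw q (F i) e) (Sum.elim x y) δ = 0 := by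
    intro i hi e
    rw [hδ, ← hSc, hSδ, hP1 i hi, map_zero, sub_zero, hT1 i hi]
    conv_lhs => rw [hWQ i, hW1 i hi]
    rw [Polynomial.C_0, add_zero, mul_neg, add_neg_cancel, Polynomial.coeff_zero]
  have hδ2 : ∀ e, 2 ≤ e → dd (raw q (F i₀) e) (Sum.elim x y) δ = 0 := by
    intro e he
    have h3 : W i₀ + (Polynomial.X - Polynomial.C t) * χ i₀ = (Polynomial.X - Polynomial.C t) *
        Polynomial.C ((χ i₀ + Q i₀).coeff 0) + Polynomial.C ((W i₀).eval t) := by
      conv_lhs => rw [hWQ i₀]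
      rw [← hT2]
      ring
    rw [hδ, ← hSc, hSδ, h3, hP2, Polynomial.coeff_sub, mapC_coeff]
    have h4 : ∀ r s : Ω, (Polynomial.C r + Polynomial.C s * Polynomial.X).coeff e = 0 := by
      intro r s
      rw [Polynomial.coeff_add, Polynomial.coeff_C_mul, Polynomial.coeff_C, Polynomial.coeff_X,
        if_neg (by omega), if_neg (by omega), mul_zero, zero_add]
    have h5 : ∀ r s : Ω, (Polynomial.X - Polynomial.C t) * Polynomial.C r + Polynomial.C s =
        Polynomial.C (s - t * r) + Polynomial.C r * Polynomial.X := by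
      intro r s
      rw [Polynomial.C_sub, Polynomial.C_mul]
      ring
    rw [h4, h5, h4, map_zero, sub_zero]
  obtain ⟨D₁, hD₁x, hD₁y⟩ := D1 δ hδ1 hδ2
  obtain ⟨D, hD⟩ : ∃ D : Derivation K Ω Ω, D = D₀ + D₁.restrictScalars K := ⟨_, rfl⟩
  have hDa : ∀ z, D z = D₀ z + D₁ z := by
    intro z
    rw [hD]
    rfl
  have hDq : ∀ l, D (q' l) = p l := by
    intro l
    rw [hDa, congrFun hD₀q l, hq']
    change p l + D₁ (algebraMap K₁ Ω (q l)) = p l
    rw [D₁.map_algebraMap, add_zero]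
  have hDx : ∀ l, D (x l) = w l - t * p l := by
    intro l
    rw [hDa, hD₁x, hδ, Sum.elim_inl]
    ring
  have hDy : ∀ l, D (y l) = v l := by
    intro l
    rw [hDa, hD₁y, hδ, Sum.elim_inr]
    ring
  -- the derivative of `t`
  have hRt : ∀ l, D (R l) = ω l + (D t - ω₀) * (Sum.elim (Fin.cons 1 q') (fun _ => 0) : Fin (a + 1) ⊕ Fin c → Ω) l := by
    intro l
    rw [hR]
    rcases l with l | l
    · refine Fin.cases ?_ (fun l => ?_) l
      · simp only [Sum.elim_inl, Fin.cons_zero, hω₀]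
        ring
      · simp only [Sum.elim_inl, Fin.cons_succ]
        rw [map_add, D.leibniz, hDq, hDx, hw, smul_eq_mul, smul_eq_mul, hω₀]
        ring
    · simp only [Sum.elim_inr]
      rw [hDy, hv, mul_zero, add_zero]
  have hdir : dd (F i₀) R (Sum.elim (Fin.cons 1 q') (fun _ => 0)) = g1 := by
    rw [hdd, hP2]
    have h3 : (fun l : Fin a => (Sum.elim (Fin.cons 1 q') (fun _ => 0) : Fin (a + 1) ⊕ Fin c → Ω) (Sum.inl l.succ) -
        q' l * (Sum.elim (Fin.cons 1 q') (fun _ => 0) : Fin (a + 1) ⊕ Fin c → Ω) (Sum.inl 0)) = 0 := by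
      funext l
      simp
    have h4 : (fun l : Fin c => (Sum.elim (Fin.cons 1 q') (fun _ => 0) : Fin (a + 1) ⊕ Fin c → Ω) (Sum.inr l)) = 0 := by
      funext l
      simp
    rw [h3, h4]
    simp [Sd]
  have hzero : aeval R (F i₀) = 0 := by
    rw [hR, ← Pl_eval, hP2, Polynomial.eval_add, Polynomial.eval_C, Polynomial.eval_mul, Polynomial.eval_C,
      Polynomial.eval_X]
    exact ht
  have hDt : D t = ω₀ := by
    have h3 := dd_der D R (F i₀)
    rw [hzero, map_zero] at h3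
    have h4 : (fun i => D (R i)) = fun l => ω l + (D t - ω₀) *
        (Sum.elim (Fin.cons 1 q') (fun _ => 0) : Fin (a + 1) ⊕ Fin c → Ω) l := funext hRt
    rw [h4, dd_add, dd_smul, hω, zero_add, hdir] at h3
    exact sub_eq_zero.1 ((mul_eq_zero.1 h3).resolve_right f1)
  refine ⟨D, fun l => ?_⟩
  rw [hRt, hDt, sub_self, zero_mul, add_zero]

/-- The main step: independence. -/
theorem core_ind (hd : ∀ i, 2 ≤ d i)
    (h1 : ∀ i e, d i ≤ e → raw q (F i) e = 0)
    (h2 : ∀ i l, pderiv (Sum.inl l) (raw q (F i) (d i - 1)) = 0)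
    (z1 : ∀ i, i ≠ i₀ → ∀ e, aeval (Sum.elim x y) (raw q (F i) e) = 0)
    (z2 : ∀ e, 2 ≤ e → aeval (Sum.elim x y) (raw q (F i₀) e) = 0)
    (f1 : aeval (Sum.elim x y) (raw q (F i₀) 1) ≠ 0)
    (ind : LinearIndependent Ω fun (p : Σ i, Fin (nn d i₀ i)) (l : Fin a) =>
      aeval (Sum.elim x y) (pderiv (Sum.inl l) (raw q (F p.1) (p.2 + ee i₀ p.1)))) (t : Ω) :
    LinearIndependent Ω fun i (l : Fin (a + 1)) =>
      aeval (Sum.elim (Fin.cons t fun l => t * algebraMap K₁ Ω (q l) + x l) y : Fin (a + 1) ⊕ Fin c → Ω)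
        (pderiv (Sum.inl l) (F i)) := by
  obtain ⟨q', hq'⟩ : ∃ q' : Fin a → Ω, q' = fun l => algebraMap K₁ Ω (q l) := ⟨_, rfl⟩
  obtain ⟨R, hR⟩ : ∃ R : Fin (a + 1) ⊕ Fin c → Ω, R = Sum.elim (Fin.cons t fun l => t * q' l + x l) y := ⟨_, rfl⟩
  have hR' : (Sum.elim (Fin.cons t fun l => t * algebraMap K₁ Ω (q l) + x l) y : Fin (a + 1) ⊕ Fin c → Ω) = R := by
    rw [hR, hq']
  rw [hR']
  have hev : ∀ G : MvPolynomial (Fin (a + 1) ⊕ Fin c) K, aeval R G = (Pl G q' x y).eval t := by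
    intro G
    rw [hR, Pl_eval]
  have hPc : ∀ (G : MvPolynomial (Fin (a + 1) ⊕ Fin c) K) e, (Pl G q' x y).coeff e =
      aeval (Sum.elim x y) (raw q G e) := by
    intro G e
    rw [hq', Pl_coeff]
  have hdir : ∀ G : MvPolynomial (Fin (a + 1) ⊕ Fin c) K, ∑ l, (Fin.cons 1 q' : Fin (a + 1) → Ω) l *
      aeval R (pderiv (Sum.inl l) G) = (Polynomial.derivative (Pl G q' x y)).eval t := by
    intro G
    rw [← dd_inl, hR, dd_eval]
    have h3 : (fun l : Fin a => (Sum.elim (Fin.cons 1 q') (fun _ => 0) : Fin (a + 1) ⊕ Fin c → Ω) (Sum.inl l.succ) -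
        q' l * (Sum.elim (Fin.cons 1 q') (fun _ => 0) : Fin (a + 1) ⊕ Fin c → Ω) (Sum.inl 0)) = 0 := by
      funext l
      simp
    have h4 : (fun l : Fin c => (Sum.elim (Fin.cons 1 q') (fun _ => 0) : Fin (a + 1) ⊕ Fin c → Ω) (Sum.inr l)) = 0 := by
      funext l
      simp
    rw [h3, h4]
    simp [Sd]
  have hP1 : ∀ i, i ≠ i₀ → Pl (F i) q' x y = 0 := by
    intro i hi
    ext e
    rw [hPc, z1 i hi, Polynomial.coeff_zero]
  have hP2 : (Polynomial.derivative (Pl (F i₀) q' x y)).eval t = aeval (Sum.elim x y) (raw q (F i₀) 1) := by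
    have h3 : Pl (F i₀) q' x y = Polynomial.C (aeval (Sum.elim x y) (raw q (F i₀) 0)) +
        Polynomial.C (aeval (Sum.elim x y) (raw q (F i₀) 1)) * Polynomial.X := by
      ext e
      rw [hPc, Polynomial.coeff_add, Polynomial.coeff_C_mul, Polynomial.coeff_C, Polynomial.coeff_X]
      rcases e with _ | _ | e
      · rw [if_pos rfl, if_neg (by omega), mul_zero, add_zero]
      · simp
      · rw [if_neg (by omega), if_neg (by omega), mul_zero, zero_add, z2 _ (by omega)]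
    rw [h3, Polynomial.derivative_add, Polynomial.derivative_C, zero_add, Polynomial.derivative_C_mul,
      Polynomial.derivative_X, mul_one, Polynomial.eval_C]
  rw [Fintype.linearIndependent_iff]
  intro g hg
  have hg' : ∀ l, ∑ i, g i * aeval R (pderiv (Sum.inl l) (F i)) = 0 := by
    intro l
    have h3 := congrFun hg l
    rw [Finset.sum_apply] at h3
    exact h3
  have hg0 : g i₀ = 0 := by
    have h3 : ∑ i, g i * ∑ l, (Fin.cons 1 q' : Fin (a + 1) → Ω) l * aeval R (pderiv (Sum.inl l) (F i)) = 0 := by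
      simp only [Finset.mul_sum]
      rw [Finset.sum_comm]
      refine Finset.sum_eq_zero fun l _ => ?_
      have h4 : ∑ i, g i * ((Fin.cons 1 q' : Fin (a + 1) → Ω) l * aeval R (pderiv (Sum.inl l) (F i))) =
          (Fin.cons 1 q' : Fin (a + 1) → Ω) l * ∑ i, g i * aeval R (pderiv (Sum.inl l) (F i)) := by
        rw [Finset.mul_sum]
        refine Finset.sum_congr rfl fun i _ => ?_
        ring
      rw [h4, hg', mul_zero]
    rw [Finset.sum_eq_single i₀, hdir, hP2] at h3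
    · exact (mul_eq_zero.1 h3).resolve_right f1
    · intro i _ hi
      rw [hdir, hP1 i hi, Polynomial.derivative_zero, Polynomial.eval_zero, mul_zero]
    · intro h
      exact absurd (Finset.mem_univ _) h
  have hexp : ∀ i l, aeval R (pderiv (Sum.inl (Fin.succ l)) (F i)) = ∑ e ∈ Finset.range (d i - 1),
      t ^ e * aeval (Sum.elim x y) (pderiv (Sum.inl l) (raw q (F i) e)) := by
    intro i l
    have := hd i
    have h3 : (Pl (pderiv (Sum.inl (Fin.succ l)) (F i)) q' x y).natDegree ≤ d i - 2 := by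
      refine Polynomial.natDegree_le_iff_coeff_eq_zero.2 fun e he => ?_
      rw [hPc, ← (raw_pderiv q (F i) e).1 l]
      rcases Nat.eq_or_lt_of_le (show d i - 1 ≤ e by omega) with rfl | h4
      · rw [h2, map_zero]
      · rw [h1 i e (by omega), map_zero, map_zero]
    rw [hev, Polynomial.eval_eq_sum_range' (n := d i - 1) (by omega)]
    refine Finset.sum_congr rfl fun e _ => ?_
    rw [hPc, (raw_pderiv q (F i) e).1 l, mul_comm]
  have hG := Fintype.linearIndependent_iff.1 ind (fun p => if p.1 = i₀ then 0 else g p.1 * t ^ (p.2 : ℕ)) (by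
    funext l
    rw [Finset.sum_apply, Fintype.sum_sigma, Pi.zero_apply]
    refine Eq.trans ?_ (hg' l.succ)
    refine Finset.sum_congr rfl fun i _ => ?_
    by_cases hi : i = i₀
    · subst hi
      simp [hg0]
    · simp only [if_neg hi, Pi.smul_apply, smul_eq_mul]
      have h3 : ∀ e : ℕ, e + ee i₀ i = e := by
        intro e
        rw [ee, if_neg hi, add_zero]
      simp only [h3]
      rw [Fin.sum_univ_eq_sum_range (fun e => g i * t ^ e * aeval (Sum.elim x y)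
        (pderiv (Sum.inl l) (raw q (F i) e))) (nn d i₀ i), nn, if_neg hi, hexp, Finset.mul_sum]
      refine Finset.sum_congr rfl fun e _ => ?_
      ring)
  intro i
  by_cases hi : i = i₀
  · rw [hi, hg0]
  · have h3 : 0 < nn d i₀ i := by
      rw [nn, if_neg hi]
      have := hd i
      omega
    have h4 := hG ⟨i, ⟨0, h3⟩⟩
    simp only [if_neg hi, pow_zero, mul_one] at h4
    exact h4

theorem core (hd : ∀ i, 2 ≤ d i)
    (h1 : ∀ i e, d i ≤ e → raw q (F i) e = 0)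
    (h2 : ∀ i l, pderiv (Sum.inl l) (raw q (F i) (d i - 1)) = 0)
    (z1 : ∀ i, i ≠ i₀ → ∀ e, aeval (Sum.elim x y) (raw q (F i) e) = 0)
    (z2 : ∀ e, 2 ≤ e → aeval (Sum.elim x y) (raw q (F i₀) e) = 0)
    (f1 : aeval (Sum.elim x y) (raw q (F i₀) 1) ≠ 0)
    (sol : ∀ t : ι → ℕ → Ω, ∃ p : Fin a → Ω,
      (∀ i, i ≠ i₀ → ∀ e, e ≤ d i - 2 →
        dd (raw q (F i) e) (Sum.elim x y) (Sum.elim p (fun _ => 0)) = t i e) ∧
      ∀ e, 1 ≤ e → e ≤ d i₀ - 2 → dd (raw q (F i₀) e) (Sum.elim x y) (Sum.elim p (fun _ => 0)) = t i₀ e)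
    (D0 : ∀ p : Fin a → Ω, ∃ D : Derivation K Ω Ω, ∀ l, D (algebraMap K₁ Ω (q l)) = p l)
    (D1 : ∀ δ : Fin a ⊕ Fin c → Ω, (∀ i, i ≠ i₀ → ∀ e, dd (raw q (F i) e) (Sum.elim x y) δ = 0) →
      (∀ e, 2 ≤ e → dd (raw q (F i₀) e) (Sum.elim x y) δ = 0) →
      ∃ D : Derivation K₁ Ω Ω, (∀ l, D (x l) = δ (Sum.inl l)) ∧ ∀ l, D (y l) = δ (Sum.inr l))
    (ind : LinearIndependent Ω fun (p : Σ i, Fin (nn d i₀ i)) (l : Fin a) =>
      aeval (Sum.elim x y) (pderiv (Sum.inl l) (raw q (F p.1) (p.2 + ee i₀ p.1)))) :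
    ∃ R : Fin (a + 1) ⊕ Fin c → Ω, Good F R := by
  obtain ⟨t, ht⟩ : ∃ t, aeval (Sum.elim x y) (raw q (F i₀) 0) + aeval (Sum.elim x y) (raw q (F i₀) 1) * t = 0 := by
    refine ⟨- aeval (Sum.elim x y) (raw q (F i₀) 0) / aeval (Sum.elim x y) (raw q (F i₀) 1), ?_⟩
    rw [mul_div_cancel₀ _ f1, add_neg_cancel]
  refine ⟨Sum.elim (Fin.cons t fun l => t * algebraMap K₁ Ω (q l) + x l) y, ?_, ?_, ?_⟩
  · intro i
    have hPc : ∀ (G : MvPolynomial (Fin (a + 1) ⊕ Fin c) K) e, (Pl G (fun l => algebraMap K₁ Ω (q l)) x y).coeff e =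
        aeval (Sum.elim x y) (raw q G e) := by
      intro G e
      rw [Pl_coeff]
    by_cases hi : i = i₀
    · subst hi
      have h3 : Pl (F i) (fun l => algebraMap K₁ Ω (q l)) x y = Polynomial.C (aeval (Sum.elim x y) (raw q (F i) 0)) +
          Polynomial.C (aeval (Sum.elim x y) (raw q (F i) 1)) * Polynomial.X := by
        ext e
        rw [hPc, Polynomial.coeff_add, Polynomial.coeff_C_mul, Polynomial.coeff_C, Polynomial.coeff_X]
        rcases e with _ | _ | e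
        · rw [if_pos rfl, if_neg (by omega), mul_zero, add_zero]
        · simp
        · rw [if_neg (by omega), if_neg (by omega), mul_zero, zero_add, z2 _ (by omega)]
      rw [← Pl_eval, h3, Polynomial.eval_add, Polynomial.eval_mul, Polynomial.eval_C, Polynomial.eval_C,
        Polynomial.eval_X, ht]
    · have h3 : Pl (F i) (fun l => algebraMap K₁ Ω (q l)) x y = 0 := by
        ext e
        rw [hPc, z1 i hi, Polynomial.coeff_zero]
      rw [← Pl_eval, h3, Polynomial.eval_zero]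
  · intro ω hω
    exact core_der hd h1 h2 z1 z2 f1 sol D0 D1 t ht ω hω
  · exact core_ind hd h1 h2 z1 z2 f1 ind t

end

end Pool.Agent.Helper4.HY
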