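import Mathlib

/-!
# Families of forms along a linear space

`F i` are forms in the variables `s` (`Sum.inl`) and `y` (`Sum.inr`), which vanish on the linear space `y = 0`.
-/

set_option autoImplicit false

namespace Pool.Agent.Helper4.HY

open MvPolynomial

universe u v w

section

variable {K : Type u} [Field K] {a c : ℕ}

/-- the form `F` vanishes on the linear space `y = 0` -/
def Van (F : MvPolynomial (Fin a ⊕ Fin c) K) : Prop :=
  aeval (Sum.elim (X : Fin a → MvPolynomial (Fin a) K) (fun _ => 0)) F = 0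

/-- the linear part of `F` along `y = 0` in the direction `η` -/
noncomputable def lin {M : Type v} [CommRing M] [Algebra K M] (F : MvPolynomial (Fin a ⊕ Fin c) K)
    (η : Fin c → M) : MvPolynomial (Fin a) M :=
  ∑ l, C (η l) * aeval (Sum.elim (X : Fin a → MvPolynomial (Fin a) M) (fun _ => 0)) (pderiv (Sum.inr l) F)

/-- The family is free along the linear space `y = 0`: the linear parts take arbitrary values. -/
def Free {ι : Type} (d : ι → ℕ) (F : ι → MvPolynomial (Fin a ⊕ Fin c) K) : Prop :=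
  ∀ (M : Type u) [Field M] [Algebra K M] (Ψ : ι → MvPolynomial (Fin a) M),
    (∀ i, (Ψ i).IsHomogeneous (d i - 1)) → ∃ η : Fin c → M, ∀ i, lin (F i) η = Ψ i

/-- the derivative of `F` at `R` in the direction `w` -/
noncomputable def dd {σ : Type} [Fintype σ] {A : Type v} [CommRing A] [Algebra K A] (F : MvPolynomial σ K)
    (R w : σ → A) : A :=
  ∑ i, w i * aeval R (pderiv i F)

/-- a generic point of a good component -/
structure Good {ι : Type} (F : ι → MvPolynomial (Fin a ⊕ Fin c) K) {Ω : Type v} [Field Ω] [Algebra K Ω]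
    (R : Fin a ⊕ Fin c → Ω) : Prop where
  zero : ∀ i, aeval R (F i) = 0
  der : ∀ ω : Fin a ⊕ Fin c → Ω, (∀ i, dd (F i) R ω = 0) → ∃ D : Derivation K Ω Ω, ∀ l, D (R l) = ω l
  ind : LinearIndependent Ω fun i (l : Fin a) => aeval R (pderiv (Sum.inl l) (F i))

end

/-- `Ω` is a field of rational functions over `K` -/
def PT (K : Type u) (Ω : Type v) [Field K] [Field Ω] [Algebra K Ω] : Prop :=
  ∃ (m : ℕ) (x : Fin m → Ω), AlgebraicIndependent K x ∧ IntermediateField.adjoin K (Set.range x) = ⊤

/-- EE: one more form. -/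
def SEE : Prop := ∀ (K : Type u) [Field K] [CharZero K] (a c : ℕ) (ι : Type) [Fintype ι] (d : Option ι → ℕ)
  (F : Option ι → MvPolynomial (Fin a ⊕ Fin c) K), (∀ i, 2 ≤ d i) → (∀ i, (F i).IsHomogeneous (d i)) →
  (∀ i, Van (F i)) → Free d F → Fintype.card ι + 1 ≤ a →
  ∀ (Ω : Type u) [Field Ω] [Algebra K Ω] (R : Fin a ⊕ Fin c → Ω), Good (fun i : ι => F (some i)) R →
    LinearIndependent Ω fun (i : Option ι) (l : Fin a) => aeval R (pderiv (Sum.inl l) (F i))

/-- EXS: a free linear space in a nonsingular hypersurface. The new coordinates are `∑ i, s i * P i + y`. -/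
def SEXS : Prop := ∀ (k : Type u) [Field k] [IsAlgClosed k] [CharZero k] (N a d : ℕ), 2 ≤ d → 1 ≤ a →
  Nat.choose (a + d - 1) d + Nat.choose (a + d - 2) (d - 1) ≤ N →
  ∀ F : MvPolynomial (Fin N) k, F.IsHomogeneous d →
    (∀ x : Fin N → k, (∀ i, aeval x (pderiv i F) = 0) → x = 0) →
    ∃ P : Fin a → Fin N → k, ∀ G : MvPolynomial (Fin a ⊕ Fin N) k,
      G = aeval (fun j => ∑ i, C (P i j) * X (Sum.inl i) + X (Sum.inr j)) F →
        Van G ∧ Free (fun _ : Unit => d) (fun _ : Unit => G)

/-- the number of new forms of degree at least two which come from the form `i` -/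
def nn {ι : Type} [DecidableEq ι] (d : ι → ℕ) (i₀ i : ι) : ℕ := if i = i₀ then d i - 3 else d i - 1

/-- the lowest power of the new variable which is used -/
def ee {ι : Type} [DecidableEq ι] (i₀ i : ι) : ℕ := if i = i₀ then 2 else 0

/-- The admissible types: `a` is the dimension of the linear space, `d` are the degrees. -/
inductive Adm : ℕ → (ι : Type) → (ι → ℕ) → Prop
  | nil (a : ℕ) (ι : Type) (d : ι → ℕ) (h : IsEmpty ι) : Adm a ι d
  | step (a : ℕ) (ι : Type) [Fintype ι] [DecidableEq ι] (d : ι → ℕ) (i₀ : ι)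
      (h : d i₀ = 2 ∨ Fintype.card (Σ i, Fin (nn d i₀ i)) + 1 ≤ a)
      (h' : Adm a (Σ i, Fin (nn d i₀ i)) (fun p => d p.1 - (p.2 + ee i₀ p.1))) : Adm (a + 1) ι d

end Pool.Agent.Helper4.HY
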