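import Pool.Agent.Helper4.HY.Defs

/-!
# Free linear spaces in complete intersections
-/

set_option autoImplicit false

namespace Pool.Agent.Helper4.HY

open MvPolynomial

universe u

/-- the forms `F i` define a smooth complete intersection: at a common zero besides the origin the
gradients are linearly independent -/
def SmoothCI {k : Type u} [Field k] {r N : ℕ} (F : Fin r → MvPolynomial (Fin N) k) : Prop :=
  ∀ x : Fin N → k, (∀ i, aeval x (F i) = 0) →
    ∀ μ : Fin r → k, (∀ l, ∑ i, μ i * aeval x (pderiv l (F i)) = 0) → x = 0 ∨ μ = 0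

/-- EXC: a free linear space in a smooth complete intersection. The new coordinates are
`∑ i, s i * P i + y`. -/
def SEXC : Prop := ∀ (k : Type u) [Field k] [IsAlgClosed k] [CharZero k] (r N a : ℕ) (d : Fin r → ℕ),
  (∀ i, 2 ≤ d i) → 1 ≤ a → 1 ≤ r →
  ∑ i, (Nat.choose (a + d i - 1) (d i) + Nat.choose (a + d i - 2) (d i - 1)) ≤ N →
  ∀ F : Fin r → MvPolynomial (Fin N) k, (∀ i, (F i).IsHomogeneous (d i)) → SmoothCI F →
    ∃ P : Fin a → Fin N → k, ∀ G : Fin r → MvPolynomial (Fin a ⊕ Fin N) k,
      (∀ i, G i = aeval (fun j => ∑ l, C (P l j) * X (Sum.inl l) + X (Sum.inr j)) (F i)) →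
        (∀ i, Van (G i)) ∧ Free d G

end Pool.Agent.Helper4.HY
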