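import Pool.Agent.Helper4.HY.Meet
import Pool.Agent.Helper48.HY.Exs

/-!
# Complete intersections which contain a free linear space of large dimension are irreducible

More precisely: if `R` is a point such that all tangent vectors at `R` are values of derivations, then all
polynomials which vanish at `R` vanish at all points of the complete intersection.
-/

set_option autoImplicit false
set_option linter.unusedSectionVars false

namespace Pool.Agent.Helper4.HY

open MvPolynomial Pool.Agent.Helper4.QH Pool.Agent.Helper48.HY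

universe u v w

section

variable {k : Type u} [Field k] {N r a : ℕ} {d : Fin r → ℕ}

/-- evaluation along the linear space -/
theorem ev_lin (P : Fin a → Fin N → k) (f : MvPolynomial (Fin N) k) (y : Fin a → k) :
    aeval y (aeval (Sum.elim (X : Fin a → MvPolynomial (Fin a) k) (fun _ => 0))
      (aeval (fun j => ∑ i, C (P i j) * X (Sum.inl i) + X (Sum.inr j) :
        Fin N → MvPolynomial (Fin a ⊕ Fin N) k) f)) = aeval (fun j => ∑ l, y l * P l j) f := by
  have h1 : ((aeval y : MvPolynomial (Fin a) k →ₐ[k] k).comp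
      ((aeval (Sum.elim (X : Fin a → MvPolynomial (Fin a) k) (fun _ => 0)) :
        MvPolynomial (Fin a ⊕ Fin N) k →ₐ[k] MvPolynomial (Fin a) k))).comp
      (aeval (fun j => ∑ i, C (P i j) * X (Sum.inl i) + X (Sum.inr j) :
        Fin N → MvPolynomial (Fin a ⊕ Fin N) k)) = aeval (fun j => ∑ l, y l * P l j) := by
    apply MvPolynomial.algHom_ext
    intro j
    simp only [AlgHom.comp_apply, aeval_X, map_add, map_sum, map_mul, aeval_C, Sum.elim_inl, Sum.elim_inr,
      map_zero, add_zero, algebraMap_eq, Algebra.algebraMap_self, RingHom.id_apply]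
    exact Finset.sum_congr rfl fun l _ => mul_comm _ _
  exact congrFun (congrArg DFunLike.coe h1) f

/-- the points of a free linear space are nonsingular -/
theorem nonsing [IsAlgClosed k] [CharZero k] (F : Fin r → MvPolynomial (Fin N) k) (P : Fin a → Fin N → k)
    (hP : ∀ G : Fin r → MvPolynomial (Fin a ⊕ Fin N) k,
      (∀ i, G i = aeval (fun j => ∑ l, C (P l j) * X (Sum.inl l) + X (Sum.inr j)) (F i)) →
        (∀ i, Van (G i)) ∧ Free d G) :
    (∀ (y : Fin a → k) i, aeval (fun j => ∑ l, y l * P l j) (F i) = 0) ∧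
    ∀ y : Fin a → k, y ≠ 0 → ∃ W : Fin N → Fin r → k, ∀ i j,
      ∑ l, aeval (fun j => ∑ l, y l * P l j) (pderiv l (F i)) * W l j = if i = j then 1 else 0 := by
  classical
  obtain ⟨hV, hfree⟩ := hP (fun i => aeval (fun j => ∑ l, C (P l j) * X (Sum.inl l) + X (Sum.inr j)) (F i))
    (fun i => rfl)
  refine ⟨fun y i => ?_, fun y hy => ?_⟩
  · rw [← ev_lin]
    have h1 : aeval (Sum.elim (X : Fin a → MvPolynomial (Fin a) k) (fun _ => 0))
      (aeval (fun j => ∑ i, C (P i j) * X (Sum.inl i) + X (Sum.inr j) :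
        Fin N → MvPolynomial (Fin a ⊕ Fin N) k) (F i)) = 0 := hV i
    rw [h1, map_zero]
  · obtain ⟨l₀, hl₀⟩ := Function.ne_iff.1 hy
    have hl₀ : y l₀ ≠ 0 := hl₀
    have hη : ∀ j : Fin r, ∃ η : Fin N → k, ∀ i,
        lin (aeval (fun j => ∑ l, C (P l j) * X (Sum.inl l) + X (Sum.inr j) :
          Fin N → MvPolynomial (Fin a ⊕ Fin N) k) (F i)) η =
          if i = j then (C (y l₀)⁻¹ * X l₀) ^ (d i - 1) else 0 := by
      intro j
      refine hfree k (fun i => if i = j then (C (y l₀)⁻¹ * X l₀) ^ (d i - 1) else 0) fun i => ?_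
      split_ifs
      · have h1 := ((isHomogeneous_C (Fin a) (y l₀)⁻¹).mul (isHomogeneous_X k l₀)).pow (d i - 1)
        rwa [zero_add, one_mul] at h1
      · exact isHomogeneous_zero _ _ _
    choose η hη using hη
    refine ⟨fun l j => η j l, fun i j => ?_⟩
    have h1 := congrArg (aeval y) (hη j i)
    have h2 : aeval y (if i = j then (C (y l₀)⁻¹ * X l₀) ^ (d i - 1) else 0 : MvPolynomial (Fin a) k) =
        if i = j then 1 else 0 := by
      split_ifs
      · rw [map_pow, map_mul, aeval_C, aeval_X, Algebra.algebraMap_self, RingHom.id_apply,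
          inv_mul_cancel₀ hl₀, one_pow]
      · exact map_zero _
    rw [h2] at h1
    rw [← h1]
    unfold lin
    rw [map_sum]
    refine Finset.sum_congr rfl fun l _ => ?_
    rw [map_mul, aeval_C, pderiv_aeval, ev_lin, Algebra.algebraMap_self, RingHom.id_apply, mul_comm]

/-- the points of a free linear space are independent -/
theorem lin_ind (hr : 1 ≤ r) (hd : ∀ i, 2 ≤ d i) (F : Fin r → MvPolynomial (Fin N) k)
    (hF : ∀ i, (F i).IsHomogeneous (d i)) (P : Fin a → Fin N → k)
    (hns : ∀ y : Fin a → k, y ≠ 0 → ∃ W : Fin N → Fin r → k, ∀ i j,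
      ∑ l, aeval (fun j => ∑ l, y l * P l j) (pderiv l (F i)) * W l j = if i = j then 1 else 0) :
    LinearIndependent k P := by
  rw [Fintype.linearIndependent_iff]
  intro y hy l
  by_contra hl
  obtain ⟨W, hW⟩ := hns y (fun h => hl (congrFun h l))
  have h1 := hW ⟨0, hr⟩ ⟨0, hr⟩
  rw [if_pos rfl] at h1
  have h2 : (fun j => ∑ l, y l * P l j) = 0 := by
    rw [← hy]
    funext j
    rw [Finset.sum_apply]
    rfl
  rw [h2, Finset.sum_eq_zero] at h1
  · exact zero_ne_one h1
  · intro l _
    have h3 : (pderiv l (F ⟨0, hr⟩)).IsHomogeneous (d ⟨0, hr⟩ - 1) := (hF _).pderiv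
    have h4 : constantCoeff (pderiv l (F ⟨0, hr⟩)) = 0 := by
      rw [constantCoeff_eq]
      refine h3.coeff_eq_zero ?_
      have := hd ⟨0, hr⟩
      simp
      omega
    have h5 : aeval (0 : Fin N → k) (pderiv l (F ⟨0, hr⟩)) = 0 := by
      rw [aeval_zero, h4, map_zero]
    rw [h5, zero_mul]

variable {Ω : Type v} [Field Ω] [Algebra k Ω] [CharZero Ω]

/-- **Dominance**: the polynomials which vanish at `R` vanish at all points. -/
theorem dom (hLOC : SLOC.{u}) (hKRU : SKRU.{u}) [IsAlgClosed k] [CharZero k] {s : ℕ} (hN : N = s + r)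
    (hr : 1 ≤ r) (ha : r + 1 ≤ a) (hd : ∀ i, 2 ≤ d i) (F : Fin r → MvPolynomial (Fin N) k)
    (hF : ∀ i, (F i).IsHomogeneous (d i)) (P : Fin a → Fin N → k)
    (hP : ∀ G : Fin r → MvPolynomial (Fin a ⊕ Fin N) k,
      (∀ i, G i = aeval (fun j => ∑ l, C (P l j) * X (Sum.inl l) + X (Sum.inr j)) (F i)) →
        (∀ i, Van (G i)) ∧ Free d G)
    (R : Fin N → Ω) (h0 : ∀ i, aeval R (F i) = 0)
    (hder : ∀ w : Fin N → Ω, (∀ i, dd (F i) R w = 0) → ∃ D : Derivation k Ω Ω, ∀ i, D (R i) = w i)
    (G : MvPolynomial (Fin N) k) (hG : aeval R G = 0) (x : Fin N → k) (hx : ∀ i, aeval x (F i) = 0) :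
    aeval x G = 0 := by
  classical
  obtain ⟨hvan, hns⟩ := nonsing F P hP
  have hind := lin_ind hr hd F hF P hns
  -- the ideal of `R` is stable under the tangent vector fields
  have hst : ∀ w : Fin N → MvPolynomial (Fin N) k, (∀ i, ∑ l, w l * pderiv l (F i) = 0) →
      ∀ G ∈ RingHom.ker (aeval R : MvPolynomial (Fin N) k →ₐ[k] Ω),
        ∑ l, w l * pderiv l G ∈ RingHom.ker (aeval R : MvPolynomial (Fin N) k →ₐ[k] Ω) := by
    intro w hw G hG
    obtain ⟨D, hD⟩ := hder (fun l => aeval R (w l)) (fun i => by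
      have h1 := congrArg (aeval R) (hw i)
      rw [map_sum, map_zero] at h1
      rw [← h1, dd]
      exact Finset.sum_congr rfl fun l _ => (map_mul _ _ _).symm)
    rw [RingHom.mem_ker] at hG ⊢
    have h1 := dd_der D R G
    have h2 : D (aeval R G) = 0 := by
      have : aeval R G = 0 := hG
      rw [this, map_zero]
    rw [h2, funext hD, dd] at h1
    change aeval R (∑ l, w l * pderiv l G) = 0
    rw [map_sum, ← h1]
    exact Finset.sum_congr rfl fun l _ => map_mul _ _ _
  have hFR : ∀ i, F i ∈ RingHom.ker (aeval R : MvPolynomial (Fin N) k →ₐ[k] Ω) := fun i => h0 i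
  have hloc : ∀ y : Fin a → k, y ≠ 0 →
      (∀ G ∈ RingHom.ker (aeval R : MvPolynomial (Fin N) k →ₐ[k] Ω), aeval (fun j => ∑ l, y l * P l j) G = 0) →
      ∀ G ∈ RingHom.ker (aeval R : MvPolynomial (Fin N) k →ₐ[k] Ω), ∃ H, aeval (fun j => ∑ l, y l * P l j) H ≠ 0 ∧
        H * G ∈ Ideal.span (Set.range F) := by
    intro y hy hyG
    obtain ⟨W, hW⟩ := hns y hy
    exact hLOC k r N F _ W _ (hvan y) hW hFR hyG hst
  -- the linear space is contained in the component of `R`
  obtain ⟨e, he⟩ := indepR hN F R hder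
  obtain ⟨y₁, hy₁, hy₁G⟩ := meet hN ha (aeval R : MvPolynomial (Fin N) k →ₐ[k] Ω) (homKerR hF R h0 hder)
    (fun j => X (e j)) (by simpa only [aeval_X] using he) P hind
  have hlin : ∀ G ∈ RingHom.ker (aeval R : MvPolynomial (Fin N) k →ₐ[k] Ω), ∀ y : Fin a → k,
      aeval (fun j => ∑ l, y l * P l j) G = 0 := by
    intro G hG y
    obtain ⟨H, hH, hHG⟩ := hloc y₁ hy₁ (fun G hG => hy₁G G hG) G hG
    obtain ⟨π, hπ⟩ : ∃ π : MvPolynomial (Fin N) k →ₐ[k] MvPolynomial (Fin a) k,
        π = aeval (fun j => ∑ l, X l * C (P l j)) := ⟨_, rfl⟩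
    have hπe : ∀ (f : MvPolynomial (Fin N) k) (y : Fin a → k),
        aeval y (π f) = aeval (fun j => ∑ l, y l * P l j) f := by
      intro f y
      rw [hπ, ← AlgHom.comp_apply, comp_aeval]
      congr 2
      funext j
      rw [map_sum]
      refine Finset.sum_congr rfl fun l _ => ?_
      rw [map_mul, aeval_X, aeval_C, Algebra.algebraMap_self, RingHom.id_apply]
    have hinf : Infinite k := inferInstance
    have hπF : ∀ i, π (F i) = 0 := by
      intro i
      refine MvPolynomial.funext fun y => ?_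
      have h1 := hπe (F i) y
      rw [hvan y i] at h1
      rw [map_zero]
      exact h1
    have h1 : π (H * G) = 0 := by
      have h2 : Ideal.span (Set.range F) ≤ RingHom.ker π := by
        rw [Ideal.span_le]
        rintro _ ⟨i, rfl⟩
        exact hπF i
      exact h2 hHG
    rw [map_mul] at h1
    have h2 : π H ≠ 0 := by
      intro h
      apply hH
      rw [← hπe, h, map_zero]
    rw [← hπe, (mul_eq_zero.1 h1).resolve_left h2, map_zero]
  -- the component of `x`
  obtain ⟨q, hq, hFq, hqx, t, ht⟩ := hKRU k r s N hN F x hx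
  let B := MvPolynomial (Fin N) k ⧸ q
  let K2 := FractionRing B
  obtain ⟨Q, hQ⟩ : ∃ Q : Fin N → K2, Q = fun j => algebraMap B K2 (Ideal.Quotient.mk q (X j)) := ⟨_, rfl⟩
  have hQe : ∀ f : MvPolynomial (Fin N) k, aeval Q f = algebraMap B K2 (Ideal.Quotient.mk q f) := by
    intro f
    have h1 : (aeval Q : MvPolynomial (Fin N) k →ₐ[k] K2) =
        (IsScalarTower.toAlgHom k B K2).comp (Ideal.Quotient.mkₐ k q) := by
      apply MvPolynomial.algHom_ext
      intro j
      rw [aeval_X, hQ]
      rfl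
    rw [h1]
    rfl
  have hcone : ∀ f : MvPolynomial (Fin N) k, coneHom (k := k) Q f = 0 → f ∈ q := by
    intro f hf
    rw [coneHom_iff] at hf
    have h1 : aeval Q f = 0 := by
      rw [← sum_homogeneousComponent f, map_sum]
      exact Finset.sum_eq_zero fun d _ => hf d
    rw [hQe] at h1
    have h2 := (IsFractionRing.injective B K2) (h1.trans (map_zero _).symm)
    exact Ideal.Quotient.eq_zero_iff_mem.1 h2
  have ht' : AlgebraicIndependent k fun j => coneHom (k := k) Q (t j) := by
    rw [algebraicIndependent_iff] at ht ⊢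
    intro p hp
    apply ht p
    have h2 : aeval (fun i => coneHom (k := k) Q (t i)) p = coneHom (k := k) Q (aeval t p) :=
      (congrFun (congrArg DFunLike.coe (comp_aeval t (coneHom (k := k) Q))) p).symm
    rw [h2] at hp
    have h3 := hcone _ hp
    have h4 : aeval (fun j => Ideal.Quotient.mk q (t j)) p = Ideal.Quotient.mk q (aeval t p) :=
      (congrFun (congrArg DFunLike.coe (comp_aeval t (Ideal.Quotient.mkₐ k q))) p).symm
    rw [h4]
    exact Ideal.Quotient.eq_zero_iff_mem.2 h3
  obtain ⟨y₂, hy₂, hy₂G⟩ := meet hN ha (coneHom (k := k) Q) (coneHom_homKer Q) t ht' P hind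
  have hFc : ∀ i, coneHom (k := k) Q (F i) = 0 := by
    intro i
    rw [coneHom_hom_iff Q (hF i), hQe, Ideal.Quotient.eq_zero_iff_mem.2 (hFq i), map_zero]
  obtain ⟨H, hH, hHG⟩ := hloc y₂ hy₂ (fun G hG => hlin G hG y₂) G hG
  have h1 : coneHom (k := k) Q (H * G) = 0 := by
    have h2 : Ideal.span (Set.range F) ≤ RingHom.ker (coneHom (k := k) Q) := by
      rw [Ideal.span_le]
      rintro _ ⟨i, rfl⟩
      exact hFc i
    exact h2 hHG
  rw [map_mul] at h1
  rcases mul_eq_zero.1 h1 with h2 | h2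
  · exact absurd (hy₂G H h2) hH
  · exact hqx G (hcone G h2)

end

end Pool.Agent.Helper4.HY
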