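import Pool.Agent.Helper4.HY.Raw

/-!
# Freeness of the coefficients along a pencil; projections
-/

set_option autoImplicit false

namespace Pool.Agent.Helper4.HY

open MvPolynomial

universe u v w

section

variable {K : Type u} [Field K] {a c : ℕ} {K₁ : Type u} [Field K₁] [Algebra K K₁]

theorem lin_eq_dd {M : Type v} [CommRing M] [Algebra K M] (F : MvPolynomial (Fin a ⊕ Fin c) K) (η : Fin c → M) :
    lin F η = dd F (Sum.elim (X : Fin a → MvPolynomial (Fin a) M) (fun _ => 0))
      (Sum.elim (fun _ => 0) (fun l => C (η l))) := by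
  rw [dd, Fintype.sum_sum_type]
  simp only [Sum.elim_inl, Sum.elim_inr, zero_mul, Finset.sum_const_zero, zero_add]
  rfl

/-- the substitution -/
noncomputable def kap {M : Type v} [Field M] (q : Fin a → M) :
    MvPolynomial (Fin (a + 1)) M →ₐ[M] Polynomial (MvPolynomial (Fin a) M) :=
  aeval (Fin.cons Polynomial.X fun l => Polynomial.X * Polynomial.C (C (q l)) + Polynomial.C (X l))

theorem lin_raw (q : Fin a → K₁) (F : MvPolynomial (Fin (a + 1) ⊕ Fin c) K) (e : ℕ) {M : Type v} [Field M]
    [Algebra K₁ M] [Algebra K M] [IsScalarTower K K₁ M] (η : Fin c → M) :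
    lin (raw q F e) η = (kap (fun l => algebraMap K₁ M (q l)) (lin F η)).coeff e := by
  rw [lin, lin, map_sum, Polynomial.finsetSum_coeff]
  refine Finset.sum_congr rfl fun l _ => ?_
  rw [(raw_pderiv q F e).2 l, aeval_raw, map_mul]
  have h1 : kap (fun l => algebraMap K₁ M (q l)) (C (η l)) =
      Polynomial.C (C (η l) : MvPolynomial (Fin a) M) := by
    rw [kap, aeval_C]
    rfl
  rw [h1, Polynomial.coeff_C_mul]
  congr 2
  rw [Pl]
  have h2 : kap (fun l => algebraMap K₁ M (q l))
      (aeval (Sum.elim (X : Fin (a + 1) → MvPolynomial (Fin (a + 1)) M) (fun _ => 0)) (pderiv (Sum.inr l) F)) =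
      ((kap (fun l => algebraMap K₁ M (q l))).restrictScalars K)
      (aeval (Sum.elim (X : Fin (a + 1) → MvPolynomial (Fin (a + 1)) M) (fun _ => 0)) (pderiv (Sum.inr l) F)) := rfl
  rw [h2, ← AlgHom.comp_apply, comp_aeval]
  congr 2
  funext i
  rcases i with i | i
  · refine Fin.cases ?_ (fun i => ?_) i
    · simp only [pt, Sum.elim_inl, Fin.cons_zero, AlgHom.coe_restrictScalars', kap, aeval_X]
    · simp only [pt, Sum.elim_inl, Fin.cons_succ, AlgHom.coe_restrictScalars', kap, aeval_X]
      rfl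
  · simp only [pt, Sum.elim_inr, map_zero]

theorem kap_sum {M : Type v} [Field M] (q : Fin a → M) (m : ℕ) (Ψ : ℕ → MvPolynomial (Fin a) M) (e : ℕ) (he : e < m) :
    (kap q (∑ k ∈ Finset.range m, X 0 ^ k * aeval (fun l => X l.succ - X 0 * C (q l)) (Ψ k))).coeff e = Ψ e := by
  classical
  have h1 : ∀ k, kap q (X 0 ^ k * aeval (fun l => X l.succ - X 0 * C (q l)) (Ψ k)) =
      Polynomial.monomial k (Ψ k) := by
    intro k
    have h2 : kap q (X 0) = Polynomial.X := by
      rw [kap, aeval_X, Fin.cons_zero]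
    have h3 : kap q (aeval (fun l => X l.succ - X 0 * C (q l)) (Ψ k)) = Polynomial.C (Ψ k) := by
      rw [← AlgHom.comp_apply, comp_aeval]
      have h4 : (fun i => kap q (X (Fin.succ i) - X 0 * C (q i))) =
          fun i => algebraMap (MvPolynomial (Fin a) M) (Polynomial (MvPolynomial (Fin a) M)) (X i) := by
        funext i
        rw [map_sub, map_mul, h2, kap, aeval_X, Fin.cons_succ, aeval_C]
        have h5 : algebraMap M (Polynomial (MvPolynomial (Fin a) M)) (q i) = Polynomial.C (C (q i)) := rfl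
        rw [h5, add_sub_cancel_left]
        rfl
      rw [h4]
      have h6 := aeval_algebraMap_apply (R := M) (Polynomial (MvPolynomial (Fin a) M))
        (X : Fin a → MvPolynomial (Fin a) M) (Ψ k)
      rw [aeval_X_left] at h6
      exact h6
    rw [map_mul, map_pow, h2, h3, mul_comm, Polynomial.C_mul_X_pow_eq_monomial]
  rw [map_sum, Polynomial.finsetSum_coeff]
  simp only [h1, Polynomial.coeff_monomial]
  rw [Finset.sum_ite_eq' _ _ _, if_pos (Finset.mem_range.2 he)]

/-- the coefficients along the pencil are free -/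
theorem free_raw {ι : Type} {d : ι → ℕ} {F : ι → MvPolynomial (Fin (a + 1) ⊕ Fin c) K} (hF : Free d F)
    (hd : ∀ i, 1 ≤ d i) (q : Fin a → K₁) (M : Type u) [Field M] [Algebra K₁ M]
    (Ψ : ι → ℕ → MvPolynomial (Fin a) M) (hΨ : ∀ i e, e < d i → (Ψ i e).IsHomogeneous (d i - 1 - e)) :
    ∃ η : Fin c → M, ∀ i e, e < d i → lin (raw q (F i) e) η = Ψ i e := by
  let _ : Algebra K M := ((algebraMap K₁ M).comp (algebraMap K K₁)).toAlgebra
  have _ : IsScalarTower K K₁ M := IsScalarTower.of_algebraMap_eq fun r => rfl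
  obtain ⟨η, hη⟩ := hF M (fun i => ∑ k ∈ Finset.range (d i), X 0 ^ k *
    aeval (fun l => X l.succ - X 0 * C (algebraMap K₁ M (q l))) (Ψ i k)) (by
    intro i
    refine IsHomogeneous.sum _ _ _ fun k hk => ?_
    rw [Finset.mem_range] at hk
    have h1 : (aeval (fun l => X l.succ - X 0 * C (algebraMap K₁ M (q l))) (Ψ i k) :
        MvPolynomial (Fin (a + 1)) M).IsHomogeneous (1 * (d i - 1 - k)) := by
      refine (hΨ i k hk).aeval (fun l => (X l.succ - X 0 * C (algebraMap K₁ M (q l)) : MvPolynomial (Fin (a + 1)) M))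
        fun l => ?_
      refine (isHomogeneous_X _ _).sub ?_
      have := (isHomogeneous_X M (0 : Fin (a + 1))).mul (isHomogeneous_C (Fin (a + 1)) (algebraMap K₁ M (q l)))
      rwa [add_zero] at this
    have h2 := ((isHomogeneous_X M (0 : Fin (a + 1))).pow k).mul h1
    have h3 : 1 * k + 1 * (d i - 1 - k) = d i - 1 := by
      have := hd i
      omega
    rwa [h3] at h2)
  refine ⟨η, fun i e he => ?_⟩
  rw [lin_raw, hη i, kap_sum _ _ _ _ he]

end

end Pool.Agent.Helper4.HY
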