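import Pool.Agent.Helper4.HY.FreeRaw

/-!
# The projection which kills the linear forms
-/

set_option autoImplicit false

namespace Pool.Agent.Helper4.HY

open MvPolynomial

universe u v w

section

variable {K : Type u} [Field K] {σ : Type} [Fintype σ]

theorem dd_map {B : Type v} {B' : Type w} [CommRing B] [CommRing B'] [Algebra K B] [Algebra K B'] (f : B →ₐ[K] B')
    (F : MvPolynomial σ K) (R ω : σ → B) : f (dd F R ω) = dd F (fun i => f (R i)) (fun i => f (ω i)) := by
  rw [dd, dd, map_sum]
  refine Finset.sum_congr rfl fun i _ => ?_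
  rw [map_mul]
  congr 1
  rw [← AlgHom.comp_apply, comp_aeval]

/-- substitution of polynomials and the derivative -/
theorem dd_subst {τ : Type} [Fintype τ] {B : Type v} [CommRing B] [Algebra K B] (F : MvPolynomial τ K)
    (z : τ → MvPolynomial σ K) (R ω : σ → B) :
    dd (aeval z F) R ω = dd F (fun i => aeval R (z i)) (fun i => dd (z i) R ω) := by
  have h1 : ∀ G : MvPolynomial σ K, dd G R ω =
      aeval R ((mkDerivation B (fun i => C (ω i) : σ → MvPolynomial σ B))
        (aeval (X : σ → MvPolynomial σ B) G)) := by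
    intro G
    have h2 := dd_der ((mkDerivation B (fun i => C (ω i) : σ → MvPolynomial σ B)).restrictScalars K)
      (X : σ → MvPolynomial σ B) G
    have h3 : ((mkDerivation B (fun i => C (ω i) : σ → MvPolynomial σ B)).restrictScalars K)
      (aeval (X : σ → MvPolynomial σ B) G) = (mkDerivation B (fun i => C (ω i) : σ → MvPolynomial σ B))
        (aeval (X : σ → MvPolynomial σ B) G) := rfl
    rw [← h3, ← h2]
    have h4 : (fun i => ((mkDerivation B (fun i => C (ω i) : σ → MvPolynomial σ B)).restrictScalars K)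
        (X i)) = fun i => C (ω i) := by
      funext i
      exact mkDerivation_X B _ i
    rw [h4]
    have h5 := dd_map ((MvPolynomial.aeval (R := B) R : MvPolynomial σ B →ₐ[B] B).restrictScalars K) G
      (X : σ → MvPolynomial σ B) (fun i => C (ω i))
    refine Eq.trans ?_ h5.symm
    congr 1
    · funext i
      exact (MvPolynomial.aeval_X (R := B) R i).symm
    · funext i
      exact (MvPolynomial.aeval_C (R := B) R (ω i)).symm
  have h6 : aeval (X : σ → MvPolynomial σ B) (aeval z F) =
      aeval (fun i => aeval (X : σ → MvPolynomial σ B) (z i)) F := by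
    rw [← AlgHom.comp_apply, comp_aeval]
  rw [h1, h6]
  have h2 := dd_der ((mkDerivation B (fun i => C (ω i) : σ → MvPolynomial σ B)).restrictScalars K)
    (fun i => aeval (X : σ → MvPolynomial σ B) (z i)) F
  have h3 : ((mkDerivation B (fun i => C (ω i) : σ → MvPolynomial σ B)).restrictScalars K)
    (aeval (fun i => aeval (X : σ → MvPolynomial σ B) (z i)) F) =
      (mkDerivation B (fun i => C (ω i) : σ → MvPolynomial σ B))
      (aeval (fun i => aeval (X : σ → MvPolynomial σ B) (z i)) F) := rfl
  rw [← h3, ← h2]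
  have h5 := dd_map ((MvPolynomial.aeval (R := B) R : MvPolynomial σ B →ₐ[B] B).restrictScalars K) F
    (fun i => aeval (X : σ → MvPolynomial σ B) (z i))
    (fun i => ((mkDerivation B (fun i => C (ω i) : σ → MvPolynomial σ B)).restrictScalars K)
      (aeval (X : σ → MvPolynomial σ B) (z i)))
  refine Eq.trans h5 ?_
  congr 1
  · funext i
    rw [← AlgHom.comp_apply, comp_aeval]
    congr 2
    funext j
    exact MvPolynomial.aeval_X (R := B) R j
  · funext i
    rw [h1]
    rfl

end

section

variable {K : Type u} [Field K] {a c : ℕ} {J : Type} [Fintype J] (lam et : J → Fin c → K)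

/-- values of the linear forms -/
def lv {B : Type v} [CommRing B] [Algebra K B] (y : Fin c → B) (j : J) : B :=
  ∑ m, algebraMap K B (lam j m) * y m

/-- the projection -/
def prj {B : Type v} [CommRing B] [Algebra K B] (y : Fin c → B) (l : Fin c) : B :=
  y l - ∑ j, lv lam y j * algebraMap K B (et j l)

variable {lam et}

theorem lv_prj [DecidableEq J] (h : ∀ i j, ∑ m, lam i m * et j m = if i = j then 1 else 0)
    {B : Type v} [CommRing B] [Algebra K B] (y : Fin c → B) (i : J) : lv lam (prj lam et y) i = 0 := by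
  have h1 : ∀ j, ∑ m, algebraMap K B (lam i m) * algebraMap K B (et j m) = if i = j then 1 else 0 := by
    intro j
    simp only [← map_mul, ← map_sum, h i j]
    split_ifs
    · exact map_one _
    · exact map_zero _
  have h2 : lv lam (prj lam et y) i = lv lam y i - ∑ j, lv lam y j * ∑ m, algebraMap K B (lam i m) *
      algebraMap K B (et j m) := by
    rw [lv]
    simp only [prj, mul_sub, Finset.sum_sub_distrib, Finset.mul_sum]
    rw [Finset.sum_comm]
    congr 1
    refine Finset.sum_congr rfl fun j _ => Finset.sum_congr rfl fun m _ => ?_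
    ring
  rw [h2]
  simp only [h1, mul_ite, mul_one, mul_zero]
  rw [Finset.sum_ite_eq, if_pos (Finset.mem_univ _), sub_self]

theorem prj_id {B : Type v} [CommRing B] [Algebra K B] {y : Fin c → B} (h : ∀ j, lv lam y j = 0) :
    prj lam et y = y := by
  funext l
  rw [prj]
  simp only [h, zero_mul, Finset.sum_const_zero, sub_zero]

theorem prj_zero {B : Type v} [CommRing B] [Algebra K B] : prj lam et (fun _ => 0 : Fin c → B) = fun _ => 0 :=
  prj_id fun j => by simp [lv]

omit [Fintype J] in
theorem lv_der {B : Type v} [CommRing B] [Algebra K B] (D : Derivation K B B) (y : Fin c → B) (j : J) :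
    D (lv lam y j) = lv lam (fun l => D (y l)) j := by
  rw [lv, lv, map_sum]
  refine Finset.sum_congr rfl fun m _ => ?_
  rw [D.leibniz, D.map_algebraMap, smul_zero, add_zero, smul_eq_mul]

theorem prj_der {B : Type v} [CommRing B] [Algebra K B] (D : Derivation K B B) (y : Fin c → B) (l : Fin c) :
    D (prj lam et y l) = prj lam et (fun l => D (y l)) l := by
  rw [prj, prj, map_sub, map_sum]
  congr 1
  refine Finset.sum_congr rfl fun j _ => ?_
  rw [D.leibniz, D.map_algebraMap, smul_zero, zero_add, smul_eq_mul, lv_der, mul_comm]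

omit [Fintype J] in
theorem lv_map {B : Type v} {B' : Type w} [CommRing B] [CommRing B'] [Algebra K B] [Algebra K B'] (f : B →ₐ[K] B')
    (y : Fin c → B) (j : J) : f (lv lam y j) = lv lam (fun l => f (y l)) j := by
  rw [lv, lv, map_sum]
  refine Finset.sum_congr rfl fun m _ => ?_
  rw [map_mul, f.commutes]

theorem prj_map {B : Type v} {B' : Type w} [CommRing B] [CommRing B'] [Algebra K B] [Algebra K B'] (f : B →ₐ[K] B')
    (y : Fin c → B) (l : Fin c) : f (prj lam et y l) = prj lam et (fun l => f (y l)) l := by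
  rw [prj, prj, map_sub, map_sum]
  congr 1
  refine Finset.sum_congr rfl fun j _ => ?_
  rw [map_mul, f.commutes, lv_map]

variable (lam et)

/-- composition with the projection -/
noncomputable def hat (G : MvPolynomial (Fin a ⊕ Fin c) K) : MvPolynomial (Fin a ⊕ Fin c) K :=
  aeval (Sum.elim (fun l => X (Sum.inl l)) (prj lam et (fun l => X (Sum.inr l)))) G

variable {lam et}

theorem aeval_hat (G : MvPolynomial (Fin a ⊕ Fin c) K) {B : Type v} [CommRing B] [Algebra K B] (x : Fin a → B)
    (y : Fin c → B) : aeval (Sum.elim x y) (hat lam et G) = aeval (Sum.elim x (prj lam et y)) G := by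
  rw [hat, ← AlgHom.comp_apply, comp_aeval]
  congr 2
  funext l
  rcases l with l | l
  · simp only [Sum.elim_inl, aeval_X]
  · simp only [Sum.elim_inr]
    rw [prj_map]
    simp only [aeval_X, Sum.elim_inr]

theorem hat_hom {G : MvPolynomial (Fin a ⊕ Fin c) K} {d : ℕ} (hG : G.IsHomogeneous d) :
    (hat lam et G).IsHomogeneous d := by
  have h1 : (hat lam et G).IsHomogeneous (1 * d) := by
    refine hG.aeval _ fun l => ?_
    rcases l with l | l
    · exact isHomogeneous_X _ _
    · simp only [Sum.elim_inr, prj, lv]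
      refine (isHomogeneous_X _ _).sub (IsHomogeneous.sum _ _ _ fun j _ => ?_)
      have h2 : (∑ m, algebraMap K (MvPolynomial (Fin a ⊕ Fin c) K) (lam j m) * X (Sum.inr m)).IsHomogeneous 1 := by
        refine IsHomogeneous.sum _ _ _ fun m _ => ?_
        have := (isHomogeneous_C (Fin a ⊕ Fin c) (lam j m)).mul (isHomogeneous_X K (Sum.inr m : Fin a ⊕ Fin c))
        rwa [zero_add] at this
      have := h2.mul (isHomogeneous_C (Fin a ⊕ Fin c) (et j l))
      rwa [add_zero] at this
  rwa [one_mul] at h1

theorem hat_van {G : MvPolynomial (Fin a ⊕ Fin c) K} (hG : Van G) : Van (hat lam et G) := by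
  rw [Van, aeval_hat, prj_zero]
  exact hG

theorem dd_hat (G : MvPolynomial (Fin a ⊕ Fin c) K) {B : Type v} [CommRing B] [Algebra K B] (x : Fin a → B)
    (y : Fin c → B) (w : Fin a → B) (v : Fin c → B) :
    dd (hat lam et G) (Sum.elim x y) (Sum.elim w v) =
      dd G (Sum.elim x (prj lam et y)) (Sum.elim w (prj lam et v)) := by
  classical
  rw [hat, dd_subst]
  have hX : ∀ i : Fin a ⊕ Fin c, dd (X i : MvPolynomial (Fin a ⊕ Fin c) K) (Sum.elim x y) (Sum.elim w v) =
      (Sum.elim w v : Fin a ⊕ Fin c → B) i := by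
    intro i
    rw [dd, Finset.sum_eq_single i]
    · rw [pderiv_X_self, map_one, mul_one]
    · intro j _ hj
      rw [pderiv_X_of_ne hj.symm, map_zero, mul_zero]
    · intro h
      exact absurd (Finset.mem_univ _) h
  have hadd : ∀ p q : MvPolynomial (Fin a ⊕ Fin c) K, dd (p + q) (Sum.elim x y) (Sum.elim w v) =
      dd p (Sum.elim x y) (Sum.elim w v) + dd q (Sum.elim x y) (Sum.elim w v : Fin a ⊕ Fin c → B) := by
    intro p q
    rw [dd, dd, dd, ← Finset.sum_add_distrib]
    refine Finset.sum_congr rfl fun i _ => ?_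
    rw [map_add, map_add, mul_add]
  have hC : ∀ (r : K) (p : MvPolynomial (Fin a ⊕ Fin c) K), dd (C r * p) (Sum.elim x y) (Sum.elim w v) =
      algebraMap K B r * dd p (Sum.elim x y) (Sum.elim w v : Fin a ⊕ Fin c → B) := by
    intro r p
    rw [dd, dd, Finset.mul_sum]
    refine Finset.sum_congr rfl fun i _ => ?_
    rw [pderiv_C_mul, map_mul, aeval_C]
    ring
  let L : MvPolynomial (Fin a ⊕ Fin c) K →ₗ[K] B :=
    { toFun := fun p => dd p (Sum.elim x y) (Sum.elim w v : Fin a ⊕ Fin c → B)
      map_add' := hadd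
      map_smul' := fun r p => by
        rw [smul_eq_C_mul, hC, RingHom.id_apply, Algebra.smul_def] }
  have hL : ∀ p, dd p (Sum.elim x y) (Sum.elim w v : Fin a ⊕ Fin c → B) = L p := fun p => rfl
  congr 1
  · funext l
    rcases l with l | l
    · simp only [Sum.elim_inl, aeval_X]
    · simp only [Sum.elim_inr]
      rw [prj_map]
      simp only [aeval_X, Sum.elim_inr]
  · funext l
    rcases l with l | l
    · simp only [Sum.elim_inl]
      rw [hX, Sum.elim_inl]
    · simp only [Sum.elim_inr]
      rw [hL, prj, map_sub, map_sum, prj, ← hL, hX, Sum.elim_inr]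
      congr 1
      refine Finset.sum_congr rfl fun j _ => ?_
      have h1 : lv lam (fun l => (X (Sum.inr l) : MvPolynomial (Fin a ⊕ Fin c) K)) j *
          algebraMap K (MvPolynomial (Fin a ⊕ Fin c) K) (et j l) =
          C (et j l) * ∑ m, C (lam j m) * X (Sum.inr m) := mul_comm _ _
      rw [h1, ← hL, hC, mul_comm]
      congr 1
      rw [hL, map_sum, lv]
      refine Finset.sum_congr rfl fun m _ => ?_
      rw [← hL, hC, hX, Sum.elim_inr]

theorem lin_hat (G : MvPolynomial (Fin a ⊕ Fin c) K) {M : Type v} [CommRing M] [Algebra K M] (η : Fin c → M) :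
    lin (hat lam et G) η = lin G (prj lam et η) := by
  rw [lin_eq_dd, dd_hat, lin_eq_dd, prj_zero]
  congr 2
  funext l
  have h1 := prj_map (lam := lam) (et := et) (IsScalarTower.toAlgHom K M (MvPolynomial (Fin a) M)) η l
  exact h1.symm

theorem dd_single (G : MvPolynomial (Fin a ⊕ Fin c) K) {B : Type v} [CommRing B] [Algebra K B]
    (R : Fin a ⊕ Fin c → B) (l : Fin a) :
    dd G R (Sum.elim (fun i => if i = l then 1 else 0) (fun _ => 0)) = aeval R (pderiv (Sum.inl l) G) := by
  rw [dd, Fintype.sum_sum_type]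
  simp

theorem dd_inl (G : MvPolynomial (Fin a ⊕ Fin c) K) {B : Type v} [CommRing B] [Algebra K B]
    (R : Fin a ⊕ Fin c → B) (w : Fin a → B) :
    dd G R (Sum.elim w (fun _ => 0)) = ∑ l, w l * aeval R (pderiv (Sum.inl l) G) := by
  rw [dd, Fintype.sum_sum_type]
  simp

theorem pderiv_hat (G : MvPolynomial (Fin a ⊕ Fin c) K) {B : Type v} [CommRing B] [Algebra K B] (x : Fin a → B)
    (y : Fin c → B) (l : Fin a) : aeval (Sum.elim x y) (pderiv (Sum.inl l) (hat lam et G)) =
      aeval (Sum.elim x (prj lam et y)) (pderiv (Sum.inl l) G) := by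
  rw [← dd_single, dd_hat, prj_zero, dd_single]

theorem hat_free {ι : Type} {d : ι → ℕ} {G : ι → MvPolynomial (Fin a ⊕ Fin c) K}
    (h : ∀ (M : Type u) [Field M] [Algebra K M] (Ψ : ι → MvPolynomial (Fin a) M),
      (∀ i, (Ψ i).IsHomogeneous (d i - 1)) →
      ∃ η : Fin c → M, (∀ i, lin (G i) η = Ψ i) ∧ ∀ j, lv lam η j = 0) :
    Free d (fun i => hat lam et (G i)) := by
  intro M _ _ Ψ hΨ
  obtain ⟨η, h1, h2⟩ := h M Ψ hΨ
  refine ⟨η, fun i => ?_⟩
  rw [lin_hat, prj_id h2, h1]

end

end Pool.Agent.Helper4.HY
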