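import Pool.Agent.Helper4.HY.TopC
import Pool.Agent.Helper4.HY.Defs4
import Pool.Agent.Helper64.QH.Grd

/-!
# Varieties of large dimension meet linear spaces
-/

set_option autoImplicit false
set_option linter.unusedSectionVars false

namespace Pool.Agent.Helper4.HY

open MvPolynomial Pool.Agent.Helper4.QH

universe u v w

section

variable {k : Type u} [Field k]

/-- The cone `ker φ` of dimension at least `s` in a space of dimension `s + r` meets a linear space of
dimension more than `r`. -/
theorem meet [IsAlgClosed k] {N a s r : ℕ} (hN : N = s + r) (ha : r + 1 ≤ a)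
    {A : Type v} [CommRing A] [IsDomain A] [Algebra k A] (φ : MvPolynomial (Fin N) k →ₐ[k] A) (hφ : HomKer φ)
    (t : Fin s → MvPolynomial (Fin N) k) (ht : AlgebraicIndependent k fun j => φ (t j))
    (P : Fin a → Fin N → k) (hP : LinearIndependent k P) :
    ∃ y : Fin a → k, y ≠ 0 ∧ ∀ G, φ G = 0 → aeval (fun j => ∑ l, y l * P l j) G = 0 := by
  classical
  have haN : a ≤ N := by
    have h1 := hP.fintype_card_le_finrank
    rwa [Fintype.card_fin, Module.finrank_fin_fun] at h1
  obtain ⟨W, hW⟩ : ∃ W : Subspace k (Fin N → k), W = Submodule.span k (Set.range P) := ⟨_, rfl⟩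
  have hWf : Module.finrank k W = a := by
    rw [hW, finrank_span_eq_card hP, Fintype.card_fin]
  have hWd : Module.finrank k W.dualAnnihilator = N - a := by
    have h1 := Subspace.finrank_add_finrank_dualAnnihilator_eq W
    rw [hWf, Module.finrank_fin_fun] at h1
    omega
  have : Module.Free k W.dualAnnihilator := by
    exact Module.Free.of_divisionRing k ↥(Submodule.dualAnnihilator W)
  let b := Module.finBasisOfFinrankEq k W.dualAnnihilator hWd
  obtain ⟨g, hg⟩ : ∃ g : Fin (N - a) → MvPolynomial (Fin N) k,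
      g = fun j => ∑ i, C ((b j : Module.Dual k (Fin N → k)) (Pi.single i 1)) * X i := ⟨_, rfl⟩
  have hgh : ∀ j, (g j).IsHomogeneous 1 := by
    intro j
    rw [hg]
    refine IsHomogeneous.sum _ _ _ fun i _ => ?_
    have := (isHomogeneous_C (Fin N) ((b j : Module.Dual k (Fin N → k)) (Pi.single i 1))).mul
      (isHomogeneous_X k i)
    rwa [zero_add] at this
  obtain ⟨Q, hQ, hle, hgQ, i, hi⟩ := Pool.Agent.Helper64.QH.sPt k A N (N - a) φ hφ g (fun _ => 1)
    (fun _ => one_pos) hgh
    ⟨fun j => t (Fin.castLE (by omega) j), ht.comp (Fin.castLE (by omega : N - a + 1 ≤ s))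
      (Fin.castLE_injective _)⟩
  have h1 : X i ∉ vanishingIdeal k (zeroLocus k Q) := by
    rw [vanishingIdeal_zeroLocus_eq_radical (K := k), hQ.radical]
    exact hi
  rw [mem_vanishingIdeal_iff] at h1
  push Not at h1
  obtain ⟨x, hx, hxi⟩ := h1
  rw [mem_zeroLocus_iff] at hx
  have hxW : x ∈ W := by
    rw [← Subspace.dualAnnihilator_dualCoannihilator_eq (W := W), Submodule.mem_dualCoannihilator]
    intro f hf
    have h2 : ∀ j, (b j : Module.Dual k (Fin N → k)) x = 0 := by
      intro j
      have h3 := hx _ (hgQ j)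
      rw [hg] at h3
      simp only [map_sum, map_mul, aeval_X, aeval_C, Algebra.algebraMap_self, RingHom.id_apply] at h3
      refine Eq.trans ?_ h3
      rw [LinearMap.pi_apply_eq_sum_univ (b j : Module.Dual k (Fin N → k)) x]
      refine Finset.sum_congr rfl fun i _ => ?_
      rw [smul_eq_mul, mul_comm]
      congr 2
      funext j'
      by_cases h : i = j'
      · subst h
        rw [if_pos rfl, Pi.single_eq_same]
      · rw [if_neg h, Pi.single_eq_of_ne (fun h' => h h'.symm)]
    have h4 := b.sum_repr ⟨f, hf⟩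
    have h5 := congrArg Subtype.val h4
    rw [← show ((⟨f, hf⟩ : W.dualAnnihilator) : Module.Dual k (Fin N → k)) = f from rfl, ← h4]
    rw [AddSubmonoidClass.coe_finsetSum, LinearMap.sum_apply]
    refine Finset.sum_eq_zero fun j _ => ?_
    rw [Submodule.coe_smul, LinearMap.smul_apply, h2, smul_zero]
  rw [hW, Submodule.mem_span_range_iff_exists_fun] at hxW
  obtain ⟨y, hy⟩ := hxW
  have hxy : x = fun j => ∑ l, y l * P l j := by
    rw [← hy]
    funext j
    rw [Finset.sum_apply]
    rfl
  refine ⟨y, fun h0 => hxi ?_, fun G hG => ?_⟩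
  · rw [aeval_X, hxy, h0]
    simp
  · rw [← hxy]
    exact hx G (hle hG)

variable {Ω : Type v} [Field Ω] [Algebra k Ω] [CharZero Ω] {N r : ℕ}

/-- algebraically independent coordinates -/
theorem indepR {s : ℕ} (hN : N = s + r) (F : Fin r → MvPolynomial (Fin N) k) (R : Fin N → Ω)
    (hder : ∀ w : Fin N → Ω, (∀ i, dd (F i) R w = 0) → ∃ D : Derivation k Ω Ω, ∀ i, D (R i) = w i) :
    ∃ e : Fin s → Fin N, AlgebraicIndependent k (fun i => R (e i)) := by
  rcases Nat.eq_zero_or_pos s with rfl | hs
  · exact ⟨Fin.elim0, algebraicIndependent_empty_type⟩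
  obtain ⟨s, rfl⟩ : ∃ t, s = t + 1 := ⟨s - 1, by omega⟩
  by_contra hcon
  push Not at hcon
  obtain ⟨Z, hZ, hZD⟩ := TD_coord (k := k) R hcon
  let J : (Fin N → Ω) →ₗ[Ω] (Fin r → Ω) :=
    { toFun := fun w i => dd (F i) R w
      map_add' := fun w w' => funext fun i => dd_add (F i) R w w'
      map_smul' := fun t w => funext fun i => dd_smul (F i) R w t }
  have hTZ : LinearMap.ker J ≤ Z := by
    intro w hw
    obtain ⟨D, hD⟩ := hder w fun i => congrFun hw i
    have h1 := hZD D
    rwa [funext hD] at h1
  have h1 := LinearMap.finrank_range_add_finrank_ker J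
  have h2' : Module.finrank Ω (LinearMap.range J) ≤ r := by
    have := Submodule.finrank_le (LinearMap.range J)
    rwa [Module.finrank_fin_fun] at this
  rw [Module.finrank_fin_fun] at h1
  have h5 := Submodule.finrank_mono hTZ
  omega

/-- the ideal of `R` is homogeneous -/
theorem homKerR {F : Fin r → MvPolynomial (Fin N) k} {d : Fin r → ℕ} (hF : ∀ i, (F i).IsHomogeneous (d i))
    (R : Fin N → Ω) (h0 : ∀ i, aeval R (F i) = 0)
    (hder : ∀ w : Fin N → Ω, (∀ i, dd (F i) R w = 0) → ∃ D : Derivation k Ω Ω, ∀ i, D (R i) = w i) :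
    HomKer (aeval R : MvPolynomial (Fin N) k →ₐ[k] Ω) := by
  classical
  have hk : CharZero k := by
    refine ⟨fun m n h => ?_⟩
    have h1 := congrArg (algebraMap k Ω) h
    rw [map_natCast, map_natCast] at h1
    exact_mod_cast h1
  have heul : ∀ {G : MvPolynomial (Fin N) k} {c : ℕ}, G.IsHomogeneous c → dd G R R = (c : Ω) * aeval R G := by
    intro G c hG
    have h1 := congrArg (aeval R) hG.sum_X_mul_pderiv
    rw [map_sum] at h1
    rw [dd, ← nsmul_eq_mul, ← map_nsmul, ← h1]
    refine Finset.sum_congr rfl fun i _ => ?_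
    rw [map_mul, aeval_X]
  obtain ⟨D, hD⟩ := hder R (fun i => by rw [heul (hF i), h0, mul_zero])
  have hDG : ∀ {G : MvPolynomial (Fin N) k} {c : ℕ}, G.IsHomogeneous c →
      D (aeval R G) = (c : k) • aeval R G := by
    intro G c hG
    rw [← dd_der, funext hD, heul hG, Algebra.smul_def, map_natCast]
  intro f hf c
  by_contra hne
  obtain ⟨S, hS⟩ : ∃ S : Finset ℕ, S = (Finset.range (f.totalDegree + 1)).filter
    (fun c => aeval R (homogeneousComponent c f) ≠ 0) := ⟨_, rfl⟩
  have hmem : ∀ c ∈ S, aeval R (homogeneousComponent c f) ≠ 0 := by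
    intro c hc
    rw [hS, Finset.mem_filter] at hc
    exact hc.2
  have hind := Module.End.eigenvectors_linearIndependent' (R := k) (M := Ω) D.toLinearMap
    (fun c : S => ((c : ℕ) : k)) (fun c c' h => Subtype.ext (Nat.cast_injective h))
    (fun c : S => aeval R (homogeneousComponent c f)) (fun c => by
      refine ⟨?_, ?_⟩
      · rw [Module.End.mem_eigenspace_iff]
        exact hDG (homogeneousComponent_isHomogeneous _ f)
      · exact hmem _ c.2)
  have hsum : ∑ c : S, (1 : k) • aeval R (homogeneousComponent (c : ℕ) f) = 0 := by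
    simp only [one_smul]
    rw [Finset.sum_coe_sort S (fun c => aeval R (homogeneousComponent c f)), hS, Finset.sum_filter_ne_zero,
      ← map_sum, sum_homogeneousComponent, hf]
  have hc : c ∈ S := by
    rw [hS, Finset.mem_filter]
    refine ⟨?_, hne⟩
    rw [Finset.mem_range]
    by_contra h
    apply hne
    rw [homogeneousComponent_eq_zero _ _ (by omega), map_zero]
  exact one_ne_zero ((Fintype.linearIndependent_iff.1 hind) (fun _ => (1 : k)) hsum ⟨c, hc⟩)

end

end Pool.Agent.Helper4.HY
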