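import Pool.Agent.Helper4.HY.Chain

/-!
# The coefficients of the forms along a pencil
-/

set_option autoImplicit false

namespace Pool.Agent.Helper4.HY

open MvPolynomial

universe u v w

section hp

variable {L : Type u} [Field L] {σ : Type}

/-- homogeneous of degree `n` in all the variables -/
def HP (n : ℕ) (p : Polynomial (MvPolynomial σ L)) : Prop :=
  ∀ e, (e ≤ n → (p.coeff e).IsHomogeneous (n - e)) ∧ (n < e → p.coeff e = 0)

theorem HP.mul {m n : ℕ} {p r : Polynomial (MvPolynomial σ L)} (hp : HP m p) (hr : HP n r) : HP (m + n) (p * r) := by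
  intro e
  refine ⟨fun he => ?_, fun he => ?_⟩
  · rw [Polynomial.coeff_mul]
    refine IsHomogeneous.sum _ _ _ fun x hx => ?_
    rw [Finset.HasAntidiagonal.mem_antidiagonal] at hx
    by_cases h1 : x.1 ≤ m
    · by_cases h2 : x.2 ≤ n
      · have h3 := ((hp x.1).1 h1).mul ((hr x.2).1 h2)
        have h4 : m - x.1 + (n - x.2) = m + n - e := by omega
        rwa [h4] at h3
      · rw [(hr x.2).2 (by omega), mul_zero]
        exact isHomogeneous_zero _ _ _
    · rw [(hp x.1).2 (by omega), zero_mul]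
      exact isHomogeneous_zero _ _ _
  · rw [Polynomial.coeff_mul]
    refine Finset.sum_eq_zero fun x hx => ?_
    rw [Finset.HasAntidiagonal.mem_antidiagonal] at hx
    by_cases h1 : x.1 ≤ m
    · rw [(hr x.2).2 (by omega), mul_zero]
    · rw [(hp x.1).2 (by omega), zero_mul]

theorem HP.C' {r : MvPolynomial σ L} {n : ℕ} (h : r.IsHomogeneous n) : HP n (Polynomial.C r) := by
  intro e
  rw [Polynomial.coeff_C]
  refine ⟨fun he => ?_, fun he => ?_⟩
  · split_ifs with h1
    · subst h1
      exact h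
    · exact isHomogeneous_zero _ _ _
  · rw [if_neg (by omega)]

theorem HP.X' : HP 1 (Polynomial.X : Polynomial (MvPolynomial σ L)) := by
  intro e
  rw [Polynomial.coeff_X]
  refine ⟨fun he => ?_, fun he => ?_⟩
  · split_ifs with h1
    · subst h1
      exact isHomogeneous_one _ _
    · exact isHomogeneous_zero _ _ _
  · rw [if_neg (by omega)]

theorem HP.add {n : ℕ} {p r : Polynomial (MvPolynomial σ L)} (hp : HP n p) (hr : HP n r) : HP n (p + r) := by
  intro e
  rw [Polynomial.coeff_add]
  refine ⟨fun he => ((hp e).1 he).add ((hr e).1 he), fun he => ?_⟩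
  rw [(hp e).2 he, (hr e).2 he, add_zero]

theorem HP.zero {n : ℕ} : HP n (0 : Polynomial (MvPolynomial σ L)) := by
  intro e
  rw [Polynomial.coeff_zero]
  exact ⟨fun _ => isHomogeneous_zero _ _ _, fun _ => rfl⟩

theorem HP.sum {κ : Type} {n : ℕ} (s : Finset κ) (f : κ → Polynomial (MvPolynomial σ L)) (h : ∀ i ∈ s, HP n (f i)) :
    HP n (∑ i ∈ s, f i) := by
  classical
  induction s using Finset.induction_on with
  | empty => rw [Finset.sum_empty]; exact HP.zero
  | insert i s hi ih =>
    rw [Finset.sum_insert hi]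
    exact (h i (Finset.mem_insert_self _ _)).add (ih fun j hj => h j (Finset.mem_insert_of_mem hj))

theorem HP.pow {n : ℕ} {p : Polynomial (MvPolynomial σ L)} (hp : HP n p) (m : ℕ) : HP (m * n) (p ^ m) := by
  induction m with
  | zero =>
    rw [pow_zero, Nat.zero_mul]
    have := HP.C' (isHomogeneous_one σ L)
    rwa [Polynomial.C_1] at this
  | succ m ih =>
    rw [pow_succ, Nat.succ_mul]
    exact ih.mul hp

theorem HP.prod {κ : Type} (s : Finset κ) (f : κ → Polynomial (MvPolynomial σ L)) (n : κ → ℕ)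
    (h : ∀ i ∈ s, HP (n i) (f i)) : HP (∑ i ∈ s, n i) (∏ i ∈ s, f i) := by
  classical
  induction s using Finset.induction_on with
  | empty =>
    rw [Finset.sum_empty, Finset.prod_empty]
    have := HP.C' (isHomogeneous_one σ L)
    rwa [Polynomial.C_1] at this
  | insert i s hi ih =>
    rw [Finset.sum_insert hi, Finset.prod_insert hi]
    exact (h i (Finset.mem_insert_self _ _)).mul (ih fun j hj => h j (Finset.mem_insert_of_mem hj))

theorem HP.aeval {K : Type v} [Field K] [Algebra K L] {τ : Type} [Fintype τ] {F : MvPolynomial τ K} {d : ℕ}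
    (hF : F.IsHomogeneous d) (z : τ → Polynomial (MvPolynomial σ L)) (hz : ∀ i, HP 1 (z i)) :
    HP d (MvPolynomial.aeval z F) := by
  rw [aeval_def, eval₂_eq']
  refine HP.sum _ _ fun m hm => ?_
  have h1 : HP 0 (algebraMap K (Polynomial (MvPolynomial σ L)) (coeff m F)) := by
    rw [Polynomial.algebraMap_apply]
    exact HP.C' (isHomogeneous_C _ _)
  have h2 : HP (∑ i : τ, m i * 1) (∏ i : τ, z i ^ m i) := HP.prod _ _ _ fun i _ => (hz i).pow (m i)
  have h3 := hF (mem_support_iff.1 hm)
  have h4 : ∑ i : τ, m i * 1 = d := by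
    rw [← h3, Finsupp.weight_apply, Finsupp.sum_fintype _ _ (fun i => by simp)]
    exact Finset.sum_congr rfl fun i _ => by simp
  have h5 := h1.mul h2
  rwa [h4, zero_add] at h5

end hp

section

variable {K : Type u} [Field K] {a c : ℕ}

theorem Van.aeval {F : MvPolynomial (Fin a ⊕ Fin c) K} (h : Van F) {B : Type v} [CommRing B] [Algebra K B]
    (s : Fin a → B) : MvPolynomial.aeval (Sum.elim s (fun _ => 0)) F = 0 := by
  have h1 : MvPolynomial.aeval (Sum.elim s (fun _ => 0) : Fin a ⊕ Fin c → B) F =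
      (MvPolynomial.aeval s) (MvPolynomial.aeval (Sum.elim (X : Fin a → MvPolynomial (Fin a) K) (fun _ => 0)) F) := by
    rw [← AlgHom.comp_apply, comp_aeval]
    congr 2
    funext l
    rcases l with l | l
    · simp
    · simp
  rw [h1, h, map_zero]

theorem Van.pderiv {F : MvPolynomial (Fin a ⊕ Fin c) K} (h : Van F) (l : Fin a) :
    Van (MvPolynomial.pderiv (Sum.inl l) F) := by
  classical
  have h1 := der_aeval (MvPolynomial.pderiv l : Derivation K (MvPolynomial (Fin a) K) (MvPolynomial (Fin a) K))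
    (Sum.elim (X : Fin a → MvPolynomial (Fin a) K) (fun _ => 0)) F
  rw [h, map_zero, Fintype.sum_sum_type, Finset.sum_eq_single l] at h1
  · simp only [Sum.elim_inl, Sum.elim_inr, map_zero, mul_zero, Finset.sum_const_zero, add_zero, pderiv_X_self,
      mul_one] at h1
    exact h1.symm
  · intro b _ hb
    simp only [Sum.elim_inl]
    rw [pderiv_X_of_ne hb, mul_zero]
  · intro h'
    exact absurd (Finset.mem_univ _) h'

theorem Van.const {F : MvPolynomial (Fin a ⊕ Fin c) K} (h : Van F) (h0 : F.IsHomogeneous 0) : F = 0 := by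
  have h1 := totalDegree_eq_zero_iff_eq_C.1 (Nat.le_zero.1 h0.totalDegree_le)
  rw [h1] at h ⊢
  rw [Van, aeval_C, MvPolynomial.algebraMap_eq] at h
  rw [C_injective _ _ (h.trans (map_zero _).symm), map_zero]

/-- forms of degree one -/
theorem Van.lin1 {F : MvPolynomial (Fin a ⊕ Fin c) K} (h : Van F) (h0 : F.IsHomogeneous 1) :
    ∃ b : Fin c → K, F = ∑ l, C (b l) * X (Sum.inr l) := by
  have h1 := h0.sum_X_mul_pderiv
  rw [one_smul, Fintype.sum_sum_type] at h1
  have h2 : ∀ l : Fin a, MvPolynomial.pderiv (Sum.inl l) F = 0 := fun l =>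
    (h.pderiv l).const (h0.pderiv)
  have h3 : ∀ l : Fin c, ∃ b : K, MvPolynomial.pderiv (Sum.inr l) F = C b := by
    intro l
    have h4 : (MvPolynomial.pderiv (Sum.inr l) F).IsHomogeneous 0 := h0.pderiv
    exact ⟨_, totalDegree_eq_zero_iff_eq_C.1 (Nat.le_zero.1 h4.totalDegree_le)⟩
  choose b hb using h3
  refine ⟨b, ?_⟩
  conv_lhs => rw [← h1]
  simp only [h2, mul_zero, Finset.sum_const_zero, zero_add, hb]
  exact Finset.sum_congr rfl fun l _ => mul_comm _ _

variable {K₁ : Type u} [Field K₁] [Algebra K K₁]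

/-- the coefficients of `F` along the pencil -/
noncomputable def raw (q : Fin a → K₁) (F : MvPolynomial (Fin (a + 1) ⊕ Fin c) K) (e : ℕ) :
    MvPolynomial (Fin a ⊕ Fin c) K₁ :=
  (Pl F (fun l => (C (q l) : MvPolynomial (Fin a ⊕ Fin c) K₁)) (fun l => X (Sum.inl l))
    (fun l => X (Sum.inr l))).coeff e

theorem aeval_raw (q : Fin a → K₁) (F : MvPolynomial (Fin (a + 1) ⊕ Fin c) K) (e : ℕ) {B : Type v} [CommRing B]
    [Algebra K₁ B] [Algebra K B] [IsScalarTower K K₁ B] (x : Fin a → B) (y : Fin c → B) :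
    aeval (Sum.elim x y) (raw q F e) = (Pl F (fun l => algebraMap K₁ B (q l)) x y).coeff e := by
  have h1 := Pl_map ((MvPolynomial.aeval (R := K₁) (Sum.elim x y) : MvPolynomial (Fin a ⊕ Fin c) K₁ →ₐ[K₁] B) :
    MvPolynomial (Fin a ⊕ Fin c) K₁ →+* B) (fun r => by
      rw [MvPolynomial.algebraMap_apply]
      change MvPolynomial.aeval (Sum.elim x y) (C (algebraMap K K₁ r)) = _
      rw [aeval_C, ← IsScalarTower.algebraMap_apply K K₁ B]) F (fun l => C (q l)) (fun l => X (Sum.inl l))
      (fun l => X (Sum.inr l))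
  have h2 := congrArg (fun p => Polynomial.coeff p e) h1
  simp only [Polynomial.coeff_map] at h2
  rw [raw]
  refine h2.trans ?_
  congr 2
  · funext l
    exact aeval_C _ _
  · funext l
    exact (aeval_X _ _).trans rfl
  · funext l
    exact (aeval_X _ _).trans rfl

theorem raw_HP (q : Fin a → K₁) {F : MvPolynomial (Fin (a + 1) ⊕ Fin c) K} {d : ℕ} (hF : F.IsHomogeneous d) :
    HP d (Pl F (fun l => (C (q l) : MvPolynomial (Fin a ⊕ Fin c) K₁)) (fun l => X (Sum.inl l))
      (fun l => X (Sum.inr l))) := by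
  refine HP.aeval hF _ fun l => ?_
  rcases l with l | l
  · refine Fin.cases ?_ (fun l => ?_) l
    · simp only [pt, Sum.elim_inl, Fin.cons_zero]
      exact HP.X'
    · simp only [pt, Sum.elim_inl, Fin.cons_succ]
      have h1 := (HP.X' (σ := Fin a ⊕ Fin c) (L := K₁)).mul (HP.C' (isHomogeneous_C (Fin a ⊕ Fin c) (q l)))
      exact h1.add (HP.C' (isHomogeneous_X _ _))
  · simp only [pt, Sum.elim_inr]
    exact HP.C' (isHomogeneous_X _ _)

theorem raw_hom (q : Fin a → K₁) {F : MvPolynomial (Fin (a + 1) ⊕ Fin c) K} {d : ℕ} (hF : F.IsHomogeneous d)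
    {e : ℕ} (he : e ≤ d) : (raw q F e).IsHomogeneous (d - e) := (raw_HP q hF e).1 he

theorem raw_van (q : Fin a → K₁) {F : MvPolynomial (Fin (a + 1) ⊕ Fin c) K} (hF : Van F) (e : ℕ) :
    Van (raw q F e) := by
  rw [Van, aeval_raw]
  have h1 : Pl F (fun l => algebraMap K₁ (MvPolynomial (Fin a) K₁) (q l)) X (fun _ : Fin c => 0) = 0 := by
    rw [Pl]
    have h2 : pt (fun l => algebraMap K₁ (MvPolynomial (Fin a) K₁) (q l)) X (fun _ : Fin c => 0) =
        Sum.elim (Fin.cons Polynomial.X fun l => Polynomial.X *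
          Polynomial.C (algebraMap K₁ (MvPolynomial (Fin a) K₁) (q l)) + Polynomial.C (X l)) (fun _ => 0) := by
      rw [pt]
      congr 1
      funext l
      exact Polynomial.C_0
    rw [h2]
    exact hF.aeval _
  rw [h1, Polynomial.coeff_zero]

/-- the coefficients of high powers vanish -/
theorem raw_zero (q : Fin a → K₁) {F : MvPolynomial (Fin (a + 1) ⊕ Fin c) K} {d : ℕ} (hF : F.IsHomogeneous d)
    (hV : Van F) {e : ℕ} (he : d ≤ e) : raw q F e = 0 := by
  rcases Nat.eq_or_lt_of_le he with rfl | h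
  · have h1 := raw_hom q hF (le_refl d)
    rw [Nat.sub_self] at h1
    exact (raw_van q hV d).const h1
  · exact (raw_HP q hF e).2 h

/-- an algebra derivation over the smaller field -/
theorem raw_pderiv (q : Fin a → K₁) (F : MvPolynomial (Fin (a + 1) ⊕ Fin c) K) (e : ℕ) :
    (∀ l, pderiv (Sum.inl l) (raw q F e) = raw q (pderiv (Sum.inl (Fin.succ l)) F) e) ∧
      ∀ l, pderiv (Sum.inr l) (raw q F e) = raw q (pderiv (Sum.inr l) F) e := by
  classical
  have key : ∀ i : Fin a ⊕ Fin c, pderiv i (raw q F e) =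
      (Sd F (fun l => (C (q l) : MvPolynomial (Fin a ⊕ Fin c) K₁)) (fun l => X (Sum.inl l))
        (fun l => X (Sum.inr l)) (fun l => if Sum.inl l = i then 1 else 0)
        (fun l => if Sum.inr l = i then 1 else 0)).coeff e := by
    intro i
    have h1 := mapC_Pl ((pderiv i : Derivation K₁ (MvPolynomial (Fin a ⊕ Fin c) K₁)
      (MvPolynomial (Fin a ⊕ Fin c) K₁)).restrictScalars K) F
      (fun l => (C (q l) : MvPolynomial (Fin a ⊕ Fin c) K₁)) (fun l => X (Sum.inl l)) (fun l => X (Sum.inr l))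
    have h2 := congrArg (fun p => Polynomial.coeff p e) h1
    simp only [mapC_coeff] at h2
    have h3 : (fun l : Fin a => ((pderiv i : Derivation K₁ (MvPolynomial (Fin a ⊕ Fin c) K₁)
      (MvPolynomial (Fin a ⊕ Fin c) K₁)).restrictScalars K) (C (q l) : MvPolynomial (Fin a ⊕ Fin c) K₁)) = 0 := by
      funext l
      exact pderiv_C
    have h4 : ∀ j : Fin a ⊕ Fin c, ((pderiv i : Derivation K₁ (MvPolynomial (Fin a ⊕ Fin c) K₁)
      (MvPolynomial (Fin a ⊕ Fin c) K₁)).restrictScalars K) (X j) = if j = i then 1 else 0 := by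
      intro j
      change pderiv i (X j) = _
      rw [pderiv_X, Pi.single_apply]
    simp only [h3, h4] at h2
    have h5 : Sd F (fun l => (C (q l) : MvPolynomial (Fin a ⊕ Fin c) K₁)) (fun l => X (Sum.inl l))
        (fun l => X (Sum.inr l)) (0 : Fin a → MvPolynomial (Fin a ⊕ Fin c) K₁) 0 = 0 := by
      simp [Sd]
    rw [h5, mul_zero, zero_add] at h2
    exact h2
  constructor
  · intro l
    rw [key, raw, Sd]
    congr 1
    rw [Finset.sum_eq_single l]
    · simp
    · intro b _ hb
      simp [hb]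
    · intro h
      exact absurd (Finset.mem_univ _) h
  · intro l
    rw [key, raw, Sd]
    congr 1
    rw [Finset.sum_eq_single (a := l)
      (f := fun x => Polynomial.C (if (Sum.inr x : Fin a ⊕ Fin c) = Sum.inr l then 1 else 0) * _)]
    · simp
    · intro b _ hb
      simp [hb]
    · intro h
      exact absurd (Finset.mem_univ _) h

end

end Pool.Agent.Helper4.HY
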