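import Pool.Agent.Helper4.HY.Core
import Pool.Graph.R_seed8.R867.Mov.Base
import Pool.Graph.R_seed8.H135R2.VS.Der

/-!
# The induction
-/

set_option autoImplicit false

namespace Pool.Agent.Helper4.HY

open MvPolynomial

universe u v w

/-- the statement of the induction -/
def Ex (a : ℕ) (ι : Type) (d : ι → ℕ) : Prop :=
  ∀ (K : Type u) [Field K] [CharZero K] (c : ℕ) (F : ι → MvPolynomial (Fin a ⊕ Fin c) K),
    (∀ i, 2 ≤ d i) → (∀ i, (F i).IsHomogeneous (d i)) → (∀ i, Van (F i)) → Free d F →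
    ∃ (Ω : Type u) (_ : Field Ω) (_ : Algebra K Ω), PT K Ω ∧ ∃ R : Fin a ⊕ Fin c → Ω, Good F R

section

variable {K : Type u} [Field K] {a c : ℕ} {K₁ : Type u} [Field K₁] [Algebra K K₁] 

theorem aeval_lin (b : Fin c → K₁) {B : Type v} [CommRing B] [Algebra K₁ B] (x : Fin a → B) (y : Fin c → B) :
    aeval (Sum.elim x y) (∑ l, C (b l) * X (Sum.inr l) : MvPolynomial (Fin a ⊕ Fin c) K₁) =
      ∑ l, algebraMap K₁ B (b l) * y l := by
  rw [map_sum]
  refine Finset.sum_congr rfl fun l _ => ?_
  rw [map_mul, aeval_C, aeval_X, Sum.elim_inr]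

theorem pderiv_lin (b : Fin c → K₁) (l : Fin a) :
    pderiv (Sum.inl l) (∑ l, C (b l) * X (Sum.inr l) : MvPolynomial (Fin a ⊕ Fin c) K₁) = 0 := by
  rw [map_sum]
  refine Finset.sum_eq_zero fun m _ => ?_
  rw [pderiv_C_mul, pderiv_X_of_ne (by simp), mul_zero]

theorem pderiv_lin' (b : Fin c → K₁) (l : Fin c) :
    pderiv (Sum.inr l) (∑ l, C (b l) * X (Sum.inr l) : MvPolynomial (Fin a ⊕ Fin c) K₁) = C (b l) := by
  rw [map_sum, Finset.sum_eq_single l]
  · rw [pderiv_C_mul, pderiv_X_self, mul_one]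
  · intro m _ hm
    rw [pderiv_C_mul, pderiv_X_of_ne (by simpa using hm), mul_zero]
  · intro h
    exact absurd (Finset.mem_univ _) h

theorem lin_lin (b : Fin c → K₁) {M : Type v} [CommRing M] [Algebra K₁ M] (η : Fin c → M) :
    lin (∑ l, C (b l) * X (Sum.inr l) : MvPolynomial (Fin a ⊕ Fin c) K₁) η =
      C (∑ l, algebraMap K₁ M (b l) * η l) := by
  rw [lin, map_sum]
  refine Finset.sum_congr rfl fun l _ => ?_
  rw [pderiv_lin', aeval_C, map_mul, mul_comm]
  rfl

theorem dd_lin (b : Fin c → K₁) {B : Type v} [CommRing B] [Algebra K₁ B] (R : Fin a ⊕ Fin c → B)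
    (δ : Fin a ⊕ Fin c → B) :
    dd (∑ l, C (b l) * X (Sum.inr l) : MvPolynomial (Fin a ⊕ Fin c) K₁) R δ =
      ∑ l, algebraMap K₁ B (b l) * δ (Sum.inr l) := by
  rw [dd, Fintype.sum_sum_type]
  simp only [pderiv_lin, pderiv_lin', map_zero, mul_zero, Finset.sum_const_zero, zero_add, aeval_C]
  exact Finset.sum_congr rfl fun l _ => mul_comm _ _

/-- all the coefficients are free together -/
theorem free_all {ι : Type} {d : ι → ℕ} {F : ι → MvPolynomial (Fin (a + 1) ⊕ Fin c) K} (hfree : Free d F)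
    (hd : ∀ i, 2 ≤ d i) (q : Fin a → K₁) {lm : ι → Fin c → K₁}
    (hlm : ∀ i, raw q (F i) (d i - 1) = ∑ l, C (lm i l) * X (Sum.inr l)) (M : Type u) [Field M] [Algebra K₁ M]
    (Ψ : ι → ℕ → MvPolynomial (Fin a) M) (hΨ : ∀ i e, e < d i - 1 → (Ψ i e).IsHomogeneous (d i - 1 - e))
    (μ : ι → M) :
    ∃ η : Fin c → M, (∀ i e, e < d i - 1 → lin (raw q (F i) e) η = Ψ i e) ∧
      ∀ i, ∑ m, algebraMap K₁ M (lm i m) * η m = μ i := by
  obtain ⟨η, hη⟩ := free_raw hfree (fun i => by have := hd i; omega) q M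
    (fun i e => if e < d i - 1 then Ψ i e else C (μ i)) (by
      intro i e he
      split_ifs with h
      · exact hΨ i e h
      · have h1 : d i - 1 - e = 0 := by omega
        rw [h1]
        exact isHomogeneous_C _ _)
  refine ⟨η, fun i e he => ?_, fun i => ?_⟩
  · rw [hη i e (by omega), if_pos he]
  · have h1 := hη i (d i - 1) (by have := hd i; omega)
    rw [if_neg (lt_irrefl _), hlm, lin_lin] at h1
    exact C_injective _ _ h1

/-- freeness of a part of the coefficients, after the projection -/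
theorem free_part {ι : Type} {d : ι → ℕ} {F : ι → MvPolynomial (Fin (a + 1) ⊕ Fin c) K} (hfree : Free d F)
    (hd : ∀ i, 2 ≤ d i) (q : Fin a → K₁) {lm : ι → Fin c → K₁}
    (hlm : ∀ i, raw q (F i) (d i - 1) = ∑ l, C (lm i l) * X (Sum.inr l)) {J : Type} [Fintype J] (jj : J → ι)
    (et : J → Fin c → K₁) {κ : Type} (idx : κ → ι) (ex : κ → ℕ) (hinj : ∀ k k', idx k = idx k' → ex k = ex k' → k = k')
    (hex : ∀ k, ex k < d (idx k) - 1) :
    Free (fun k => d (idx k) - ex k) (fun k => hat (fun j => lm (jj j)) et (raw q (F (idx k)) (ex k))) := by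
  classical
  refine hat_free fun M _ _ Ψ hΨ => ?_
  obtain ⟨η, h1, h2⟩ := free_all hfree hd q hlm M
    (fun i e => if h : ∃ k, idx k = i ∧ ex k = e then Ψ h.choose else 0) (by
      intro i e he
      split_ifs with h
      · have h3 := hΨ h.choose
        obtain ⟨h4, h5⟩ := h.choose_spec
        rw [h4, h5] at h3
        have h6 : d i - e - 1 = d i - 1 - e := by omega
        rwa [h6] at h3
      · exact isHomogeneous_zero _ _ _) (fun _ => 0)
  refine ⟨η, fun k => ?_, fun j => ?_⟩
  · rw [h1 _ _ (hex k)]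
    have h : ∃ k', idx k' = idx k ∧ ex k' = ex k := ⟨k, rfl, rfl⟩
    rw [dif_pos h]
    congr 1
    exact hinj _ _ h.choose_spec.1 h.choose_spec.2
  · exact h2 _

end

/-- The induction step. -/
theorem step (hEE : SEE.{u}) {a : ℕ} {ι : Type} [Fintype ι] [DecidableEq ι] {d : ι → ℕ} {i₀ : ι}
    (h : d i₀ = 2 ∨ Fintype.card (Σ i, Fin (nn d i₀ i)) + 1 ≤ a)
    (ih : Ex.{u} a (Σ i, Fin (nn d i₀ i)) (fun p => d p.1 - (p.2 + ee i₀ p.1))) : Ex.{u} (a + 1) ι d := by
  intro K _ _ c F hd hF hV hfree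
  let K₁ : Type u := FractionRing (MvPolynomial (Fin a) K)
  have hcK₁ : CharZero K₁ := charZero_of_injective_algebraMap (algebraMap K K₁).injective
  obtain ⟨q, hq⟩ : ∃ q : Fin a → K₁, q = fun l => algebraMap (MvPolynomial (Fin a) K) K₁ (X l) := ⟨_, rfl⟩
  have htop : ∀ i, ∃ b : Fin c → K₁, raw q (F i) (d i - 1) = ∑ l, C (b l) * X (Sum.inr l) := by
    intro i
    refine (raw_van q (hV i) _).lin1 ?_
    have h1 := raw_hom q (hF i) (show d i - 1 ≤ d i by omega)
    have h2 : d i - (d i - 1) = 1 := by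
      have := hd i
      omega
    rwa [h2] at h1
  choose lm hlm using htop
  let J : Type := {i : ι // i ≠ i₀ ∨ 3 ≤ d i}
  let _ : Fintype J := Fintype.ofFinite J
  let _ : DecidableEq J := inferInstanceAs (DecidableEq {i : ι // i ≠ i₀ ∨ 3 ≤ d i})
  let jj : J → ι := fun j => j.1
  let lam : J → Fin c → K₁ := fun j => lm (jj j)
  have hdual : ∀ j : J, ∃ η : Fin c → K₁, ∀ i : J, ∑ m, lam i m * η m = if i = j then 1 else 0 := by
    intro j
    obtain ⟨η, _, h2⟩ := free_all hfree hd q hlm K₁ (fun _ _ => 0) (fun _ _ _ => isHomogeneous_zero _ _ _)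
      (fun i => if i = jj j then 1 else 0)
    refine ⟨η, fun i => ?_⟩
    have h3 := h2 (jj i)
    by_cases hij : i = j
    · rw [if_pos (congrArg jj hij)] at h3
      rw [if_pos hij]
      exact h3
    · rw [if_neg (fun h4 => hij (Subtype.ext h4))] at h3
      rw [if_neg hij]
      exact h3
  choose et' het' using hdual
  obtain ⟨et, het⟩ : ∃ et : J → Fin c → K₁, ∀ i j, ∑ m, lam i m * et j m = if i = j then 1 else 0 :=
    ⟨et', fun i j => het' j i⟩
  -- the induction hypothesis
  obtain ⟨Ω, _, _, hPT, R, hR⟩ := ih K₁ c (fun p => hat lam et (raw q (F p.1) (p.2 + ee i₀ p.1))) (by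
      rintro ⟨i, e, he⟩
      have := hd i
      change 2 ≤ d i - (e + ee i₀ i)
      rw [nn] at he
      rw [ee]
      split_ifs at he ⊢ <;> omega) (by
      rintro ⟨i, e, he⟩
      refine hat_hom (raw_hom q (hF i) ?_)
      have := hd i
      change e + ee i₀ i ≤ d i
      rw [nn] at he
      rw [ee]
      split_ifs at he ⊢ <;> omega) (fun p => hat_van (raw_van q (hV _) _))
      (free_part hfree hd q hlm jj et (fun p : Σ i, Fin (nn d i₀ i) => p.1) (fun p => p.2 + ee i₀ p.1) (by
        rintro ⟨i, e⟩ ⟨i', e'⟩ h1 h2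
        change i = i' at h1
        subst h1
        change (e : ℕ) + ee i₀ i = e' + ee i₀ i at h2
        have h3 : e = e' := Fin.ext (by omega)
        rw [h3]) (by
        rintro ⟨i, e, he⟩
        have := hd i
        change e + ee i₀ i < d i - 1
        rw [nn] at he
        rw [ee]
        split_ifs at he ⊢ <;> omega))
  let _ : Algebra K Ω := ((algebraMap K₁ Ω).comp (algebraMap K K₁)).toAlgebra
  have _ : IsScalarTower K K₁ Ω := IsScalarTower.of_algebraMap_eq fun r => rfl
  have hPT' : PT K Ω := by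
    have h1 : Pool.Agent.R867.Mov.PT K K₁ := Pool.Agent.R867.Mov.PT_rt K a
    have h2 : Pool.Agent.R867.Mov.PT K₁ Ω := hPT
    exact h1.trans h2
  refine ⟨Ω, inferInstance, inferInstance, hPT', ?_⟩
  obtain ⟨x, hx⟩ : ∃ x : Fin a → Ω, x = fun l => R (Sum.inl l) := ⟨_, rfl⟩
  obtain ⟨yh, hyh⟩ : ∃ yh : Fin c → Ω, yh = fun l => R (Sum.inr l) := ⟨_, rfl⟩
  obtain ⟨y, hy⟩ : ∃ y : Fin c → Ω, y = prj lam et yh := ⟨_, rfl⟩
  have hRxy : R = Sum.elim x yh := by
    funext l
    rcases l with l | l
    · rw [hx, Sum.elim_inl]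
    · rw [hyh, Sum.elim_inr]
  have hA : ∀ G : MvPolynomial (Fin a ⊕ Fin c) K₁, aeval R (hat lam et G) = aeval (Sum.elim x y) G := by
    intro G
    rw [hRxy, aeval_hat, hy]
  have hB : ∀ j : J, lv lam y j = 0 := by
    intro j
    rw [hy]
    exact lv_prj het yh j
  have hlmv : ∀ i, aeval (Sum.elim x y) (raw q (F i) (d i - 1)) = ∑ m, algebraMap K₁ Ω (lm i m) * y m := by
    intro i
    rw [hlm, aeval_lin]
  have hBv : ∀ i, (i ≠ i₀ ∨ 3 ≤ d i) → aeval (Sum.elim x y) (raw q (F i) (d i - 1)) = 0 := by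
    intro i hi
    rw [hlmv]
    exact hB ⟨i, hi⟩
  have hee : ∀ i, i ≠ i₀ → ee i₀ i = 0 := fun i hi => by rw [ee, if_neg hi]
  have hee0 : ee i₀ i₀ = 2 := by rw [ee, if_pos rfl]
  have hnn : ∀ i, i ≠ i₀ → nn d i₀ i = d i - 1 := fun i hi => by rw [nn, if_neg hi]
  have hnn0 : nn d i₀ i₀ = d i₀ - 3 := by rw [nn, if_pos rfl]
  -- a property of the forms in the induction
  have hall : ∀ (P : ι → ℕ → Prop), (∀ p : Σ i, Fin (nn d i₀ i), P p.1 (p.2 + ee i₀ p.1)) →
      (∀ i, (i ≠ i₀ ∨ 3 ≤ d i) → P i (d i - 1)) → (∀ i e, d i ≤ e → P i e) →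
      (∀ i, i ≠ i₀ → ∀ e, P i e) ∧ ∀ e, 2 ≤ e → P i₀ e := by
    intro P hP1 hP2 hP3
    refine ⟨fun i hi e => ?_, fun e he => ?_⟩
    · by_cases h1 : d i ≤ e
      · exact hP3 i e h1
      · by_cases h2 : e = d i - 1
        · rw [h2]
          exact hP2 i (Or.inl hi)
        · have h3 := hP1 ⟨i, ⟨e, by rw [hnn i hi]; omega⟩⟩
          change P i (e + ee i₀ i) at h3
          rw [hee i hi, add_zero] at h3
          exact h3
    · by_cases h1 : d i₀ ≤ e
      · exact hP3 i₀ e h1
      · by_cases h2 : e = d i₀ - 1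
        · rw [h2]
          exact hP2 i₀ (Or.inr (by omega))
        · have h3 := hP1 ⟨i₀, ⟨e - 2, by rw [hnn0]; omega⟩⟩
          change P i₀ (e - 2 + ee i₀ i₀) at h3
          rw [hee0] at h3
          have h4 : e - 2 + 2 = e := by omega
          rwa [h4] at h3
  have h1 : ∀ i e, d i ≤ e → raw q (F i) e = 0 := fun i e he => raw_zero q (hF i) (hV i) he
  have h2 : ∀ i l, pderiv (Sum.inl l) (raw q (F i) (d i - 1)) = 0 := by
    intro i l
    rw [hlm, pderiv_lin]
  obtain ⟨z1, z2⟩ := hall (fun i e => aeval (Sum.elim x y) (raw q (F i) e) = 0) (fun p => by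
    rw [← hA]
    exact hR.zero p) hBv (fun i e he => by rw [h1 i e he, map_zero])
  have hdd : ∀ (G : MvPolynomial (Fin a ⊕ Fin c) K₁) (δ : Fin a ⊕ Fin c → Ω), (∀ j, lv lam (fun l => δ (Sum.inr l)) j = 0) →
      dd (hat lam et G) R δ = dd G (Sum.elim x y) δ := by
    intro G δ hδ
    have h3 : δ = Sum.elim (fun l => δ (Sum.inl l)) (fun l => δ (Sum.inr l)) := by
      funext l
      rcases l with l | l
      · rfl
      · rfl
    rw [hRxy]
    conv_lhs => rw [h3]
    rw [dd_hat, prj_id hδ, ← hy, ← h3]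
  have hDy : ∀ (D : Derivation K₁ Ω Ω) (δ : Fin a ⊕ Fin c → Ω), (∀ j, lv lam (fun l => δ (Sum.inr l)) j = 0) →
      (∀ l, D (R l) = δ l) → (∀ l, D (x l) = δ (Sum.inl l)) ∧ ∀ l, D (y l) = δ (Sum.inr l) := by
    intro D δ hδ hD
    refine ⟨fun l => ?_, fun l => ?_⟩
    · rw [hx]
      exact hD _
    · rw [hy, prj_der]
      have h3 : (fun l => D (yh l)) = fun l => δ (Sum.inr l) := by
        funext l
        rw [hyh]
        exact hD _
      rw [h3, prj_id hδ]
  have hlv0 : ∀ j, lv lam (fun _ => 0 : Fin c → Ω) j = 0 := fun j => by simp [lv]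
  have ind : LinearIndependent Ω fun (p : Σ i, Fin (nn d i₀ i)) (l : Fin a) =>
      aeval (Sum.elim x y) (pderiv (Sum.inl l) (raw q (F p.1) (p.2 + ee i₀ p.1))) := by
    have h3 := hR.ind
    have h4 : (fun (p : Σ i, Fin (nn d i₀ i)) (l : Fin a) =>
        aeval (Sum.elim x y) (pderiv (Sum.inl l) (raw q (F p.1) (p.2 + ee i₀ p.1)))) =
        fun (p : Σ i, Fin (nn d i₀ i)) (l : Fin a) =>
        aeval R (pderiv (Sum.inl l) (hat lam et (raw q (F p.1) (p.2 + ee i₀ p.1)))) := by
      funext p l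
      rw [hRxy, pderiv_hat, hy]
    rw [h4]
    exact h3
  -- the two cases
  obtain ⟨f1, sol⟩ : aeval (Sum.elim x y) (raw q (F i₀) 1) ≠ 0 ∧ ∀ t : ι → ℕ → Ω, ∃ p : Fin a → Ω,
      (∀ i, i ≠ i₀ → ∀ e, e ≤ d i - 2 →
        dd (raw q (F i) e) (Sum.elim x y) (Sum.elim p (fun _ => 0)) = t i e) ∧
      ∀ e, 1 ≤ e → e ≤ d i₀ - 2 → dd (raw q (F i₀) e) (Sum.elim x y) (Sum.elim p (fun _ => 0)) = t i₀ e := by
    rcases Nat.eq_or_lt_of_le (hd i₀) with h3 | h3
    · -- degree two
      refine ⟨?_, ?_⟩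
      · obtain ⟨η, _, hη⟩ := free_all hfree hd q hlm K₁ (fun _ _ => 0) (fun _ _ _ => isHomogeneous_zero _ _ _)
          (fun i => if i = i₀ then 1 else 0)
        obtain ⟨η', hη'⟩ : ∃ η' : Fin c → Ω, η' = fun l => algebraMap K₁ Ω (η l) := ⟨_, rfl⟩
        have hηv : ∀ i, ∑ m, algebraMap K₁ Ω (lm i m) * η' m = if i = i₀ then 1 else 0 := by
          intro i
          have h4 := congrArg (algebraMap K₁ Ω) (hη i)
          simp only [Algebra.algebraMap_self, RingHom.id_apply, map_sum, map_mul] at h4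
          rw [hη', h4]
          split_ifs
          · exact map_one _
          · exact map_zero _
        have hlvη : ∀ j, lv lam η' j = 0 := by
          intro j
          have h4 := hηv (jj j)
          rw [if_neg] at h4
          · exact h4
          · intro h5
            rcases j.2 with h6 | h6
            · exact h6 h5
            · have h7 : j.1 = i₀ := h5
              rw [h7] at h6
              omega
        obtain ⟨w, hw⟩ := solve_dual ind (fun p => - dd (raw q (F p.1) (p.2 + ee i₀ p.1)) (Sum.elim x y)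
          (Sum.elim (fun _ => 0) η'))
        obtain ⟨D, hD⟩ := hR.der (Sum.elim w η') (fun p => by
          rw [hdd _ _ (by intro j; exact hlvη j)]
          have h4 : dd (raw q (F p.1) (p.2 + ee i₀ p.1)) (Sum.elim x y) (Sum.elim w η') =
              dd (raw q (F p.1) (p.2 + ee i₀ p.1)) (Sum.elim x y) (Sum.elim w (fun _ => 0)) +
              dd (raw q (F p.1) (p.2 + ee i₀ p.1)) (Sum.elim x y) (Sum.elim (fun _ => 0) η') := by
            rw [← dd_add]
            congr 1
            funext l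
            rcases l with l | l
            · simp
            · simp
          rw [h4, dd_inl, hw p, neg_add_cancel])
        obtain ⟨_, hDy'⟩ := hDy D _ (by intro j; exact hlvη j) hD
        have h5 := hlmv i₀
        have h6 : d i₀ - 1 = 1 := by omega
        rw [h6] at h5
        rw [h5]
        intro h7
        have h8 := congrArg D h7
        rw [map_sum, map_zero] at h8
        have h9 : ∑ m, D (algebraMap K₁ Ω (lm i₀ m) * y m) = ∑ m, algebraMap K₁ Ω (lm i₀ m) * η' m := by
          refine Finset.sum_congr rfl fun m _ => ?_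
          rw [D.leibniz, D.map_algebraMap, smul_zero, add_zero, hDy', smul_eq_mul, Sum.elim_inr]
        rw [h9, hηv, if_pos rfl] at h8
        exact one_ne_zero h8
      · intro t
        obtain ⟨p, hp⟩ := solve_dual ind (fun p => t p.1 (p.2 + ee i₀ p.1))
        refine ⟨p, fun i hi e he => ?_, fun e he1 he2 => by omega⟩
        have h4 := hp ⟨i, ⟨e, by rw [hnn i hi]; have := hd i; omega⟩⟩
        simp only [hee i hi, add_zero] at h4
        rw [dd_inl]
        exact h4
    · -- higher degrees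
      have hcard := h.resolve_left (by omega)
      obtain ⟨idx, hidx⟩ : ∃ idx : Option (Σ i, Fin (nn d i₀ i)) → ι, idx = fun o => o.elim i₀ (fun p => p.1) :=
        ⟨_, rfl⟩
      obtain ⟨ex, hex⟩ : ∃ ex : Option (Σ i, Fin (nn d i₀ i)) → ℕ, ex = fun o => o.elim 1 (fun p => p.2 + ee i₀ p.1) :=
        ⟨_, rfl⟩
      have hexd : ∀ o, ex o < d (idx o) - 1 := by
        intro o
        rw [hidx, hex]
        rcases o with _ | ⟨i, e, he⟩
        · change 1 < d i₀ - 1
          omega
        · have := hd i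
          change e + ee i₀ i < d i - 1
          rw [nn] at he
          rw [ee]
          split_ifs at he ⊢ <;> omega
      have hinj : ∀ k k', idx k = idx k' → ex k = ex k' → k = k' := by
        rw [hidx, hex]
        rintro (_ | ⟨i, e⟩) (_ | ⟨i', e'⟩) h4 h5
        · rfl
        · change i₀ = i' at h4
          subst h4
          change 1 = (e' : ℕ) + ee i₀ i₀ at h5
          rw [hee0] at h5
          omega
        · change i = i₀ at h4
          subst h4
          change (e : ℕ) + ee i i = 1 at h5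
          rw [hee0] at h5
          omega
        · change i = i' at h4
          subst h4
          change (e : ℕ) + ee i₀ i = e' + ee i₀ i at h5
          have h6 : e = e' := Fin.ext (by omega)
          rw [h6]
      have hindE := hEE K₁ a c (Σ i, Fin (nn d i₀ i)) (fun o => d (idx o) - ex o)
        (fun o => hat lam et (raw q (F (idx o)) (ex o))) (fun o => by
          have := hexd o
          omega) (fun o => hat_hom (raw_hom q (hF _) (by have := hexd o; omega)))
        (fun o => hat_van (raw_van q (hV _) _)) (free_part hfree hd q hlm jj et idx ex hinj hexd) hcard Ω R (by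
          rw [hidx, hex]
          exact hR)
      have hindE' : LinearIndependent Ω fun (o : Option (Σ i, Fin (nn d i₀ i))) (l : Fin a) =>
          aeval (Sum.elim x y) (pderiv (Sum.inl l) (raw q (F (idx o)) (ex o))) := by
        have h4 : (fun (o : Option (Σ i, Fin (nn d i₀ i))) (l : Fin a) =>
            aeval (Sum.elim x y) (pderiv (Sum.inl l) (raw q (F (idx o)) (ex o)))) =
            fun (o : Option (Σ i, Fin (nn d i₀ i))) (l : Fin a) =>
            aeval R (pderiv (Sum.inl l) (hat lam et (raw q (F (idx o)) (ex o)))) := by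
          funext p l
          rw [hRxy, pderiv_hat, hy]
        rw [h4]
        exact hindE
      refine ⟨?_, ?_⟩
      · obtain ⟨w, hw⟩ := solve_dual hindE' (fun o => o.elim 1 (fun _ => 0))
        obtain ⟨D, hD⟩ := hR.der (Sum.elim w (fun _ => 0)) (fun p => by
          rw [hdd _ _ hlv0, dd_inl]
          have h4 := hw (some p)
          rw [hidx, hex] at h4
          exact h4)
        have h5 := dd_der D R (hat lam et (raw q (F i₀) 1))
        have h6 : (fun i => D (R i)) = Sum.elim w (fun _ => 0) := funext hD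
        rw [h6, hdd _ _ hlv0, dd_inl, hA] at h5
        have h7 := hw none
        rw [hidx, hex] at h7
        have h8 : ∑ l, w l * aeval (Sum.elim x y) (pderiv (Sum.inl l) (raw q (F i₀) 1)) = 1 := h7
        rw [h8] at h5
        intro h9
        rw [h9, map_zero] at h5
        exact one_ne_zero h5
      · intro t
        obtain ⟨p, hp⟩ := solve_dual hindE' (fun o => t (idx o) (ex o))
        rw [hidx, hex] at hp
        refine ⟨p, fun i hi e he => ?_, fun e he1 he2 => ?_⟩
        · have h4 := hp (some ⟨i, ⟨e, by rw [hnn i hi]; have := hd i; omega⟩⟩)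
          simp only [Option.elim_some, hee i hi, add_zero] at h4
          rw [dd_inl]
          exact h4
        · rw [dd_inl]
          rcases Nat.eq_or_lt_of_le he1 with h4 | h4
          · subst h4
            exact hp none
          · have h5 := hp (some ⟨i₀, ⟨e - 2, by rw [hnn0]; omega⟩⟩)
            have h6 : e - 2 + 2 = e := by omega
            simp only [Option.elim_some, hee0, h6] at h5
            exact h5
  -- derivations with given values on `q`
  have hcΩ : CharZero Ω := charZero_of_injective_algebraMap (algebraMap K Ω).injective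
  have D0 : ∀ p : Fin a → Ω, ∃ D : Derivation K Ω Ω, ∀ l, D (algebraMap K₁ Ω (q l)) = p l := by
    intro p
    have h3 : AlgebraicIndependent K (fun l => algebraMap K₁ Ω (q l)) := by
      rw [hq]
      exact (Pool.Agent.R867.Mov.algInd_X K a).map' (f := IsScalarTower.toAlgHom K K₁ Ω) (algebraMap K₁ Ω).injective
    exact Pool.Agent.H135R2.VS.exists_der h3 p
  have D1 : ∀ δ : Fin a ⊕ Fin c → Ω, (∀ i, i ≠ i₀ → ∀ e, dd (raw q (F i) e) (Sum.elim x y) δ = 0) →
      (∀ e, 2 ≤ e → dd (raw q (F i₀) e) (Sum.elim x y) δ = 0) →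
      ∃ D : Derivation K₁ Ω Ω, (∀ l, D (x l) = δ (Sum.inl l)) ∧ ∀ l, D (y l) = δ (Sum.inr l) := by
    intro δ hδ1 hδ2
    have hδ : ∀ j, lv lam (fun l => δ (Sum.inr l)) j = 0 := by
      intro j
      have h3 : dd (raw q (F j.1) (d j.1 - 1)) (Sum.elim x y) δ = 0 := by
        by_cases hj : j.1 = i₀
        · rcases j.2 with h4 | h4
          · exact absurd hj h4
          · rw [hj] at h4 ⊢
            exact hδ2 _ (by omega)
        · exact hδ1 _ hj _
      rw [hlm, dd_lin] at h3
      exact h3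
    obtain ⟨D, hD⟩ := hR.der δ (fun p => by
      rw [hdd _ _ hδ]
      obtain ⟨i, e, he⟩ := p
      change dd (raw q (F i) (e + ee i₀ i)) (Sum.elim x y) δ = 0
      by_cases hp : i = i₀
      · rw [hp, hee0]
        exact hδ2 _ (by omega)
      · exact hδ1 _ hp _)
    exact ⟨D, hDy D δ hδ hD⟩
  exact core hd h1 h2 z1 z2 f1 sol D0 D1 ind

/-- The generic point of a good component of the scheme of forms of admissible type. -/
theorem ex_of_adm (hEE : SEE.{u}) {a : ℕ} {ι : Type} {d : ι → ℕ} (h : Adm a ι d) : Ex.{u} a ι d := by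
  induction h with
  | nil a ι d h =>
    intro K _ _ c F _ _ _ _
    let Ω : Type u := FractionRing (MvPolynomial (Fin (a + c)) K)
    have hX := Pool.Agent.R867.Mov.algInd_X K (a + c)
    have hPT : PT K Ω := Pool.Agent.R867.Mov.PT_rt K (a + c)
    have hc : CharZero Ω := charZero_of_injective_algebraMap (algebraMap K Ω).injective
    refine ⟨Ω, inferInstance, inferInstance, hPT,
      fun l => algebraMap (MvPolynomial (Fin (a + c)) K) Ω (X (finSumFinEquiv l)), ⟨?_, ?_, ?_⟩⟩
    · intro i
      exact h.elim i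
    · intro ω _
      obtain ⟨D, hD⟩ := Pool.Agent.H135R2.VS.exists_der hX (fun l => ω (finSumFinEquiv.symm l))
      refine ⟨D, fun l => ?_⟩
      rw [hD, Equiv.symm_apply_apply]
    · exact linearIndependent_empty_type
  | step a ι d i₀ h _ ih => exact step hEE h ih

end Pool.Agent.Helper4.HY
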