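import Pool.Agent.Helper4.HY.Step
import Pool.Agent.Helper4.HY.Defs2
import Pool.Agent.Helper4.QH.Null
import Pool.Agent.Helper4.QH.TD

/-!
# Unirationality of smooth hypersurfaces which contain a free linear space
-/

set_option autoImplicit false

namespace Pool.Agent.Helper4.HY

open MvPolynomial Pool.Agent.Helper4.QH

universe u v w

section

variable {k : Type u} [Field k] {N d : ℕ}

/-- forms which are nonsingular along a linear space are irreducible -/
theorem irred [IsAlgClosed k] {N' : ℕ} (hN : 3 ≤ N') (hd : 2 ≤ d) {F : MvPolynomial (Fin N) k} (hF : F.IsHomogeneous d)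
    (L : Fin N' → Fin N → k)
    (hs : ∀ z : Fin N' → k, (∀ i, aeval (fun j => ∑ l, z l * L l j) (pderiv i F) = 0) → z = 0) : Irreducible F := by
  have hne : F ≠ 0 := by
    rintro rfl
    have h1 : (Pi.single ⟨0, by omega⟩ 1 : Fin N' → k) = 0 := hs _ fun i => by rw [map_zero, map_zero]
    have h4 := congrFun h1 ⟨0, by omega⟩
    simp at h4
  have hunit : ∀ g : MvPolynomial (Fin N) k, g.IsHomogeneous 0 → g ≠ 0 → IsUnit g := by
    intro g hg hg0
    have h1 := totalDegree_eq_zero_iff_eq_C.1 (Nat.le_zero.1 hg.totalDegree_le)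
    rw [h1]
    refine IsUnit.map C (isUnit_iff_ne_zero.2 ?_)
    intro h2
    apply hg0
    rw [h1, h2, map_zero]
  refine ⟨?_, ?_⟩
  · intro hu
    have h1 := hF.totalDegree hne
    obtain ⟨g, hg⟩ := hu.exists_right_inv
    have hg0 : g ≠ 0 := by
      rintro rfl
      rw [mul_zero] at hg
      exact zero_ne_one hg
    have h2 := congrArg totalDegree hg
    rw [totalDegree_mul_of_isDomain hne hg0, h1, totalDegree_one] at h2
    omega
  · intro A B hAB
    have hA0 : A ≠ 0 := by rintro rfl; exact hne (by rw [hAB, zero_mul])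
    have hB0 : B ≠ 0 := by rintro rfl; exact hne (by rw [hAB, mul_zero])
    obtain ⟨p, hp⟩ := hom_of_dvd hF hne ⟨B, hAB⟩
    obtain ⟨q, hq⟩ := hom_of_dvd hF hne ⟨A, by rw [hAB, mul_comm]⟩
    rcases Nat.eq_zero_or_pos p with rfl | hp0
    · exact Or.inl (hunit A hp hA0)
    rcases Nat.eq_zero_or_pos q with rfl | hq0
    · exact Or.inr (hunit B hq hB0)
    exfalso
    have hz : ∀ (g : MvPolynomial (Fin N) k) (e : ℕ), g.IsHomogeneous e → 0 < e → eval 0 g = 0 := by
      intro g e hg he
      have h1 : constantCoeff g = 0 := by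
        rw [constantCoeff_eq]
        exact hg.coeff_eq_zero (by simp; omega)
      rw [← h1]
      exact congrArg (fun f : MvPolynomial (Fin N) k →+* k => f g) eval_zero
    obtain ⟨θ, hθ⟩ : ∃ θ : MvPolynomial (Fin N) k →ₐ[k] MvPolynomial (Fin N') k,
        θ = aeval (fun j => ∑ l, C (L l j) * X l) := ⟨_, rfl⟩
    have hθx : ∀ (x : Fin N' → k) g, aeval x (θ g) = aeval (fun j => ∑ l, x l * L l j) g := by
      intro x g
      rw [hθ, ← AlgHom.comp_apply, comp_aeval]
      congr 2
      funext j
      rw [map_sum]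
      refine Finset.sum_congr rfl fun l _ => ?_
      rw [map_mul, aeval_C, aeval_X, mul_comm]
      rfl
    have hz' : ∀ (g : MvPolynomial (Fin N) k) (e : ℕ), g.IsHomogeneous e → 0 < e → eval 0 (θ g) = 0 := by
      intro g e hg he
      have h1 := hθx 0 g
      have h2 : (fun j => ∑ l, (0 : Fin N' → k) l * L l j) = 0 := by
        funext j
        simp
      rw [h2] at h1
      have h3 : aeval (0 : Fin N → k) g = 0 := hz g e hg he
      rw [h3] at h1
      exact h1
    obtain ⟨x, hx0, hx⟩ := Pool.Agent.H952R2.Sextic.exists_common_zero (K := k) (ι := Fin N') (κ := Fin 2)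
      (by rw [Fintype.card_fin, Fintype.card_fin]; omega) ![θ A, θ B] (by
        intro j
        fin_cases j
        · exact hz' A p hp hp0
        · exact hz' B q hq hq0)
    apply hx0
    refine hs x fun i => ?_
    have hA : aeval (fun j => ∑ l, x l * L l j) A = 0 := by
      rw [← hθx]
      exact hx 0
    have hB : aeval (fun j => ∑ l, x l * L l j) B = 0 := by
      rw [← hθx]
      exact hx 1
    rw [hAB, Derivation.leibniz, map_add, smul_eq_mul, smul_eq_mul, map_mul, map_mul, hA, hB, zero_mul, zero_mul,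
      add_zero]

/-- A point of an irreducible hypersurface with a large tangent space is generic. -/
theorem generic {Ω : Type v} [Field Ω] [Algebra k Ω] [CharZero Ω] (hN : 3 ≤ N) {F : MvPolynomial (Fin N) k}
    (hF : Irreducible F) (R : Fin N → Ω) (h0 : aeval R F = 0)
    (hder : ∀ w : Fin N → Ω, dd F R w = 0 → ∃ D : Derivation k Ω Ω, ∀ i, D (R i) = w i)
    (hne : ∃ j, aeval R (pderiv j F) ≠ 0) (G : MvPolynomial (Fin N) k) (hG : aeval R G = 0) : F ∣ G := by
  by_contra hcon
  have hFp : Prime F := hF.prime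
  have hI : (Ideal.span {F}).IsPrime := (Ideal.span_singleton_prime hFp.ne_zero).2 hFp
  have hTid : TD (AlgHom.id k (MvPolynomial (Fin N) k)) N := by
    refine TD_poly ?_ _
    rw [MvPolynomial.trdeg_of_isDomain]
    simp
  obtain ⟨n, rfl⟩ : ∃ n, N = n + 2 := ⟨N - 2, by omega⟩
  have hTq : TD (Ideal.Quotient.mkₐ k (Ideal.span {F})) (n + 1) := by
    refine TD_drop (φ₁ := AlgHom.id k (MvPolynomial (Fin (n + 2)) k)) hTid (fun f hf => ?_) F ?_ ?_
    · have hf' : f = 0 := hf
      rw [hf', map_zero]
    · exact Ideal.Quotient.eq_zero_iff_mem.2 (Ideal.mem_span_singleton_self F)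
    · exact hFp.ne_zero
  have hT : TD (aeval R : MvPolynomial (Fin (n + 2)) k →ₐ[k] Ω) n := by
    refine TD_drop hTq (fun f hf => ?_) G hG ?_
    · obtain ⟨q, hq⟩ := Ideal.mem_span_singleton.1 (Ideal.Quotient.eq_zero_iff_mem.1 hf)
      rw [hq, map_mul, h0, zero_mul]
    · intro h1
      exact hcon (Ideal.mem_span_singleton.1 (Ideal.Quotient.eq_zero_iff_mem.1 h1))
  obtain ⟨Z, hZ, hZD⟩ := TD_der R hT
  let L : (Fin (n + 2) → Ω) →ₗ[Ω] Ω :=
    { toFun := fun w => dd F R w
      map_add' := fun w w' => dd_add F R w w'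
      map_smul' := fun t w => dd_smul F R w t }
  have hLZ : LinearMap.ker L ≤ Z := by
    intro w hw
    obtain ⟨D, hD⟩ := hder w hw
    have h1 := hZD D
    have h2 : (fun i => D (R i)) = w := funext hD
    rwa [h2] at h1
  have hLs : Function.Surjective L := by
    apply LinearMap.surjective
    intro h1
    obtain ⟨j, hj⟩ := hne
    apply hj
    have h2 := LinearMap.congr_fun h1 (Pi.single j 1)
    have h3 : L (Pi.single j 1) = aeval R (pderiv j F) := by
      change dd F R (Pi.single j 1) = _
      rw [dd, Finset.sum_eq_single j]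
      · rw [Pi.single_eq_same, one_mul]
      · intro i _ hi
        rw [Pi.single_eq_of_ne hi, zero_mul]
      · intro h
        exact absurd (Finset.mem_univ _) h
    rw [h3] at h2
    exact h2
  have h1 := LinearMap.finrank_range_add_finrank_ker L
  rw [LinearMap.range_eq_top.2 hLs, finrank_top, Module.finrank_self, Module.finrank_fin_fun] at h1
  have h2 := Submodule.finrank_mono hLZ
  omega

end

/-- Irreducible hypersurfaces which contain a free linear space of admissible dimension are unirational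
(over any field of characteristic zero). -/
theorem top_core (hEE : SEE.{u}) {k : Type u} [Field k] [CharZero k] {N A d : ℕ}
    (hd : 2 ≤ d) (hadm : Adm A Unit (fun _ => d)) (hN3 : 3 ≤ N) (F : MvPolynomial (Fin N) k)
    (hF : F.IsHomogeneous d) (hirr : Irreducible F) (P : Fin A → Fin N → k)
    (hP : ∀ G : MvPolynomial (Fin A ⊕ Fin N) k,
      G = aeval (fun j => ∑ i, C (P i j) * X (Sum.inl i) + X (Sum.inr j)) F →
        Van G ∧ Free (fun _ : Unit => d) (fun _ : Unit => G)) :
    ∃ (m : ℕ) (Rh : Fin N → FractionRing (MvPolynomial (Fin m) k)), Rh ≠ 0 ∧ aeval Rh F = 0 ∧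
      ∀ (G : MvPolynomial (Fin N) k) (e : ℕ), G.IsHomogeneous e → aeval Rh G = 0 → F ∣ G := by
  obtain ⟨z, hz⟩ : ∃ z : Fin N → MvPolynomial (Fin A ⊕ Fin N) k,
      z = fun j => ∑ i, C (P i j) * X (Sum.inl i) + X (Sum.inr j) := ⟨_, rfl⟩
  obtain ⟨hV, hfree⟩ := hP (aeval z F) (by rw [hz])
  have hzh : ∀ j, (z j).IsHomogeneous 1 := by
    intro j
    rw [hz]
    refine (IsHomogeneous.sum _ _ _ fun i _ => ?_).add (isHomogeneous_X _ _)
    have := (isHomogeneous_C (Fin A ⊕ Fin N) (P i j)).mul (isHomogeneous_X k (Sum.inl i : Fin A ⊕ Fin N))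
    rwa [zero_add] at this
  have hGh : (aeval z F : MvPolynomial (Fin A ⊕ Fin N) k).IsHomogeneous d := by
    have := hF.aeval z hzh
    rwa [one_mul] at this
  obtain ⟨Ω, _, _, hPT, R', hR'⟩ := ex_of_adm hEE hadm k N (fun _ => aeval z F) (fun _ => hd) (fun _ => hGh)
    (fun _ => hV) hfree
  have hcΩ : CharZero Ω := charZero_of_injective_algebraMap (algebraMap k Ω).injective
  obtain ⟨R, hR⟩ : ∃ R : Fin N → Ω, R = fun j => aeval R' (z j) := ⟨_, rfl⟩
  have h0 : aeval R F = 0 := by
    have h1 := hR'.zero ()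
    rw [← AlgHom.comp_apply, comp_aeval] at h1
    rw [hR]
    exact h1
  have hsub : ∀ ω, dd (aeval z F) R' ω = dd F R (fun j => dd (z j) R' ω) := by
    intro ω
    rw [dd_subst, hR]
  have hzd : ∀ ω j, dd (z j) R' ω = ∑ i, algebraMap k Ω (P i j) * ω (Sum.inl i) + ω (Sum.inr j) := by
    intro ω j
    classical
    rw [hz, dd, Fintype.sum_sum_type]
    congr 1
    · refine Finset.sum_congr rfl fun i _ => ?_
      rw [map_add, map_sum, pderiv_X_of_ne (by simp), add_zero, Finset.sum_eq_single i]
      · rw [pderiv_C_mul, pderiv_X_self, mul_one, aeval_C, mul_comm]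
      · intro m _ hm
        rw [pderiv_C_mul, pderiv_X_of_ne (by simpa using hm), mul_zero]
      · intro h
        exact absurd (Finset.mem_univ _) h
    · rw [Finset.sum_eq_single j]
      · rw [map_add, map_sum, pderiv_X_self, Finset.sum_eq_zero, zero_add, map_one, mul_one]
        intro m _
        rw [pderiv_C_mul, pderiv_X_of_ne (by simp), mul_zero]
      · intro m _ hm
        rw [map_add, map_sum, pderiv_X_of_ne (by simpa using hm.symm), add_zero, Finset.sum_eq_zero, map_zero, mul_zero]
        intro i _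
        rw [pderiv_C_mul, pderiv_X_of_ne (by simp), mul_zero]
      · intro h
        exact absurd (Finset.mem_univ _) h
  have hder : ∀ w : Fin N → Ω, dd F R w = 0 → ∃ D : Derivation k Ω Ω, ∀ i, D (R i) = w i := by
    intro w hw
    obtain ⟨D, hD⟩ := hR'.der (Sum.elim (fun _ => 0) w) (fun _ => by
      rw [hsub]
      have h1 : (fun j => dd (z j) R' (Sum.elim (fun _ => 0) w)) = w := by
        funext j
        rw [hzd]
        simp
      rw [h1]
      exact hw)
    refine ⟨D, fun j => ?_⟩
    rw [hR]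
    change D (aeval R' (z j)) = w j
    rw [← dd_der, funext hD, hzd]
    simp
  have hne : ∃ j, aeval R (pderiv j F) ≠ 0 := by
    by_contra hcon
    push Not at hcon
    have h1 := hR'.ind.ne_zero ()
    apply h1
    funext l
    change aeval R' (pderiv (Sum.inl l) (aeval z F)) = 0
    rw [← dd_single, hsub, dd]
    exact Finset.sum_eq_zero fun j _ => by rw [hcon, mul_zero]
  have hgen := generic hN3 hirr R h0 hder hne
  have hR0 : R ≠ 0 := by
    intro h1
    have hFz : F ∣ X ⟨0, by omega⟩ := hgen _ (by rw [aeval_X, h1]; rfl)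
    obtain ⟨c, hc⟩ := hFz
    have hX0 : (X ⟨0, by omega⟩ : MvPolynomial (Fin N) k) ≠ 0 := X_ne_zero _
    have hF0 : F ≠ 0 := by
      rintro rfl
      rw [zero_mul] at hc
      exact hX0 hc
    have hc0 : c ≠ 0 := by
      rintro rfl
      rw [mul_zero] at hc
      exact hX0 hc
    have h2 := congrArg totalDegree hc
    rw [totalDegree_mul_of_isDomain hF0 hc0, hF.totalDegree hF0, totalDegree_X] at h2
    omega
  have hPT' : Pool.Agent.R867.Mov.PT k Ω := hPT
  obtain ⟨m, ⟨eq⟩⟩ := hPT'.equiv
  have hinj : Function.Injective (eq : Ω →ₐ[k] FractionRing (MvPolynomial (Fin m) k)) := eq.injective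
  have hmap : ∀ G : MvPolynomial (Fin N) k, aeval (fun i => (eq : Ω →ₐ[k] FractionRing (MvPolynomial (Fin m) k)) (R i)) G =
      (eq : Ω →ₐ[k] FractionRing (MvPolynomial (Fin m) k)) (aeval R G) := by
    intro G
    rw [← AlgHom.comp_apply, comp_aeval]
  refine ⟨m, fun i => (eq : Ω →ₐ[k] FractionRing (MvPolynomial (Fin m) k)) (R i), ?_, ?_, ?_⟩
  · intro h1
    apply hR0
    funext i
    exact hinj (by rw [Pi.zero_apply, map_zero]; exact congrFun h1 i)
  · rw [hmap, h0, map_zero]
  · intro G e _ hG
    rw [hmap] at hG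
    exact hgen G (hinj (by rw [hG, map_zero]))

/-- Hypersurfaces which are nonsingular along a linear space of large dimension are unirational. -/
theorem top (hEE : SEE.{u}) (hEXL : SEXL.{u}) {k : Type u} [Field k] [IsAlgClosed k] [CharZero k] {N N' A d : ℕ}
    (hd : 2 ≤ d) (hA : 1 ≤ A) (hadm : Adm A Unit (fun _ => d)) (hN3 : 3 ≤ N')
    (hN : Nat.choose (A + d - 1) d + Nat.choose (A + d - 2) (d - 1) ≤ N') (F : MvPolynomial (Fin N) k)
    (hF : F.IsHomogeneous d) (L : Fin N' → Fin N → k)
    (hs : ∀ z : Fin N' → k, (∀ i, aeval (fun j => ∑ l, z l * L l j) (pderiv i F) = 0) → z = 0) :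
    ∃ (m : ℕ) (Rh : Fin N → FractionRing (MvPolynomial (Fin m) k)), Rh ≠ 0 ∧ aeval Rh F = 0 ∧
      ∀ (G : MvPolynomial (Fin N) k) (e : ℕ), G.IsHomogeneous e → aeval Rh G = 0 → F ∣ G := by
  obtain ⟨P, hP⟩ := hEXL k N N' A d hd hA hN F L hF hs
  have hNN : N' ≤ N := by
    let θ : (Fin N' → k) →ₗ[k] (Fin N → k) :=
      { toFun := fun z j => ∑ l, z l * L l j
        map_add' := fun z z' => by
          funext j
          simp only [Pi.add_apply, add_mul, Finset.sum_add_distrib]
        map_smul' := fun c z => by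
          funext j
          simp only [Pi.smul_apply, smul_eq_mul, Finset.mul_sum, mul_assoc, RingHom.id_apply] }
    have hinj : Function.Injective θ := by
      rw [← LinearMap.ker_eq_bot, LinearMap.ker_eq_bot']
      intro z hz
      refine hs z fun i => ?_
      have h1 : (fun j => ∑ l, z l * L l j) = 0 := hz
      rw [h1]
      have h2 : (pderiv i F).IsHomogeneous (d - 1) := hF.pderiv
      have h3 : constantCoeff (pderiv i F) = 0 := by
        rw [constantCoeff_eq]
        exact h2.coeff_eq_zero (by simp; omega)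
      rw [← h3]
      exact congrArg (fun f : MvPolynomial (Fin N) k →+* k => f (pderiv i F)) eval_zero
    have h1 := LinearMap.finrank_le_finrank_of_injective hinj
    rwa [Module.finrank_fin_fun, Module.finrank_fin_fun] at h1
  exact top_core hEE hd hadm (hN3.trans hNN) F hF (irred hN3 hd hF L hs) P hP

end Pool.Agent.Helper4.HY
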