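import Pool.Agent.Helper4.HY.Top
import Pool.Agent.Helper4.HY.Defs3

/-!
# Unirationality of smooth complete intersections
-/

set_option autoImplicit false

namespace Pool.Agent.Helper4.HY

open MvPolynomial Pool.Agent.Helper4.QH

universe u v w

section

variable {k : Type u} [Field k] {m : ℕ} {M : Type v} [Field M] [Algebra k M] [CharZero M]

open Pool.Agent.R867.Mov Pool.Agent.R867.J

/-- as `TD_der`, with coordinates -/
theorem TD_coord (y : Fin m → M) {r : ℕ} (h : ∀ e : Fin (r + 1) → Fin m, ¬ AlgebraicIndependent k (fun i => y (e i))) :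
    ∃ Z : Submodule M (Fin m → M), Module.finrank M Z ≤ r ∧
      ∀ D : Derivation k M M, (fun i => D (y i)) ∈ Z := by
  classical
  obtain ⟨I, hI⟩ := (AlgebraicIndependent.matroid k M).exists_isBasis (Set.range y)
  have hIind : AlgebraicIndepOn k id I := hI.indep
  have hIsub : I ⊆ Set.range y := hI.subset
  have hIcl : Set.range y ⊆ cl k I := by
    rw [← cl_eq]
    exact hI.subset_closure
  have hfin : I.Finite := (Set.finite_range y).subset hIsub
  have hcard : hfin.toFinset.card ≤ r := by
    by_contra hcon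
    push Not at hcon
    have hemb : Nonempty (Fin (r + 1) ↪ I) := by
      have : Fintype I := hfin.fintype
      refine Function.Embedding.nonempty_of_card_le ?_
      rw [Fintype.card_fin]
      have h2 : Fintype.card I = hfin.toFinset.card := by
        rw [← Set.toFinset_card]
        congr 1
        ext z
        simp
      rw [h2]
      exact hcon
    obtain ⟨e⟩ := hemb
    have hpre : ∀ z : I, ∃ i, y i = z := fun z => hIsub z.2
    choose p hp using hpre
    refine h (fun i => p (e i)) ?_
    have h3 : (fun i => y (p (e i))) = fun i => ((e i : I) : M) := by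
      funext i
      rw [hp]
    rw [h3]
    exact hIind.comp e e.injective
  let evB : Derivation k M M →ₗ[M] (hfin.toFinset → M) :=
    { toFun := fun D b => D b
      map_add' := fun D E => rfl
      map_smul' := fun c D => rfl }
  let evy : Derivation k M M →ₗ[M] (Fin m → M) :=
    { toFun := fun D i => D (y i)
      map_add' := fun D E => rfl
      map_smul' := fun c D => rfl }
  have hker : LinearMap.ker evB ≤ LinearMap.ker evy := by
    intro D hD
    rw [LinearMap.mem_ker] at hD ⊢
    funext i
    refine der_cl D (S := I) ?_ (hIcl ⟨i, rfl⟩)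
    intro z hz
    exact congrFun hD ⟨z, hfin.mem_toFinset.2 hz⟩
  refine ⟨LinearMap.range evy, ?_, fun D => ⟨D, rfl⟩⟩
  obtain ⟨θ, hθ⟩ : ∃ θ : (hfin.toFinset → M) →ₗ[M] (Fin m → M), evy = θ.comp evB := by
    obtain ⟨s, hs⟩ := (evB.rangeRestrict).exists_rightInverse_of_surjective
      (LinearMap.range_rangeRestrict evB)
    obtain ⟨θ, hθ⟩ := (evy.comp s).exists_extend
    refine ⟨θ, ?_⟩
    ext1 D
    have h1 : θ (evB D) = (evy.comp s) (evB.rangeRestrict D) := by
      rw [← hθ]
      rfl
    rw [LinearMap.comp_apply, h1, LinearMap.comp_apply]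
    have h2 : evB (s (evB.rangeRestrict D)) = evB D := by
      have h3 := congrArg Subtype.val (LinearMap.congr_fun hs (evB.rangeRestrict D))
      exact h3
    have h4 : D - s (evB.rangeRestrict D) ∈ LinearMap.ker evB := by
      rw [LinearMap.mem_ker, map_sub, h2, sub_self]
    have h5 := hker h4
    rw [LinearMap.mem_ker, map_sub, sub_eq_zero] at h5
    exact h5
  have hle : LinearMap.range evy ≤ LinearMap.range θ := by
    rw [hθ]
    exact LinearMap.range_comp_le_range _ _
  calc Module.finrank M (LinearMap.range evy) ≤ Module.finrank M (LinearMap.range θ) :=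
        Submodule.finrank_mono hle
    _ ≤ Module.finrank M (hfin.toFinset → M) := LinearMap.finrank_range_le θ
    _ = hfin.toFinset.card := by rw [Module.finrank_fintype_fun_eq_card, Fintype.card_coe]
    _ ≤ r := hcard

end

section

variable {k : Type u} [Field k] {N r : ℕ} {Ω : Type v} [Field Ω] [Algebra k Ω] [CharZero Ω]

/-- algebraically independent ratios -/
theorem ratios {s : ℕ} (hN : N = s + r + 1) (F : Fin r → MvPolynomial (Fin N) k) (R : Fin N → Ω) 
    (hder : ∀ w : Fin N → Ω, (∀ i, dd (F i) R w = 0) → ∃ D : Derivation k Ω Ω, ∀ i, D (R i) = w i)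
    (j : Fin N) (hj : R j ≠ 0) :
    ∃ e : Fin s → Fin N, AlgebraicIndependent k (fun i => R (e i) / R j) := by
  rcases Nat.eq_zero_or_pos s with rfl | hs
  · exact ⟨Fin.elim0, algebraicIndependent_empty_type⟩
  obtain ⟨s, rfl⟩ : ∃ t, s = t + 1 := ⟨s - 1, by omega⟩
  by_contra hcon
  push Not at hcon
  obtain ⟨Z, hZ, hZD⟩ := TD_coord (k := k) (fun i => R i / R j) hcon
  let J : (Fin N → Ω) →ₗ[Ω] (Fin r → Ω) :=
    { toFun := fun w i => dd (F i) R w
      map_add' := fun w w' => funext fun i => dd_add (F i) R w w'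
      map_smul' := fun t w => funext fun i => dd_smul (F i) R w t }
  let T : (Fin N → Ω) →ₗ[Ω] (Fin N → Ω) :=
    { toFun := fun w i => (w i * R j - R i * w j) / (R j) ^ 2
      map_add' := fun w w' => by
        funext i
        simp only [Pi.add_apply]
        ring
      map_smul' := fun t w => by
        funext i
        simp only [Pi.smul_apply, smul_eq_mul, RingHom.id_apply]
        ring }
  have hTZ : Submodule.map T (LinearMap.ker J) ≤ Z := by
    rintro _ ⟨w, hw, rfl⟩
    obtain ⟨D, hD⟩ := hder w fun i => congrFun hw i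
    have h1 := hZD D
    have h2 : (fun i => D (R i / R j)) = T w := by
      funext i
      rw [div_eq_mul_inv, D.leibniz, D.leibniz_inv, hD, hD]
      change _ = (w i * R j - R i * w j) / (R j) ^ 2
      rw [smul_eq_mul, smul_eq_mul]
      simp only [smul_eq_mul]
      field_simp
      ring
    rwa [h2] at h1
  have hT : Module.finrank Ω (LinearMap.ker T) ≤ 1 := by
    have h1 : LinearMap.ker T ≤ Submodule.span Ω {R} := by
      intro w hw
      rw [Submodule.mem_span_singleton]
      refine ⟨w j / R j, ?_⟩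
      funext i
      have h2 := congrFun hw i
      change (w i * R j - R i * w j) / (R j) ^ 2 = 0 at h2
      rw [div_eq_zero_iff] at h2
      have h3 := h2.resolve_right (pow_ne_zero _ hj)
      rw [Pi.smul_apply, smul_eq_mul, div_mul_eq_mul_div, div_eq_iff hj]
      rw [sub_eq_zero] at h3
      rw [h3, mul_comm]
    refine (Submodule.finrank_mono h1).trans ?_
    have hR0 : R ≠ 0 := fun h2 => hj (congrFun h2 j)
    exact (finrank_span_singleton hR0).le
  have h1 := LinearMap.finrank_range_add_finrank_ker J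
  have h2 := LinearMap.finrank_range_le J
  have h2' : Module.finrank Ω (LinearMap.range J) ≤ r := by
    have := Submodule.finrank_le (LinearMap.range J)
    rwa [Module.finrank_fin_fun] at this
  rw [Module.finrank_fin_fun] at h1
  -- the image of the kernel
  let T' := T.domRestrict (LinearMap.ker J)
  have h3 := LinearMap.finrank_range_add_finrank_ker T'
  have h4 : LinearMap.range T' ≤ Z := by
    rintro _ ⟨w, rfl⟩
    exact hTZ ⟨w.1, w.2, rfl⟩
  have h5 := Submodule.finrank_mono h4
  have h6 : Module.finrank Ω (LinearMap.ker T') ≤ Module.finrank Ω (LinearMap.ker T) := by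
    let ψ : LinearMap.ker T' →ₗ[Ω] LinearMap.ker T :=
      LinearMap.codRestrict (LinearMap.ker T) ((LinearMap.ker J).subtype.comp (LinearMap.ker T').subtype) (fun w => w.2)
    have hψ : Function.Injective ψ := by
      intro w w' h
      have h7 := congrArg Subtype.val h
      exact Subtype.ext (Subtype.ext h7)
    exact LinearMap.finrank_le_finrank_of_injective hψ
  omega

end

/-- A complete intersection which contains a free linear space of admissible dimension has a point `R` over
a field of rational functions such that all tangent vectors at `R` are values of derivations. -/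
theorem topD (hEE : SEE.{u}) {k : Type u} [Field k] [CharZero k] {N r A : ℕ}
    {d : Fin r → ℕ} (hr : 1 ≤ r)
    (hd : ∀ i, 2 ≤ d i) (hadm : Adm A (Fin r) d) (F : Fin r → MvPolynomial (Fin N) k)
    (hF : ∀ i, (F i).IsHomogeneous (d i)) (P : Fin A → Fin N → k)
    (hP : ∀ G : Fin r → MvPolynomial (Fin A ⊕ Fin N) k,
      (∀ i, G i = aeval (fun j => ∑ l, C (P l j) * X (Sum.inl l) + X (Sum.inr j)) (F i)) →
        (∀ i, Van (G i)) ∧ Free d G) :
    ∃ (Ω : Type u) (_ : Field Ω) (_ : Algebra k Ω), PT k Ω ∧ CharZero Ω ∧ ∃ R : Fin N → Ω,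
      (∃ j, R j ≠ 0) ∧ (∀ i, aeval R (F i) = 0) ∧
      ∀ w : Fin N → Ω, (∀ i, dd (F i) R w = 0) → ∃ D : Derivation k Ω Ω, ∀ i, D (R i) = w i := by
  obtain ⟨z, hz⟩ : ∃ z : Fin N → MvPolynomial (Fin A ⊕ Fin N) k,
      z = fun j => ∑ i, C (P i j) * X (Sum.inl i) + X (Sum.inr j) := ⟨_, rfl⟩
  obtain ⟨hV, hfree⟩ := hP (fun i => aeval z (F i)) (fun i => by rw [hz])
  have hzh : ∀ j, (z j).IsHomogeneous 1 := by
    intro j
    rw [hz]
    refine (IsHomogeneous.sum _ _ _ fun i _ => ?_).add (isHomogeneous_X _ _)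
    have := (isHomogeneous_C (Fin A ⊕ Fin N) (P i j)).mul (isHomogeneous_X k (Sum.inl i : Fin A ⊕ Fin N))
    rwa [zero_add] at this
  have hGh : ∀ i, (aeval z (F i) : MvPolynomial (Fin A ⊕ Fin N) k).IsHomogeneous (d i) := by
    intro i
    have := (hF i).aeval z hzh
    rwa [one_mul] at this
  obtain ⟨Ω, _, _, hPT, R', hR'⟩ := ex_of_adm hEE hadm k N (fun i => aeval z (F i)) hd hGh hV hfree
  have hcΩ : CharZero Ω := charZero_of_injective_algebraMap (algebraMap k Ω).injective
  obtain ⟨R, hR⟩ : ∃ R : Fin N → Ω, R = fun j => aeval R' (z j) := ⟨_, rfl⟩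
  have h0 : ∀ i, aeval R (F i) = 0 := by
    intro i
    have h1 := hR'.zero i
    rw [← AlgHom.comp_apply, comp_aeval] at h1
    rw [hR]
    exact h1
  have hsub : ∀ i ω, dd (aeval z (F i)) R' ω = dd (F i) R (fun j => dd (z j) R' ω) := by
    intro i ω
    rw [dd_subst, hR]
  have hzd : ∀ ω j, dd (z j) R' ω = ∑ i, algebraMap k Ω (P i j) * ω (Sum.inl i) + ω (Sum.inr j) := by
    intro ω j
    classical
    rw [hz, dd, Fintype.sum_sum_type]
    congr 1
    · refine Finset.sum_congr rfl fun i _ => ?_
      rw [map_add, map_sum, pderiv_X_of_ne (by simp), add_zero, Finset.sum_eq_single i]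
      · rw [pderiv_C_mul, pderiv_X_self, mul_one, aeval_C, mul_comm]
      · intro m _ hm
        rw [pderiv_C_mul, pderiv_X_of_ne (by simpa using hm), mul_zero]
      · intro h
        exact absurd (Finset.mem_univ _) h
    · rw [Finset.sum_eq_single j]
      · rw [map_add, map_sum, pderiv_X_self, Finset.sum_eq_zero, zero_add, map_one, mul_one]
        intro m _
        rw [pderiv_C_mul, pderiv_X_of_ne (by simp), mul_zero]
      · intro m _ hm
        rw [map_add, map_sum, pderiv_X_of_ne (by simpa using hm.symm), add_zero, Finset.sum_eq_zero, map_zero, mul_zero]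
        intro i _
        rw [pderiv_C_mul, pderiv_X_of_ne (by simp), mul_zero]
      · intro h
        exact absurd (Finset.mem_univ _) h
  have hder : ∀ w : Fin N → Ω, (∀ i, dd (F i) R w = 0) → ∃ D : Derivation k Ω Ω, ∀ i, D (R i) = w i := by
    intro w hw
    obtain ⟨D, hD⟩ := hR'.der (Sum.elim (fun _ => 0) w) (fun i => by
      rw [hsub]
      have h1 : (fun j => dd (z j) R' (Sum.elim (fun _ => 0) w)) = w := by
        funext j
        rw [hzd]
        simp
      rw [h1]
      exact hw i)
    refine ⟨D, fun j => ?_⟩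
    rw [hR]
    change D (aeval R' (z j)) = w j
    rw [← dd_der, funext hD, hzd]
    simp
  have hne : ∃ j, R j ≠ 0 := by
    by_contra hcon
    push Not at hcon
    have h1 := hR'.ind.ne_zero ⟨0, hr⟩
    apply h1
    funext l
    change aeval R' (pderiv (Sum.inl l) (aeval z (F ⟨0, hr⟩))) = 0
    rw [← dd_single, hsub, dd]
    refine Finset.sum_eq_zero fun j _ => ?_
    have h2 : (pderiv j (F ⟨0, hr⟩)).IsHomogeneous (d ⟨0, hr⟩ - 1) := (hF _).pderiv
    have h3 : constantCoeff (pderiv j (F ⟨0, hr⟩)) = 0 := by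
      rw [constantCoeff_eq]
      refine h2.coeff_eq_zero ?_
      have := hd ⟨0, hr⟩
      simp
      omega
    have h4 : R = fun _ => 0 := funext hcon
    have h5 : aeval R (pderiv j (F ⟨0, hr⟩)) = 0 := by
      rw [h4]
      have h6 := aeval_zero' (S₁ := Ω) (pderiv j (F ⟨0, hr⟩))
      rw [h6, h3, map_zero]
    rw [h5, mul_zero]
  exact ⟨Ω, inferInstance, inferInstance, hPT, hcΩ, R, hne, h0, hder⟩

/-- Smooth complete intersections which contain a free linear space of admissible dimension are
unirational. -/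
theorem topC (hEE : SEE.{u}) {k : Type u} [Field k] [CharZero k] {N r s A : ℕ} (hN : N = s + r + 1)
    {d : Fin r → ℕ} (hr : 1 ≤ r)
    (hd : ∀ i, 2 ≤ d i) (hadm : Adm A (Fin r) d) (F : Fin r → MvPolynomial (Fin N) k)
    (hF : ∀ i, (F i).IsHomogeneous (d i)) (P : Fin A → Fin N → k)
    (hP : ∀ G : Fin r → MvPolynomial (Fin A ⊕ Fin N) k,
      (∀ i, G i = aeval (fun j => ∑ l, C (P l j) * X (Sum.inl l) + X (Sum.inr j)) (F i)) →
        (∀ i, Van (G i)) ∧ Free d G) :
    ∃ (m : ℕ) (Rh : Fin N → FractionRing (MvPolynomial (Fin m) k)) (j : Fin N)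
      (e : Fin s → Fin N), Rh j ≠ 0 ∧ (∀ i, aeval Rh (F i) = 0) ∧
      AlgebraicIndependent k (fun i => Rh (e i) / Rh j) := by
  obtain ⟨Ω, _, _, hPT, hcΩ, R, ⟨j, hj⟩, h0, hder⟩ := topD hEE hr hd hadm F hF P hP
  obtain ⟨e, he⟩ := ratios hN F R hder j hj
  have hPT' : Pool.Agent.R867.Mov.PT k Ω := hPT
  obtain ⟨m, ⟨eq⟩⟩ := hPT'.equiv
  have hinj : Function.Injective (eq : Ω →ₐ[k] FractionRing (MvPolynomial (Fin m) k)) := eq.injective
  have hmap : ∀ G : MvPolynomial (Fin N) k, aeval (fun i => (eq : Ω →ₐ[k] FractionRing (MvPolynomial (Fin m) k)) (R i)) G =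
      (eq : Ω →ₐ[k] FractionRing (MvPolynomial (Fin m) k)) (aeval R G) := by
    intro G
    rw [← AlgHom.comp_apply, comp_aeval]
  refine ⟨m, fun i => (eq : Ω →ₐ[k] FractionRing (MvPolynomial (Fin m) k)) (R i), j, e, ?_, ?_, ?_⟩
  · intro h1
    exact hj (hinj (h1.trans (map_zero _).symm))
  · intro i
    rw [hmap, h0, map_zero]
  · have h1 := he.map' hinj
    have h2 : (fun i => (eq : Ω →ₐ[k] FractionRing (MvPolynomial (Fin m) k)) (R (e i)) /
        (eq : Ω →ₐ[k] FractionRing (MvPolynomial (Fin m) k)) (R j)) =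
        (eq : Ω →ₐ[k] FractionRing (MvPolynomial (Fin m) k)) ∘ fun i => R (e i) / R j := by
      funext i
      rw [Function.comp_apply, map_div₀]
    rw [h2]
    exact h1

end Pool.Agent.Helper4.HY
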